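import Pool.Agent.H76.BP.Alg2

/-!
# The comparison function for `7/4 ≤ p < 2`, `(m, k) = (1, 2)`
-/

set_option autoImplicit false

namespace Pool.Agent.H76.SC3

open Pool.Agent.H76.BP (FF GG FF_eq)

/-- Bernstein row -/
noncomputable def rw0 (X : ℝ) : ℝ :=
  (5184000) + (13014000)*X^1 + (10449000)*X^2 + (2877000)*X^3 + (1270000)*X^4 + (1484000)*X^5 + (472000)*X^6

/-- Bernstein row -/
noncomputable def rw1 (X : ℝ) : ℝ :=
  (32724000/7) + (73251000/7)*X^1 + (48541275/7)*X^2 + (10851825/7)*X^3 + (10393100/7)*X^4 + (10201300/7)*X^5 + (2582000/7)*X^6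

/-- Bernstein row -/
noncomputable def rw2 (X : ℝ) : ℝ :=
  (205200000/49) + (392571000/49)*X^1 + (173207070/49)*X^2 + (300335)*X^3 + (259010650/147)*X^4 + (71494400/49)*X^5 + (13100000/49)*X^6

/-- Bernstein row -/
noncomputable def rw3 (X : ℝ) : ℝ :=
  (182412000/49) + (1939369500/343)*X^1 + (83019600/343)*X^2 + (-1218921909/1372)*X^3 + (717517475/343)*X^4 + (510321300/343)*X^5 + (8206000/49)*X^6

/-- Bernstein row -/
noncomputable def rw4 (X : ℝ) : ℝ :=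
  (160704000/49) + (8141040000/2401)*X^1 + (-7084277280/2401)*X^2 + (-4873611432/2401)*X^3 + (5919052000/2401)*X^4 + (3702902400/2401)*X^5 + (3392000/49)*X^6

lemma rw0_pos {X : ℝ} (hX : 0 < X) : 0 < rw0 X := by unfold rw0; positivity
lemma rw1_pos {X : ℝ} (hX : 0 < X) : 0 < rw1 X := by unfold rw1; positivity
lemma rw2_pos {X : ℝ} (hX : 0 < X) : 0 < rw2 X := by unfold rw2; positivity
lemma rw3_pos {X : ℝ} (hX : 0 < X) : 0 < rw3 X := by
  unfold rw3
  have h1 : 0 ≤ X ^ 2 * (X - 1 / 4) ^ 2 := by positivity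
  have h2 : 0 < X ^ 1 := by positivity
  have h3 : 0 < X ^ 2 := by positivity
  have h4 : 0 < X ^ 4 := by positivity
  have h5 : 0 < X ^ 5 := by positivity
  have h6 : 0 < X ^ 6 := by positivity
  nlinarith [h1, h2, h3, h4, h5, h6]
lemma rw4_pos {X : ℝ} (hX : 0 < X) : 0 < rw4 X := by
  unfold rw4
  have h1 : 0 ≤ (X ^ 2 - 3 / 2) ^ 2 := by positivity
  have h2 : 0 ≤ X * (X ^ 2 - 1) ^ 2 := by positivity
  have h3 : 0 < X ^ 1 := by positivity
  have h4 : 0 < X ^ 4 := by positivity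
  have h5 : 0 < X ^ 5 := by positivity
  have h6 : 0 < X ^ 6 := by positivity
  nlinarith [h1, h2, h3, h4, h5, h6]

lemma GG_id3 (q X : ℝ) : GG 1 2 q (1 + 2 + q) ((2 - X) * (30 + 20 * X) - 27 * q * X)
    (-(30 + 20 * X) ^ 2 - 810 * q) (30 + 20 * X) X =
    q * X * ((1 + 7 * q) ^ 4 * rw0 X + 4 * (-7 * q) * (1 + 7 * q) ^ 3 * rw1 X
      + 6 * (-7 * q) ^ 2 * (1 + 7 * q) ^ 2 * rw2 X + 4 * (-7 * q) ^ 3 * (1 + 7 * q) * rw3 X
      + (-7 * q) ^ 4 * rw4 X) := by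
  unfold GG rw0 rw1 rw2 rw3 rw4; ring

/-- the comparison function -/
noncomputable def zz (q X : ℝ) : ℝ := 2 - X - 27 * q * X / (30 + 20 * X)

/-- its derivative -/
noncomputable def zz' (q X : ℝ) : ℝ := -1 - 810 * q / (30 + 20 * X) ^ 2

theorem FF_neg {q X : ℝ} (hq : q < 0) (hq7 : -(1 / 7) ≤ q) (hX : 0 < X) :
    FF 1 2 q (zz q X) (zz' q X) X < 0 := by
  have hL : 0 < 30 + 20 * X := by positivity
  have e1 : zz q X = ((2 - X) * (30 + 20 * X) - 27 * q * X) / (30 + 20 * X) := by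
    unfold zz; field_simp
  have e2 : zz' q X = (-(30 + 20 * X) ^ 2 - 810 * q) / (30 + 20 * X) ^ 2 := by
    unfold zz'; field_simp
  rw [e1, e2, FF_eq _ _ _ _ _ _ _ hL.ne', GG_id3]
  have h0 := rw0_pos hX
  have h1 := rw1_pos hX
  have h2 := rw2_pos hX
  have h3 := rw3_pos hX
  have h4 := rw4_pos hX
  have hv : 0 < -7 * q := by linarith
  have hw : 0 ≤ 1 + 7 * q := by linarith
  apply div_neg_of_neg_of_pos _ (by positivity)
  have hP : 0 < (1 + 7 * q) ^ 4 * rw0 X + 4 * (-7 * q) * (1 + 7 * q) ^ 3 * rw1 X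
      + 6 * (-7 * q) ^ 2 * (1 + 7 * q) ^ 2 * rw2 X + 4 * (-7 * q) ^ 3 * (1 + 7 * q) * rw3 X
      + (-7 * q) ^ 4 * rw4 X := by
    generalize -7 * q = v at *
    generalize 1 + 7 * q = w at *
    positivity
  have : 0 < (-q) * X := mul_pos (by linarith) hX
  nlinarith

end Pool.Agent.H76.SC3
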