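import Pool.Agent.H76.SC3.Fix

/-!
# The angle equation
-/

set_option autoImplicit false
open Filter Topology Set

namespace Pool.Agent.H76.SC3

/-- `cos² + μ sin²` -/
noncomputable def Dn (μ φ : ℝ) : ℝ := Real.cos φ ^ 2 + μ * Real.sin φ ^ 2
/-- `sin cos / D` -/
noncomputable def Sn (μ φ : ℝ) : ℝ := Real.sin φ * Real.cos φ / Dn μ φ
/-- the regular part -/
noncomputable def Pn (μ β φ : ℝ) : ℝ := (β * μ + (2 - μ) * Real.cos φ ^ 2) / Dn μ φ
/-- the singular part, corrected -/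
noncomputable def Qn (μ s c : ℝ) : ℝ :=
  c - c * (Real.cos s * (Real.sinc (s * c) * Real.cos (s * c) / Dn μ (s * c)) / Real.sinc s)

section
variable {μ β : ℝ}

lemma Dn_ge (hμ : 0 < μ) (hμ1 : μ ≤ 1) (φ : ℝ) : μ ≤ Dn μ φ := by
  unfold Dn
  have := Real.sin_sq_add_cos_sq φ
  nlinarith [sq_nonneg (Real.cos φ)]

lemma Dn_pos (hμ : 0 < μ) (hμ1 : μ ≤ 1) (φ : ℝ) : 0 < Dn μ φ := lt_of_lt_of_le hμ (Dn_ge hμ hμ1 φ)

lemma Dn_le (hμ : 0 < μ) (hμ1 : μ ≤ 1) (φ : ℝ) : Dn μ φ ≤ 1 := by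
  unfold Dn
  have := Real.sin_sq_add_cos_sq φ
  nlinarith [sq_nonneg (Real.sin φ)]

lemma continuous_Dn : Continuous (Dn μ) := by unfold Dn; fun_prop

lemma abs_sin_sq_sub (a b : ℝ) : |Real.sin a ^ 2 - Real.sin b ^ 2| ≤ |a - b| := by
  have e : Real.sin a ^ 2 - Real.sin b ^ 2 = Real.sin (a + b) * Real.sin (a - b) := by
    rw [Real.sin_add, Real.sin_sub]
    have h1 := Real.sin_sq_add_cos_sq a
    have h2 := Real.sin_sq_add_cos_sq b
    have h3 : Real.cos a ^ 2 = 1 - Real.sin a ^ 2 := by linarith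
    have h4 : Real.cos b ^ 2 = 1 - Real.sin b ^ 2 := by linarith
    calc Real.sin a ^ 2 - Real.sin b ^ 2
        = Real.sin a ^ 2 * (1 - Real.sin b ^ 2) - (1 - Real.sin a ^ 2) * Real.sin b ^ 2 := by ring
      _ = _ := by rw [← h3, ← h4]; ring
  rw [e, abs_mul]
  calc |Real.sin (a + b)| * |Real.sin (a - b)| ≤ 1 * |a - b| :=
        mul_le_mul (Real.abs_sin_le_one _) Real.abs_sin_le_abs (abs_nonneg _) (by norm_num)
    _ = _ := one_mul _

lemma Pn_sub (hμ : 0 < μ) (hμ1 : μ ≤ 1) (hβ : 0 ≤ β) (a b : ℝ) :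
    |Pn μ β a - Pn μ β b| ≤ (β + 2) / μ * |a - b| := by
  have ha := Dn_pos hμ hμ1 a
  have hb := Dn_pos hμ hμ1 b
  have e : Pn μ β a - Pn μ β b = μ * ((1 - μ) * β - (2 - μ))
      * (Real.sin a ^ 2 - Real.sin b ^ 2) / (Dn μ a * Dn μ b) := by
    unfold Pn
    rw [div_sub_div _ _ ha.ne' hb.ne']
    congr 1
    unfold Dn
    have h1 := Real.sin_sq_add_cos_sq a
    have h2 := Real.sin_sq_add_cos_sq b
    have h3 : Real.cos a ^ 2 = 1 - Real.sin a ^ 2 := by linarith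
    have h4 : Real.cos b ^ 2 = 1 - Real.sin b ^ 2 := by linarith
    rw [h3, h4]
    ring
  rw [e, abs_div, abs_mul, abs_mul, abs_of_pos hμ, abs_of_pos (mul_pos ha hb)]
  have h1 : |(1 - μ) * β - (2 - μ)| ≤ β + 2 := by
    rw [abs_le]
    constructor <;> nlinarith
  have h2 := abs_sin_sq_sub a b
  have h3 : μ * μ ≤ Dn μ a * Dn μ b :=
    mul_le_mul (Dn_ge hμ hμ1 a) (Dn_ge hμ hμ1 b) hμ.le ha.le
  calc μ * |(1 - μ) * β - (2 - μ)| * |Real.sin a ^ 2 - Real.sin b ^ 2| / (Dn μ a * Dn μ b)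
      ≤ μ * (β + 2) * |a - b| / (μ * μ) := by
        apply div_le_div₀ (by positivity) _ (by positivity) h3
        gcongr
    _ = (β + 2) / μ * |a - b| := by field_simp

lemma Pn_pos (hμ : 0 < μ) (hμ1 : μ ≤ 1) (hβ : 0 < β) (a : ℝ) : 0 < Pn μ β a := by
  have ha := Dn_pos hμ hμ1 a
  unfold Pn
  have : 0 ≤ (2 - μ) * Real.cos a ^ 2 := mul_nonneg (by linarith) (sq_nonneg _)
  positivity

lemma Pn_le (hμ : 0 < μ) (hμ1 : μ ≤ 1) (hβ : 0 ≤ β) (a : ℝ) : Pn μ β a ≤ (β + 2) / μ := by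
  have ha := Dn_pos hμ hμ1 a
  have hg := Dn_ge hμ hμ1 a
  have hc : Real.cos a ^ 2 ≤ 1 := by
    have := Real.sin_sq_add_cos_sq a
    nlinarith [sq_nonneg (Real.sin a)]
  unfold Pn
  apply div_le_div₀ (by positivity) _ hμ hg
  nlinarith [sq_nonneg (Real.cos a)]

lemma Pn_zero : Pn μ β 0 = β * μ + 2 - μ := by
  unfold Pn Dn; rw [Real.cos_zero, Real.sin_zero]; simp; ring

lemma Pn_pi : Pn μ β Real.pi = β * μ + 2 - μ := by
  unfold Pn Dn; rw [Real.cos_pi, Real.sin_pi]; simp; ring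

lemma Sn_zero : Sn μ 0 = 0 := by unfold Sn; simp
lemma Sn_pi : Sn μ Real.pi = 0 := by unfold Sn; simp

lemma hasDerivAt_Sn (hμ : 0 < μ) (hμ1 : μ ≤ 1) (φ : ℝ) :
    HasDerivAt (Sn μ) ((Real.cos φ ^ 2 - μ * Real.sin φ ^ 2) / Dn μ φ ^ 2) φ := by
  have hD := Dn_pos hμ hμ1 φ
  have h1 : HasDerivAt (fun x => Real.sin x * Real.cos x)
      (Real.cos φ * Real.cos φ + Real.sin φ * -Real.sin φ) φ :=
    (Real.hasDerivAt_sin φ).mul (Real.hasDerivAt_cos φ)
  have h2 : HasDerivAt (Dn μ) (2 * (μ - 1) * (Real.sin φ * Real.cos φ)) φ := by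
    have := ((Real.hasDerivAt_cos φ).pow 2).add (((Real.hasDerivAt_sin φ).pow 2).const_mul μ)
    refine this.congr_deriv ?_
    simp
    ring
  have h3 := h1.div h2 hD.ne'
  refine h3.congr_deriv ?_
  congr 1
  unfold Dn
  have e := Real.sin_sq_add_cos_sq φ
  have e2 : Real.cos φ ^ 2 = 1 - Real.sin φ ^ 2 := by linarith
  have : Real.sin φ * Real.cos φ * (2 * (μ - 1) * (Real.sin φ * Real.cos φ))
      = 2 * (μ - 1) * (Real.sin φ ^ 2 * Real.cos φ ^ 2) := by ring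
  rw [this]
  have e3 : Real.cos φ * Real.cos φ + Real.sin φ * -Real.sin φ
      = Real.cos φ ^ 2 - Real.sin φ ^ 2 := by ring
  rw [e3, e2]
  ring

lemma dSn_le (hμ : 0 < μ) (hμ1 : μ ≤ 1) (φ : ℝ) :
    |(Real.cos φ ^ 2 - μ * Real.sin φ ^ 2) / Dn μ φ ^ 2| ≤ 1 / μ ^ 2 := by
  have hD := Dn_pos hμ hμ1 φ
  have hg := Dn_ge hμ hμ1 φ
  have e := Real.sin_sq_add_cos_sq φ
  rw [abs_div, abs_of_pos (by positivity : 0 < Dn μ φ ^ 2)]
  apply div_le_div₀ (by norm_num) _ (by positivity) (by gcongr)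
  rw [abs_le]
  constructor <;> nlinarith [sq_nonneg (Real.sin φ), sq_nonneg (Real.cos φ)]

lemma dSn_sub (hμ : 0 < μ) (hμ1 : μ ≤ 1) (φ : ℝ) :
    |1 - (Real.cos φ ^ 2 - μ * Real.sin φ ^ 2) / Dn μ φ ^ 2| ≤ 3 / μ ^ 2 * φ ^ 2 := by
  have hD := Dn_pos hμ hμ1 φ
  have hg := Dn_ge hμ hμ1 φ
  have e := Real.sin_sq_add_cos_sq φ
  have e2 : Real.cos φ ^ 2 = 1 - Real.sin φ ^ 2 := by linarith
  have e3 : 1 - (Real.cos φ ^ 2 - μ * Real.sin φ ^ 2) / Dn μ φ ^ 2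
      = Real.sin φ ^ 2 * (3 * μ - 1 + (1 - μ) ^ 2 * Real.sin φ ^ 2) / Dn μ φ ^ 2 := by
    rw [eq_div_iff (by positivity), sub_mul, div_mul_cancel₀ _ (by positivity)]
    unfold Dn
    rw [e2]
    ring
  have hs : Real.sin φ ^ 2 ≤ φ ^ 2 := Real.sin_sq_le_sq
  have hs1 : Real.sin φ ^ 2 ≤ 1 := by nlinarith [sq_nonneg (Real.cos φ)]
  have hs0 : 0 ≤ Real.sin φ ^ 2 := sq_nonneg _
  rw [e3, abs_div, abs_mul, abs_of_nonneg hs0, abs_of_pos (by positivity : 0 < Dn μ φ ^ 2)]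
  have h1 : |3 * μ - 1 + (1 - μ) ^ 2 * Real.sin φ ^ 2| ≤ 3 := by
    rw [abs_le]
    constructor
    · have : 0 ≤ (1 - μ) ^ 2 * Real.sin φ ^ 2 := by positivity
      linarith
    · have : (1 - μ) ^ 2 * Real.sin φ ^ 2 ≤ 1 * 1 := by
        apply mul_le_mul _ hs1 hs0 (by norm_num)
        nlinarith
      linarith
  calc Real.sin φ ^ 2 * |3 * μ - 1 + (1 - μ) ^ 2 * Real.sin φ ^ 2| / Dn μ φ ^ 2
      ≤ φ ^ 2 * 3 / μ ^ 2 := by
        apply div_le_div₀ (by positivity) _ (by positivity) (by gcongr)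
        exact mul_le_mul hs h1 (abs_nonneg _) (sq_nonneg _)
    _ = _ := by ring

/-- `Sn` is Lipschitz -/
lemma Sn_sub (hμ : 0 < μ) (hμ1 : μ ≤ 1) (a b : ℝ) :
    |Sn μ a - Sn μ b| ≤ 1 / μ ^ 2 * |a - b| := by
  have := (convex_univ (𝕜 := ℝ) (E := ℝ)).norm_image_sub_le_of_norm_hasDerivWithin_le
    (f := Sn μ) (f' := fun φ => (Real.cos φ ^ 2 - μ * Real.sin φ ^ 2) / Dn μ φ ^ 2)
    (C := 1 / μ ^ 2) (fun x _ => (hasDerivAt_Sn hμ hμ1 x).hasDerivWithinAt)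
    (fun x _ => by rw [Real.norm_eq_abs]; exact dSn_le hμ hμ1 x) (mem_univ b) (mem_univ a)
  simpa [Real.norm_eq_abs] using this

/-- elementary inequality -/
lemma sin_sub_mul_cos {s : ℝ} (hs : s ∈ Icc 0 (Real.pi / 2)) :
    0 ≤ Real.sin s - s * Real.cos s ∧ Real.sin s - s * Real.cos s ≤ s ^ 2 * Real.sin s := by
  have hpi : (0 : ℝ) < Real.pi / 2 := by positivity
  have hsin : ∀ x ∈ Icc 0 (Real.pi / 2), 0 ≤ Real.sin x := fun x hx =>
    Real.sin_nonneg_of_nonneg_of_le_pi hx.1 (by linarith [hx.2, Real.pi_pos])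
  have hcos : ∀ x ∈ Icc 0 (Real.pi / 2), 0 ≤ Real.cos x := fun x hx =>
    Real.cos_nonneg_of_mem_Icc ⟨by linarith [hx.1], hx.2⟩
  constructor
  · have hd : ∀ x, HasDerivAt (fun x => Real.sin x - x * Real.cos x) (x * Real.sin x) x := by
      intro x
      have := (Real.hasDerivAt_sin x).sub ((hasDerivAt_id x).mul (Real.hasDerivAt_cos x))
      refine this.congr_deriv ?_
      simp
    have hm : MonotoneOn (fun x => Real.sin x - x * Real.cos x) (Icc 0 (Real.pi / 2)) := by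
      apply monotoneOn_of_deriv_nonneg (convex_Icc _ _) (by fun_prop)
      · exact fun x _ => (hd x).differentiableAt.differentiableWithinAt
      · intro x hx
        rw [interior_Icc] at hx
        rw [(hd x).deriv]
        exact mul_nonneg hx.1.le (hsin x ⟨hx.1.le, hx.2.le⟩)
    have := hm ⟨le_refl _, hpi.le⟩ hs hs.1
    simpa using this
  · have hd : ∀ x, HasDerivAt (fun x => x ^ 2 * Real.sin x - (Real.sin x - x * Real.cos x))
        (x * Real.sin x + x ^ 2 * Real.cos x) x := by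
      intro x
      have h1 : HasDerivAt (fun x : ℝ => x ^ 2) (2 * x) x := by simpa using hasDerivAt_pow 2 x
      have := (h1.mul (Real.hasDerivAt_sin x)).sub
        ((Real.hasDerivAt_sin x).sub ((hasDerivAt_id x).mul (Real.hasDerivAt_cos x)))
      refine this.congr_deriv ?_
      simp
      ring
    have hm : MonotoneOn (fun x => x ^ 2 * Real.sin x - (Real.sin x - x * Real.cos x))
        (Icc 0 (Real.pi / 2)) := by
      apply monotoneOn_of_deriv_nonneg (convex_Icc _ _) (by fun_prop)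
      · exact fun x _ => (hd x).differentiableAt.differentiableWithinAt
      · intro x hx
        rw [interior_Icc] at hx
        rw [(hd x).deriv]
        have h1 := hsin x ⟨hx.1.le, hx.2.le⟩
        have h2 := hcos x ⟨hx.1.le, hx.2.le⟩
        have h3 := hx.1.le
        positivity
    have := hm ⟨le_refl _, hpi.le⟩ hs hs.1
    simp at this
    linarith

lemma sinc_pos {s : ℝ} (hs : s ∈ Icc 0 (Real.pi / 2)) : 0 < Real.sinc s := by
  rcases eq_or_lt_of_le hs.1 with h | h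
  · rw [← h, Real.sinc_zero]; norm_num
  · rw [Real.sinc_of_ne_zero h.ne']
    exact div_pos (Real.sin_pos_of_pos_of_lt_pi h (by linarith [hs.2, Real.pi_pos])) h

lemma Qn_eq {s : ℝ} (hs : s ≠ 0) (c : ℝ) :
    Qn μ s c = c - Real.cos s / Real.sin s * Sn μ (s * c) := by
  unfold Qn Sn
  by_cases hc : c = 0
  · rw [hc]; simp
  · rw [Real.sinc_of_ne_zero hs, Real.sinc_of_ne_zero (mul_ne_zero hs hc)]
    by_cases hsin : Real.sin s = 0
    · rw [hsin]; simp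
    · field_simp

lemma Qn_zero_left (c : ℝ) : Qn μ 0 c = 0 := by
  unfold Qn Dn
  simp

lemma Qn_zero_right (s : ℝ) : Qn μ s 0 = 0 := by
  unfold Qn; simp

/-- **The key estimate.** -/
lemma Qn_sub (hμ : 0 < μ) (hμ1 : μ ≤ 1) {K : ℝ} (hK : 0 ≤ K) {s : ℝ}
    (hs : s ∈ Icc 0 (Real.pi / 2)) {c c' : ℝ} (hc : c ∈ Icc 0 K) (hc' : c' ∈ Icc 0 K) :
    |Qn μ s c - Qn μ s c'| ≤ (3 * K ^ 2 + 1) / μ ^ 2 * s ^ 2 * |c - c'| := by
  rcases eq_or_lt_of_le hs.1 with h0 | h0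
  · rw [← h0, Qn_zero_left, Qn_zero_left]
    simp
  have hsin : 0 < Real.sin s := Real.sin_pos_of_pos_of_lt_pi h0 (by linarith [hs.2, Real.pi_pos])
  have hcos : 0 ≤ Real.cos s := Real.cos_nonneg_of_mem_Icc ⟨by linarith [Real.pi_pos], hs.2⟩
  obtain ⟨i1, i2⟩ := sin_sub_mul_cos hs
  rw [Qn_eq h0.ne', Qn_eq h0.ne']
  have hd : ∀ x, HasDerivAt (fun c => c - Real.cos s / Real.sin s * Sn μ (s * c))
      (1 - Real.cos s / Real.sin s * ((Real.cos (s * x) ^ 2 - μ * Real.sin (s * x) ^ 2)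
        / Dn μ (s * x) ^ 2 * s)) x := by
    intro x
    have h1 : HasDerivAt (fun c : ℝ => s * c) s x := by
      simpa using (hasDerivAt_id x).const_mul s
    exact (hasDerivAt_id x).sub (((hasDerivAt_Sn hμ hμ1 (s * x)).comp x h1).const_mul _)
  have := (convex_Icc (0 : ℝ) K).norm_image_sub_le_of_norm_hasDerivWithin_le
    (f := fun c => c - Real.cos s / Real.sin s * Sn μ (s * c))
    (f' := fun x => 1 - Real.cos s / Real.sin s * ((Real.cos (s * x) ^ 2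
      - μ * Real.sin (s * x) ^ 2) / Dn μ (s * x) ^ 2 * s))
    (C := (3 * K ^ 2 + 1) / μ ^ 2 * s ^ 2) (fun x _ => (hd x).hasDerivWithinAt)
    (fun x hx => ?_) hc' hc
  · simpa [Real.norm_eq_abs] using this
  · rw [Real.norm_eq_abs]
    set w := (Real.cos (s * x) ^ 2 - μ * Real.sin (s * x) ^ 2) / Dn μ (s * x) ^ 2 with hw
    set u := s * Real.cos s / Real.sin s with hu
    have e : 1 - Real.cos s / Real.sin s * (w * s) = (1 - w) * 1 + w * (1 - u) := by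
      rw [hu]; field_simp; ring
    have b1 : |1 - w| ≤ 3 / μ ^ 2 * (s * x) ^ 2 := dSn_sub hμ hμ1 (s * x)
    have b2 : |w| ≤ 1 / μ ^ 2 := dSn_le hμ hμ1 (s * x)
    have b3 : |1 - u| ≤ s ^ 2 := by
      have e2 : 1 - u = (Real.sin s - s * Real.cos s) / Real.sin s := by
        rw [hu]; field_simp
      rw [e2, abs_of_nonneg (div_nonneg i1 hsin.le), div_le_iff₀ hsin]
      exact i2
    have b4 : (s * x) ^ 2 ≤ K ^ 2 * s ^ 2 := by
      rw [mul_pow]
      have : x ^ 2 ≤ K ^ 2 := pow_le_pow_left₀ hx.1 hx.2 2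
      nlinarith [sq_nonneg s]
    rw [e]
    calc |(1 - w) * 1 + w * (1 - u)| ≤ |(1 - w) * 1| + |w * (1 - u)| := abs_add_le _ _
      _ = |1 - w| + |w| * |1 - u| := by rw [mul_one, abs_mul]
      _ ≤ 3 / μ ^ 2 * (K ^ 2 * s ^ 2) + 1 / μ ^ 2 * s ^ 2 := by
          have : 3 / μ ^ 2 * (s * x) ^ 2 ≤ 3 / μ ^ 2 * (K ^ 2 * s ^ 2) := by gcongr
          have : |w| * |1 - u| ≤ 1 / μ ^ 2 * s ^ 2 :=
            mul_le_mul b2 b3 (abs_nonneg _) (by positivity)
          linarith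
      _ = _ := by ring

/-- the full nonlinearity, truncated -/
noncomputable def Fn (μ K β s x : ℝ) : ℝ :=
  Pn μ β (cl 0 (Real.pi / 2) s * cl 0 K x) + Qn μ (cl 0 (Real.pi / 2) s) (cl 0 K x)

lemma hpi2 : (0 : ℝ) ≤ Real.pi / 2 := by positivity

lemma pi2_le : Real.pi / 2 ≤ 2 := by linarith [Real.pi_le_four]

lemma Fn_cont (hμ : 0 < μ) (hμ1 : μ ≤ 1) {K : ℝ} :
    Continuous fun q : ℝ × ℝ => Fn μ K β q.1 q.2 := by
  have hc1 := continuous_cl (a := 0) (b := Real.pi / 2)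
  have hc2 := continuous_cl (a := 0) (b := K)
  have hD := continuous_Dn (μ := μ)
  have hsinc := Real.continuous_sinc
  have hs : Continuous fun q : ℝ × ℝ => cl 0 (Real.pi / 2) q.1 := hc1.comp continuous_fst
  have hx : Continuous fun q : ℝ × ℝ => cl 0 K q.2 := hc2.comp continuous_snd
  have hsx := hs.mul hx
  have hDs : Continuous fun q : ℝ × ℝ => Dn μ (cl 0 (Real.pi / 2) q.1 * cl 0 K q.2) := hD.comp hsx
  unfold Fn Pn Qn
  refine Continuous.add ?_ ?_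
  · refine Continuous.div ?_ hDs fun q => (Dn_pos hμ hμ1 _).ne'
    exact continuous_const.add (continuous_const.mul ((Real.continuous_cos.comp hsx).pow 2))
  · refine hx.sub (hx.mul ?_)
    refine Continuous.div ?_ (hsinc.comp hs) fun q => (sinc_pos (cl_mem hpi2 _)).ne'
    refine (Real.continuous_cos.comp hs).mul ?_
    exact Continuous.div ((hsinc.comp hsx).mul (Real.continuous_cos.comp hsx)) hDs
      fun q => (Dn_pos hμ hμ1 _).ne'

theorem Fn_adm (hμ : 0 < μ) (hμ1 : μ ≤ 1) (hβ : 0 ≤ β) (hβ3 : β ≤ 3) {K : ℝ} (hK : 0 ≤ K) :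
    Adm (Real.pi / 2) (5 / μ + (3 * K ^ 2 + 1) / μ ^ 2 * 4 * K)
      (5 / μ + (3 * K ^ 2 + 1) / μ ^ 2 * 2) (Fn μ K β) where
  cont := Fn_cont hμ hμ1
  bdd s x := by
    have hs := cl_mem hpi2 s
    have hx := cl_mem hK x
    unfold Fn
    set s' := cl 0 (Real.pi / 2) s
    set x' := cl 0 K x
    have h1 : |Pn μ β (s' * x')| ≤ 5 / μ := by
      have h2 := Pn_le hμ hμ1 hβ (s' * x')
      have h3 : 0 ≤ Pn μ β (s' * x') := by
        rcases eq_or_lt_of_le hβ with h | h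
        · rw [← h]
          unfold Pn
          have := Dn_pos hμ hμ1 (s' * x')
          have : 0 ≤ (2 - μ) * Real.cos (s' * x') ^ 2 := mul_nonneg (by linarith) (sq_nonneg _)
          rw [zero_mul, zero_add]
          positivity
        · exact (Pn_pos hμ hμ1 h _).le
      rw [abs_of_nonneg h3]
      refine h2.trans ?_
      gcongr
      linarith
    have h2 := Qn_sub hμ hμ1 hK hs hx (⟨le_refl _, hK⟩ : (0 : ℝ) ∈ Icc 0 K)
    rw [Qn_zero_right, sub_zero, sub_zero] at h2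
    have h3 : (3 * K ^ 2 + 1) / μ ^ 2 * s' ^ 2 * |x'| ≤ (3 * K ^ 2 + 1) / μ ^ 2 * 4 * K := by
      rw [abs_of_nonneg hx.1]
      have : s' ^ 2 ≤ 4 := by
        have := hs.2.trans pi2_le
        nlinarith [hs.1]
      have := hx.2
      have := hx.1
      gcongr
    calc |_ + _| ≤ _ := abs_add_le _ _
      _ ≤ _ := add_le_add h1 (h2.trans h3)
  lip s hs x y := by
    have hx := cl_mem hK x
    have hy := cl_mem hK y
    have hxy := abs_cl_sub_le (a := 0) (b := K) x y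
    unfold Fn
    rw [cl_eq hs]
    set x' := cl 0 K x
    set y' := cl 0 K y
    have h1 := Pn_sub hμ hμ1 hβ (s * x') (s * y')
    rw [← mul_sub, abs_mul, abs_of_nonneg hs.1] at h1
    have h2 := Qn_sub hμ hμ1 hK hs hx hy
    have h3 : s ^ 2 ≤ 2 * s := by
      have := hs.2.trans pi2_le
      nlinarith [hs.1]
    have hs0 := hs.1
    calc |Pn μ β (s * x') + Qn μ s x' - (Pn μ β (s * y') + Qn μ s y')|
        = |(Pn μ β (s * x') - Pn μ β (s * y')) + (Qn μ s x' - Qn μ s y')| := by congr 1; ring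
      _ ≤ _ := abs_add_le _ _
      _ ≤ (β + 2) / μ * (s * |x' - y'|) + (3 * K ^ 2 + 1) / μ ^ 2 * s ^ 2 * |x' - y'| :=
          add_le_add h1 h2
      _ ≤ 5 / μ * (s * |x - y|) + (3 * K ^ 2 + 1) / μ ^ 2 * (2 * s) * |x - y| := by
          gcongr
          linarith
      _ = _ := by ring

lemma Fn_par (hμ : 0 < μ) (hμ1 : μ ≤ 1) {K β' : ℝ} (s x : ℝ) :
    |Fn μ K β s x - Fn μ K β' s x| ≤ 1 * |β - β'| := by
  unfold Fn
  rw [add_sub_add_right_eq_sub]
  unfold Pn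
  set φ := cl 0 (Real.pi / 2) s * cl 0 K x
  have hD := Dn_pos hμ hμ1 φ
  have hg := Dn_ge hμ hμ1 φ
  rw [← sub_div]
  have : β * μ + (2 - μ) * Real.cos φ ^ 2 - (β' * μ + (2 - μ) * Real.cos φ ^ 2)
      = (β - β') * μ := by ring
  rw [this, abs_div, abs_mul, abs_of_pos hμ, abs_of_pos hD, div_le_iff₀ hD]
  have := abs_nonneg (β - β')
  nlinarith

end

end Pool.Agent.H76.SC3
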