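import Pool.Agent.H76.SC3.Sol
import Pool.Agent.H76.SC3.Alg3
import Pool.Agent.H76.BP.Cmp

/-!
# Comparison
-/

set_option autoImplicit false
open Filter Topology Set MeasureTheory

namespace Pool.Agent.H76.SC3

section
variable {μ β : ℝ}

lemma AngSol.cont {φ ψ : ℝ → ℝ} (h : AngSol μ β φ ψ) : ContinuousOn φ (Icc 0 (Real.pi / 2)) :=
  (continuous_id.mul h.cψ).continuousOn.congr fun t ht => h.eq t ht

lemma Sn_mono (hμ : 0 < μ) (hμ1 : μ ≤ 1) : MonotoneOn (Sn μ) (Icc 0 (Real.pi / 4)) := by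
  apply monotoneOn_of_deriv_nonneg (convex_Icc _ _)
  · exact fun x _ => (hasDerivAt_Sn hμ hμ1 x).continuousAt.continuousWithinAt
  · exact fun x _ => (hasDerivAt_Sn hμ hμ1 x).differentiableAt.differentiableWithinAt
  · intro x hx
    rw [interior_Icc] at hx
    rw [(hasDerivAt_Sn hμ hμ1 x).deriv]
    have hD := Dn_pos hμ hμ1 x
    apply div_nonneg _ (by positivity)
    have h1 : 0 ≤ Real.cos (2 * x) :=
      Real.cos_nonneg_of_mem_Icc ⟨by linarith [hx.1, Real.pi_pos], by linarith [hx.2]⟩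
    rw [Real.cos_two_mul'] at h1
    have := sq_nonneg (Real.sin x)
    nlinarith

/-- **Comparison with a strict subsolution.** -/
theorem cmp (hμ : 0 < μ) (hμ1 : μ ≤ 1) (hβ : 0 ≤ β) {φ ψ : ℝ → ℝ} (h : AngSol μ β φ ψ)
    {Φ Φ' : ℝ → ℝ} (hΦc : ContinuousOn Φ (Icc 0 (Real.pi / 2))) (hΦ0 : Φ 0 = 0)
    (hΦd : ∀ θ ∈ Ioo 0 (Real.pi / 2), HasDerivAt Φ (Φ' θ) θ)
    (hΦs : ∀ θ ∈ Ioo 0 (Real.pi / 2), Φ' θ < Gn μ β θ (Φ θ)) :
    Φ (Real.pi / 2) < φ (Real.pi / 2) := by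
  have hpi : (0 : ℝ) < Real.pi / 2 := by positivity
  have hφc := h.cont
  have hEc : ContinuousOn (fun θ => φ θ - Φ θ) (Icc 0 (Real.pi / 2)) := hφc.sub hΦc
  have hφ0 : φ 0 = 0 := by rw [h.eq 0 ⟨le_refl _, hpi.le⟩, zero_mul]
  have hEd : ∀ θ ∈ Ioo 0 (Real.pi / 2),
      HasDerivAt (fun θ => φ θ - Φ θ) (Gn μ β θ (φ θ) - Φ' θ) θ := fun θ hθ =>
    (h.d θ ⟨hθ.1, hθ.2.le⟩).sub (hΦd θ hθ)
  -- small angles
  obtain ⟨δ, hδ, hδ2, hδI⟩ : ∃ δ > 0, δ < Real.pi / 2 ∧ ∀ θ ∈ Ioo 0 δ, Φ θ ≤ Real.pi / 4 := by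
    have h1 := hΦc 0 ⟨le_refl _, hpi.le⟩
    have h2 : ∀ᶠ θ in 𝓝[Icc 0 (Real.pi / 2)] 0, Φ θ < Real.pi / 4 := by
      refine h1.eventually (gt_mem_nhds ?_)
      rw [hΦ0]; positivity
    rw [eventually_nhdsWithin_iff, Metric.eventually_nhds_iff] at h2
    obtain ⟨ε, hε, h3⟩ := h2
    refine ⟨min ε (Real.pi / 4), lt_min hε (by positivity), ?_, fun θ hθ => ?_⟩
    · have := min_le_right ε (Real.pi / 4)
      linarith
    · have h4 := hθ.2.trans_le (min_le_left ε (Real.pi / 4))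
      have h5 := hθ.2.trans_le (min_le_right ε (Real.pi / 4))
      refine (h3 ?_ ⟨hθ.1.le, by linarith⟩).le
      rw [Real.dist_eq, sub_zero, abs_of_pos hθ.1]
      exact h4
  obtain ⟨L, hL⟩ : ∃ L : ℝ, L = (β + 2) / μ + 1 / δ * (1 / μ ^ 2) := ⟨_, rfl⟩
  have hL0 : 0 ≤ L := by rw [hL]; positivity
  have hLip : ∀ θ ∈ Ioo 0 (Real.pi / 2), φ θ - Φ θ < 0 →
      L * (φ θ - Φ θ) < Gn μ β θ (φ θ) - Φ' θ := by
    intro θ hθ hE
    have h1 := hΦs θ hθ
    have h2 := Pn_sub hμ hμ1 hβ (φ θ) (Φ θ)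
    rw [abs_of_neg hE] at h2
    have h3 := neg_abs_le (Pn μ β (φ θ) - Pn μ β (Φ θ))
    have hcot := cot_nonneg (⟨hθ.1, hθ.2.le⟩ : θ ∈ Ioc 0 (Real.pi / 2))
    have h4 : -(1 / δ * (1 / μ ^ 2) * (-(φ θ - Φ θ)))
        ≤ -(Real.cos θ / Real.sin θ * (Sn μ (φ θ) - Sn μ (Φ θ))) := by
      rcases lt_or_ge θ δ with hc | hc
      · have h5 : Φ θ ≤ Real.pi / 4 := hδI θ ⟨hθ.1, hc⟩
        have h6 : 0 ≤ φ θ := by
          rw [h.eq θ ⟨hθ.1.le, hθ.2.le⟩]
          exact mul_nonneg hθ.1.le (h.pos θ ⟨hθ.1.le, hθ.2.le⟩).le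
        have h7 := Sn_mono hμ hμ1 ⟨h6, by linarith⟩ ⟨by linarith, h5⟩ (by linarith : φ θ ≤ Φ θ)
        have h8 : 0 ≤ -(Real.cos θ / Real.sin θ * (Sn μ (φ θ) - Sn μ (Φ θ))) := by
          rw [← mul_neg]
          exact mul_nonneg hcot (by linarith)
        have h9 : 0 ≤ 1 / δ * (1 / μ ^ 2) * (-(φ θ - Φ θ)) :=
          mul_nonneg (by positivity) (by linarith)
        linarith
      · have h5 := Sn_sub hμ hμ1 (φ θ) (Φ θ)
        rw [abs_of_neg hE] at h5
        have h6 : |Real.cos θ / Real.sin θ * (Sn μ (φ θ) - Sn μ (Φ θ))|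
            ≤ 1 / δ * (1 / μ ^ 2 * (-(φ θ - Φ θ))) := by
          rw [abs_mul, abs_of_nonneg hcot]
          apply mul_le_mul _ h5 (abs_nonneg _) (by positivity)
          exact (cot_le ⟨hθ.1, hθ.2.le⟩).trans (one_div_le_one_div_of_le hδ hc)
        have h7 := le_abs_self (Real.cos θ / Real.sin θ * (Sn μ (φ θ) - Sn μ (Φ θ)))
        rw [← mul_assoc] at h6
        linarith
    have e : Gn μ β θ (φ θ) - Gn μ β θ (Φ θ) = (Pn μ β (φ θ) - Pn μ β (Φ θ))
        + -(Real.cos θ / Real.sin θ * (Sn μ (φ θ) - Sn μ (Φ θ))) := by unfold Gn; ring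
    have h10 : L * (φ θ - Φ θ) = -((β + 2) / μ * (-(φ θ - Φ θ)))
        + -(1 / δ * (1 / μ ^ 2) * (-(φ θ - Φ θ))) := by rw [hL]; ring
    rw [h10]
    linarith
  -- nonnegativity
  have hnn : ∀ θ ∈ Ico 0 (Real.pi / 2), 0 ≤ φ θ - Φ θ := by
    intro θ hθ
    by_contra hcon
    push Not at hcon
    set S : Set ℝ := {r | r ∈ Icc 0 θ ∧ 0 ≤ φ r - Φ r} with hS
    have hSc : IsClosed S := by
      have := (hEc.mono (Icc_subset_Icc_right hθ.2.le)).preimage_isClosed_of_isClosed isClosed_Icc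
        (isClosed_Ici (a := 0))
      convert! this using 1
    have hSn : S.Nonempty := ⟨0, ⟨le_refl _, hθ.1⟩, by rw [hφ0, hΦ0]; simp⟩
    have hSb : BddAbove S := ⟨θ, fun r hr => hr.1.2⟩
    set a := sSup S with ha
    have haS : a ∈ S := hSc.csSup_mem hSn hSb
    have haθ : a < θ := by
      rcases eq_or_lt_of_le haS.1.2 with h' | h'
      · exfalso
        have := haS.2
        rw [h'] at this
        linarith
      · exact h'
    have hlt : ∀ x ∈ Ioc a θ, φ x - Φ x < 0 := by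
      intro x hx
      by_contra hc
      push Not at hc
      have : x ∈ S := ⟨⟨haS.1.1.trans hx.1.le, hx.2⟩, hc⟩
      exact absurd (le_csSup hSb this) (not_le.mpr hx.1)
    have hmono : MonotoneOn (fun t => (φ t - Φ t) * Real.exp (-L * t)) (Icc a θ) := by
      have hd : ∀ t ∈ Ioo a θ, HasDerivAt (fun t => (φ t - Φ t) * Real.exp (-L * t))
          ((Gn μ β t (φ t) - Φ' t) * Real.exp (-L * t)
            + (φ t - Φ t) * (Real.exp (-L * t) * (-L * 1))) t := by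
        intro t ht
        have h2 : HasDerivAt (fun t => Real.exp (-L * t)) (Real.exp (-L * t) * (-L * 1)) t :=
          ((hasDerivAt_id t).const_mul (-L)).exp
        exact (hEd t ⟨lt_of_le_of_lt haS.1.1 ht.1, ht.2.trans hθ.2⟩).mul h2
      apply monotoneOn_of_deriv_nonneg (convex_Icc _ _)
      · exact (hEc.mono (Icc_subset_Icc haS.1.1 hθ.2.le)).mul (by fun_prop)
      · intro t ht
        rw [interior_Icc] at ht
        exact (hd t ht).differentiableAt.differentiableWithinAt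
      · intro t ht
        rw [interior_Icc] at ht
        rw [(hd t ht).deriv]
        have h3 := hLip t ⟨lt_of_le_of_lt haS.1.1 ht.1, ht.2.trans hθ.2⟩ (hlt t ⟨ht.1, ht.2.le⟩)
        have h4 : (Gn μ β t (φ t) - Φ' t) * Real.exp (-L * t)
            + (φ t - Φ t) * (Real.exp (-L * t) * (-L * 1))
            = (Gn μ β t (φ t) - Φ' t - L * (φ t - Φ t)) * Real.exp (-L * t) := by ring
        rw [h4]
        exact mul_nonneg (by linarith) (Real.exp_pos _).le
    have h5 := hmono ⟨le_refl _, haθ.le⟩ ⟨haθ.le, le_refl _⟩ haθ.le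
    simp only at h5
    have h6 : 0 ≤ (φ a - Φ a) * Real.exp (-L * a) := mul_nonneg haS.2 (Real.exp_pos _).le
    have h7 : (φ θ - Φ θ) * Real.exp (-L * θ) < 0 := mul_neg_of_neg_of_pos hcon (Real.exp_pos _)
    linarith
  -- strictness
  obtain ⟨L2, hL2⟩ : ∃ L2 : ℝ, L2 = (β + 2) / μ + 2 * (1 / μ ^ 2) := ⟨_, rfl⟩
  have hstrict : ∀ t ∈ Ioo (Real.pi / 4) (Real.pi / 2),
      -(L2 * (φ t - Φ t)) < Gn μ β t (φ t) - Φ' t := by
    intro t ht
    have htI : t ∈ Ioo 0 (Real.pi / 2) := ⟨by linarith [ht.1, Real.pi_pos], ht.2⟩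
    have hE := hnn t ⟨htI.1.le, htI.2⟩
    have h1 := hΦs t htI
    have h2 := Pn_sub hμ hμ1 hβ (φ t) (Φ t)
    rw [abs_of_nonneg hE] at h2
    have h3 := neg_abs_le (Pn μ β (φ t) - Pn μ β (Φ t))
    have hcot := cot_nonneg (⟨htI.1, htI.2.le⟩ : t ∈ Ioc 0 (Real.pi / 2))
    have h5 := Sn_sub hμ hμ1 (φ t) (Φ t)
    rw [abs_of_nonneg hE] at h5
    have h6 : |Real.cos t / Real.sin t * (Sn μ (φ t) - Sn μ (Φ t))|
        ≤ 2 * (1 / μ ^ 2 * (φ t - Φ t)) := by
      rw [abs_mul, abs_of_nonneg hcot]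
      apply mul_le_mul _ h5 (abs_nonneg _) (by norm_num)
      refine (cot_le ⟨htI.1, htI.2.le⟩).trans ?_
      rw [div_le_iff₀ htI.1]
      linarith [ht.1, Real.pi_gt_three]
    have h7 := le_abs_self (Real.cos t / Real.sin t * (Sn μ (φ t) - Sn μ (Φ t)))
    have e : Gn μ β t (φ t) - Gn μ β t (Φ t) = (Pn μ β (φ t) - Pn μ β (Φ t))
        + -(Real.cos t / Real.sin t * (Sn μ (φ t) - Sn μ (Φ t))) := by unfold Gn; ring
    have h10 : L2 * (φ t - Φ t) = (β + 2) / μ * (φ t - Φ t)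
        + 2 * (1 / μ ^ 2 * (φ t - Φ t)) := by rw [hL2]; ring
    rw [h10]
    linarith
  have hmono : StrictMonoOn (fun t => (φ t - Φ t) * Real.exp (L2 * t))
      (Icc (Real.pi / 4) (Real.pi / 2)) := by
    have hd : ∀ t ∈ Ioo (Real.pi / 4) (Real.pi / 2), HasDerivAt
        (fun t => (φ t - Φ t) * Real.exp (L2 * t))
        ((Gn μ β t (φ t) - Φ' t) * Real.exp (L2 * t)
          + (φ t - Φ t) * (Real.exp (L2 * t) * (L2 * 1))) t := by
      intro t ht
      have h2 : HasDerivAt (fun t => Real.exp (L2 * t)) (Real.exp (L2 * t) * (L2 * 1)) t :=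
        ((hasDerivAt_id t).const_mul L2).exp
      exact (hEd t ⟨by linarith [ht.1, Real.pi_pos], ht.2⟩).mul h2
    apply strictMonoOn_of_deriv_pos (convex_Icc _ _)
    · exact (hEc.mono (Icc_subset_Icc_left (by positivity))).mul (by fun_prop)
    · intro t ht
      rw [interior_Icc] at ht
      rw [(hd t ht).deriv]
      have h3 := hstrict t ht
      have h4 : (Gn μ β t (φ t) - Φ' t) * Real.exp (L2 * t)
          + (φ t - Φ t) * (Real.exp (L2 * t) * (L2 * 1))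
          = (Gn μ β t (φ t) - Φ' t + L2 * (φ t - Φ t)) * Real.exp (L2 * t) := by ring
      rw [h4]
      exact mul_pos (by linarith) (Real.exp_pos _)
  have h42 : Real.pi / 4 < Real.pi / 2 := by linarith [Real.pi_pos]
  have h5 := hmono ⟨le_refl _, h42.le⟩ ⟨h42.le, le_refl _⟩ h42
  simp only at h5
  have h6 : 0 ≤ (φ (Real.pi / 4) - Φ (Real.pi / 4)) * Real.exp (L2 * (Real.pi / 4)) :=
    mul_nonneg (hnn _ ⟨by positivity, h42⟩) (Real.exp_pos _).le
  have h7 : 0 < (φ (Real.pi / 2) - Φ (Real.pi / 2)) * Real.exp (L2 * (Real.pi / 2)) :=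
    lt_of_le_of_lt h6 h5
  have := (pos_iff_pos_of_mul_pos h7).mpr (Real.exp_pos _)
  linarith

/-- the cotangent of the barrier -/
noncomputable def Aq (q θ : ℝ) : ℝ := zz q (Real.tan θ ^ 2) / ((3 + q) * Real.tan θ)

/-- its derivative -/
noncomputable def Aq' (q θ : ℝ) : ℝ := (1 + Real.tan θ ^ 2) * (2 * Real.tan θ ^ 2
  * zz' q (Real.tan θ ^ 2) - zz q (Real.tan θ ^ 2)) / ((3 + q) * Real.tan θ ^ 2)

/-- the barrier -/
noncomputable def Phq (q θ : ℝ) : ℝ :=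
  if θ ≤ 0 then 0 else if Real.pi / 2 ≤ θ then Real.pi else Real.pi / 2 - Real.arctan (Aq q θ)

lemma hasDerivAt_zz {q X : ℝ} (hX : 0 < X) : HasDerivAt (zz q) (zz' q X) X := by
  have hL : (30 + 20 * X) ≠ 0 := by positivity
  have h1 : HasDerivAt (fun X : ℝ => 27 * q * X) (27 * q) X := by
    simpa using (hasDerivAt_id X).const_mul (27 * q)
  have h2 : HasDerivAt (fun X : ℝ => 30 + 20 * X) 20 X := by
    simpa using ((hasDerivAt_id X).const_mul 20).const_add 30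
  have h3 : HasDerivAt (fun X : ℝ => 2 - X) (-1) X := by
    simpa using (hasDerivAt_id X).const_sub 2
  have := h3.sub (h1.div h2 hL)
  refine this.congr_deriv ?_
  unfold zz'
  field_simp
  ring

lemma hasDerivAt_Aq {q θ : ℝ} (hq : 0 < 3 + q) (hθ : θ ∈ Ioo 0 (Real.pi / 2)) :
    HasDerivAt (Aq q) (Aq' q θ) θ := by
  have ht := BP.tan_pos hθ
  have h1 := BP.hasDerivAt_tan hθ
  have h2 : HasDerivAt (fun t => Real.tan t ^ 2) (2 * Real.tan θ * (1 + Real.tan θ ^ 2)) θ := by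
    have := h1.pow 2
    refine this.congr_deriv ?_
    simp
  have h3 := (hasDerivAt_zz (q := q) (X := Real.tan θ ^ 2) (by positivity)).comp θ h2
  have h4 := h3.div (h1.const_mul (3 + q)) (by positivity)
  refine h4.congr_deriv ?_
  unfold Aq'
  simp only [Function.comp_apply]
  field_simp

lemma barrier_ineq {q θ : ℝ} (hq : q < 0) (hq7 : -(1 / 7) ≤ q) (hθ : θ ∈ Ioo 0 (Real.pi / 2)) :
    -(1 / (1 + Aq q θ ^ 2)) * Aq' q θ
      < Gn ((1 + q) / (1 - q)) (2 - q) θ (Real.pi / 2 - Real.arctan (Aq q θ)) := by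
  have ht := BP.tan_pos hθ
  have hFF := FF_neg hq hq7 (pow_pos ht 2)
  have h1q : 0 < 1 - q := by linarith
  have h1q' : 0 < 1 + q := by linarith
  have hD : 0 < 3 + q := by linarith
  set t := Real.tan θ with htd
  obtain ⟨μ, hμ⟩ : ∃ μ : ℝ, μ = (1 + q) / (1 - q) := ⟨_, rfl⟩
  have hμ0 : 0 < μ := by rw [hμ]; positivity
  set A := Aq q θ with hA
  have hA1 : 0 < 1 + A ^ 2 := by positivity
  have hAμ : 0 < A ^ 2 + μ := by positivity
  have hs : 0 < Real.sqrt (1 + A ^ 2) := Real.sqrt_pos.mpr hA1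
  have hs2 : Real.sqrt (1 + A ^ 2) ^ 2 = 1 + A ^ 2 := Real.sq_sqrt hA1.le
  have hcos : Real.cos (Real.pi / 2 - Real.arctan A) = A / Real.sqrt (1 + A ^ 2) := by
    rw [Real.cos_pi_div_two_sub, Real.sin_arctan]
  have hsin : Real.sin (Real.pi / 2 - Real.arctan A) = 1 / Real.sqrt (1 + A ^ 2) := by
    rw [Real.sin_pi_div_two_sub, Real.cos_arctan]
  have hcosθ : 0 < Real.cos θ := Real.cos_pos_of_mem_Ioo ⟨by linarith [hθ.1, Real.pi_pos], hθ.2⟩
  have hsinθ : 0 < Real.sin θ :=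
    Real.sin_pos_of_pos_of_lt_pi hθ.1 (by linarith [hθ.2, Real.pi_pos])
  have hcot : Real.cos θ / Real.sin θ = 1 / t := by
    rw [htd, Real.tan_eq_sin_div_cos]; field_simp
  have hG : Gn μ (2 - q) θ (Real.pi / 2 - Real.arctan A)
      = ((2 - q) * μ * (1 + A ^ 2) + (2 - μ) * A ^ 2 - A / t) / (A ^ 2 + μ) := by
    unfold Gn Pn Sn Dn
    rw [hcos, hsin, hcot, div_pow, div_pow, hs2, one_pow]
    have e1 : A ^ 2 / (1 + A ^ 2) + μ * (1 / (1 + A ^ 2)) = (A ^ 2 + μ) / (1 + A ^ 2) := by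
      field_simp
    have e2 : 1 / Real.sqrt (1 + A ^ 2) * (A / Real.sqrt (1 + A ^ 2)) = A / (1 + A ^ 2) := by
      rw [div_mul_div_comm, one_mul, ← sq, hs2]
    rw [e1, e2]
    field_simp
  rw [← hμ, hG, lt_div_iff₀ hAμ]
  have hkey : (1 + A ^ 2) * ((2 - q) * μ * (1 + A ^ 2) + (2 - μ) * A ^ 2 - A / t)
      + Aq' q θ * (A ^ 2 + μ)
      = -BP.FF 1 2 q (zz q (t ^ 2)) (zz' q (t ^ 2)) (t ^ 2) / ((1 - q) * (3 + q) ^ 3 * t ^ 4) := by
    have hAe : A = zz q (t ^ 2) / ((3 + q) * t) := rfl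
    have hAe' : Aq' q θ = (1 + t ^ 2) * (2 * t ^ 2 * zz' q (t ^ 2) - zz q (t ^ 2))
        / ((3 + q) * t ^ 2) := rfl
    rw [hAe, hAe', hμ]
    unfold BP.FF
    generalize zz q (t ^ 2) = z
    generalize zz' q (t ^ 2) = z'
    field_simp
    ring
  have hpos : 0 < -BP.FF 1 2 q (zz q (t ^ 2)) (zz' q (t ^ 2)) (t ^ 2)
      / ((1 - q) * (3 + q) ^ 3 * t ^ 4) := by
    apply div_pos (by linarith) (by positivity)
  rw [← hkey] at hpos
  have e3 : -(1 / (1 + A ^ 2)) * Aq' q θ * (A ^ 2 + μ)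
      = -(Aq' q θ * (A ^ 2 + μ)) / (1 + A ^ 2) := by ring
  rw [e3, div_lt_iff₀ hA1]
  linarith

lemma Aq_lim0 {q : ℝ} (hq : 0 < 3 + q) : Tendsto (Aq q) (𝓝[>] 0) atTop := by
  have htan0 : Tendsto Real.tan (𝓝[>] 0) (𝓝[>] 0) := by
    rw [tendsto_nhdsWithin_iff]
    constructor
    · have h1 : ContinuousAt Real.tan 0 := by
        refine Real.continuousAt_tan.mpr ?_
        rw [Real.cos_zero]; exact one_ne_zero
      have h2 := h1.tendsto.mono_left (nhdsWithin_le_nhds (s := Ioi (0 : ℝ)))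
      rwa [Real.tan_zero] at h2
    · filter_upwards [Ioo_mem_nhdsGT (by positivity : (0 : ℝ) < Real.pi / 2)] with s hs
      exact BP.tan_pos hs
  have hzc : ContinuousAt (fun t : ℝ => zz q (t ^ 2) / (3 + q)) 0 := by
    unfold zz
    refine ContinuousAt.div_const (ContinuousAt.sub (by fun_prop) (ContinuousAt.div (by fun_prop)
      (by fun_prop) (by norm_num))) _
  have h1 : Tendsto (fun t : ℝ => zz q (t ^ 2) / (3 + q)) (𝓝[>] 0) (𝓝 (2 / (3 + q))) := by
    have := hzc.tendsto.mono_left (nhdsWithin_le_nhds (s := Ioi (0 : ℝ)))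
    convert! this using 2
    unfold zz; norm_num
  have h2 : Tendsto (fun t : ℝ => zz q (t ^ 2) / (3 + q) * t⁻¹) (𝓝[>] 0) atTop :=
    h1.pos_mul_atTop (by positivity) tendsto_inv_nhdsGT_zero
  have h3 := h2.comp htan0
  refine h3.congr fun t => ?_
  simp only [Function.comp_apply]
  unfold Aq
  rw [div_mul_eq_div_div, div_eq_mul_inv _ (Real.tan t)]

lemma Aq_lim1 {q : ℝ} (hq : 0 < 3 + q) : Tendsto (Aq q) (𝓝[<] (Real.pi / 2)) atBot := by
  have htan : Tendsto Real.tan (𝓝[<] (Real.pi / 2)) atTop := Real.tendsto_tan_pi_div_two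
  have h1 : Tendsto (fun t : ℝ => 2 / t - t - 27 * q / (30 / t + 20 * t)) atTop atBot := by
    have a1 : Tendsto (fun t : ℝ => 2 / t) atTop (𝓝 0) := tendsto_const_nhds.div_atTop tendsto_id
    have a2 : Tendsto (fun t : ℝ => 30 / t) atTop (𝓝 0) := tendsto_const_nhds.div_atTop tendsto_id
    have a3 : Tendsto (fun t : ℝ => 30 / t + 20 * t) atTop atTop :=
      a2.add_atTop (tendsto_id.const_mul_atTop (by norm_num))
    have a4 : Tendsto (fun t : ℝ => 27 * q / (30 / t + 20 * t)) atTop (𝓝 0) :=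
      tendsto_const_nhds.div_atTop a3
    have a5 : Tendsto (fun t : ℝ => 2 / t + -t) atTop atBot := a1.add_atBot tendsto_neg_atTop_atBot
    have a6 := a5.atBot_add a4.neg
    refine a6.congr fun t => ?_
    ring
  have h2 := (h1.comp htan).const_mul_atBot (show (0 : ℝ) < 1 / (3 + q) by positivity)
  refine h2.congr' ?_
  filter_upwards [Ioo_mem_nhdsLT (by positivity : (0 : ℝ) < Real.pi / 2)] with s hs
  have ht := BP.tan_pos hs
  simp only [Function.comp_apply]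
  unfold Aq zz
  field_simp

lemma Phq_cont {q : ℝ} (hq : 0 < 3 + q) : ContinuousOn (Phq q) (Icc 0 (Real.pi / 2)) := by
  have hpi : (0 : ℝ) < Real.pi / 2 := by positivity
  have heq : ∀ t ∈ Ioo 0 (Real.pi / 2), Phq q t = Real.pi / 2 - Real.arctan (Aq q t) := by
    intro t ht
    unfold Phq
    rw [if_neg (not_le.mpr ht.1), if_neg (not_le.mpr ht.2)]
  intro t ht
  rcases eq_or_lt_of_le ht.1 with h0 | h0
  · subst h0
    have h1 : ContinuousWithinAt (Phq q) (Ioi 0) 0 := by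
      have h2 : Tendsto (fun t => Real.pi / 2 - Real.arctan (Aq q t)) (𝓝[>] 0)
          (𝓝 (Real.pi / 2 - Real.pi / 2)) :=
        (tendsto_nhds_of_tendsto_nhdsWithin
          (Real.tendsto_arctan_atTop.comp (Aq_lim0 hq))).const_sub _
      rw [sub_self] at h2
      have h3 : Phq q 0 = 0 := by unfold Phq; rw [if_pos (le_refl _)]
      unfold ContinuousWithinAt
      rw [h3]
      refine h2.congr' ?_
      filter_upwards [Ioo_mem_nhdsGT hpi] with s hs using (heq s hs).symm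
    have h2 : ContinuousWithinAt (Phq q) (Ici 0) 0 := by
      rw [← Ioi_insert]; exact h1.insert
    exact h2.mono Icc_subset_Ici_self
  · rcases eq_or_lt_of_le ht.2 with h1 | h1
    · subst h1
      have h1 : ContinuousWithinAt (Phq q) (Iio (Real.pi / 2)) (Real.pi / 2) := by
        have h2 : Tendsto (fun t => Real.pi / 2 - Real.arctan (Aq q t)) (𝓝[<] (Real.pi / 2))
            (𝓝 (Real.pi / 2 - -(Real.pi / 2))) :=
          (tendsto_nhds_of_tendsto_nhdsWithin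
            (Real.tendsto_arctan_atBot.comp (Aq_lim1 hq))).const_sub _
        have e : Real.pi / 2 - -(Real.pi / 2) = Real.pi := by ring
        rw [e] at h2
        have h3 : Phq q (Real.pi / 2) = Real.pi := by
          unfold Phq; rw [if_neg (not_le.mpr h0), if_pos (le_refl _)]
        unfold ContinuousWithinAt
        rw [h3]
        refine h2.congr' ?_
        filter_upwards [Ioo_mem_nhdsLT hpi] with s hs using (heq s hs).symm
      have h2 : ContinuousWithinAt (Phq q) (Iic (Real.pi / 2)) (Real.pi / 2) := by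
        rw [← Iio_insert]; exact h1.insert
      exact h2.mono Icc_subset_Iic_self
    · have hd := (hasDerivAt_Aq hq ⟨h0, h1⟩).arctan.const_sub (Real.pi / 2)
      have h2 : ContinuousAt (Phq q) t := by
        refine (hd.continuousAt.congr ?_)
        filter_upwards [Ioo_mem_nhds h0 h1] with s hs using (heq s hs).symm
      exact h2.continuousWithinAt

/-- **At `β = 1 + 2/p` the angle at the equator is larger than `π`.** -/
theorem big {q : ℝ} (hq : q < 0) (hq7 : -(1 / 7) ≤ q) {φ ψ : ℝ → ℝ}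
    (h : AngSol ((1 + q) / (1 - q)) (2 - q) φ ψ) : Real.pi < φ (Real.pi / 2) := by
  have h1q : 0 < 1 - q := by linarith
  have h1q' : 0 < 1 + q := by linarith
  have hD : 0 < 3 + q := by linarith
  have hpi : (0 : ℝ) < Real.pi / 2 := by positivity
  have hμ : 0 < (1 + q) / (1 - q) := by positivity
  have hμ1 : (1 + q) / (1 - q) ≤ 1 := by rw [div_le_one h1q]; linarith
  have e1 : Phq q (Real.pi / 2) = Real.pi := by
    unfold Phq; rw [if_neg (not_le.mpr hpi), if_pos (le_refl _)]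
  have e0 : Phq q 0 = 0 := by unfold Phq; rw [if_pos (le_refl _)]
  have heq : ∀ t ∈ Ioo 0 (Real.pi / 2), Phq q t = Real.pi / 2 - Real.arctan (Aq q t) := by
    intro t ht
    unfold Phq
    rw [if_neg (not_le.mpr ht.1), if_neg (not_le.mpr ht.2)]
  suffices hs : Phq q (Real.pi / 2) < φ (Real.pi / 2) by rwa [e1] at hs
  refine cmp hμ hμ1 (by linarith) h (Φ' := fun θ => -(1 / (1 + Aq q θ ^ 2)) * Aq' q θ)
    (Phq_cont hD) e0 (fun θ hθ => ?_) (fun θ hθ => ?_)
  · have hd := (hasDerivAt_Aq hD hθ).arctan.const_sub (Real.pi / 2)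
    refine (hd.congr_of_eventuallyEq ?_).congr_deriv ?_
    · filter_upwards [Ioo_mem_nhds hθ.1 hθ.2] with s hs using heq s hs
    · ring
  · rw [heq θ hθ]
    exact barrier_ineq hq hq7 hθ

/-- **Existence of the profile.** -/
theorem exists_beta {p : ℝ} (hp : 7 / 4 ≤ p) (hp2 : p < 2) :
    ∃ (β : ℝ) (φ ψ : ℝ → ℝ), 1 < β ∧ β < 1 + 2 / p ∧ AngSol (p - 1) β φ ψ ∧
      φ (Real.pi / 2) = Real.pi := by
  have hp0 : 0 < p := by linarith
  obtain ⟨q, hq⟩ : ∃ q : ℝ, q = 1 - 2 / p := ⟨_, rfl⟩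
  have hq0 : q < 0 := by
    rw [hq]
    have : 1 < 2 / p := by rw [lt_div_iff₀ hp0]; linarith
    linarith
  have hq7 : -(1 / 7) ≤ q := by
    rw [hq]
    have : 2 / p ≤ 8 / 7 := by rw [div_le_iff₀ hp0]; linarith
    linarith
  have hμq : p - 1 = (1 + q) / (1 - q) := by
    rw [eq_div_iff (by linarith), hq]
    field_simp
    ring
  have hμ : 0 < p - 1 := by linarith
  obtain ⟨φ, ψ, hsol, hcont, h1⟩ := exists_angle hμ (by linarith)
  have hβs : 2 - q = 1 + 2 / p := by rw [hq]; ring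
  have hmem : 2 - q ∈ Icc (1 : ℝ) 3 := ⟨by linarith, by linarith⟩
  have hbig : Real.pi < φ (2 - q) (Real.pi / 2) := by
    have := hsol _ hmem
    rw [hμq] at this
    exact big hq0 hq7 this
  have hIVT := intermediate_value_Icc (f := fun β => φ β (Real.pi / 2)) hmem.1
    (hcont.mono (Icc_subset_Icc_right hmem.2))
  obtain ⟨β, hβ, hβe⟩ := hIVT (⟨by rw [h1]; linarith [Real.pi_pos], hbig.le⟩ :
    Real.pi ∈ Icc (φ 1 (Real.pi / 2)) (φ (2 - q) (Real.pi / 2)))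
  simp only at hβe
  refine ⟨β, φ β, ψ β, ?_, ?_, hsol β ⟨hβ.1, hβ.2.trans hmem.2⟩, hβe⟩
  · refine lt_of_le_of_ne hβ.1 fun h => ?_
    rw [← h, h1] at hβe
    linarith [Real.pi_pos]
  · rw [← hβs]
    refine lt_of_le_of_ne hβ.2 fun h => ?_
    rw [h] at hβe
    linarith

end

end Pool.Agent.H76.SC3
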