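import Mathlib

/-!
# A singular Volterra equation
-/

set_option autoImplicit false
open Filter Topology Set MeasureTheory
open scoped BoundedContinuousFunction NNReal

namespace Pool.Agent.H76.SC3

/-- clamping -/
noncomputable def cl (a b x : ℝ) : ℝ := max a (min x b)

lemma continuous_cl {a b : ℝ} : Continuous (cl a b) := by unfold cl; fun_prop

lemma cl_mem {a b : ℝ} (h : a ≤ b) (x : ℝ) : cl a b x ∈ Icc a b :=
  ⟨le_max_left _ _, max_le h (min_le_right _ _)⟩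

lemma cl_eq {a b x : ℝ} (h : x ∈ Icc a b) : cl a b x = x := by
  unfold cl; rw [min_eq_left h.2, max_eq_right h.1]

lemma abs_cl_sub_le {a b : ℝ} (x y : ℝ) : |cl a b x - cl a b y| ≤ |x - y| := by
  unfold cl
  refine (abs_max_sub_max_le_abs _ _ _).trans ?_ |>.trans (le_refl _)
  exact abs_min_sub_min_le_abs x y b
where
  abs_max_sub_max_le_abs (a x y : ℝ) : |max a x - max a y| ≤ |x - y| := by
    rw [max_comm a x, max_comm a y]
    exact _root_.abs_max_sub_max_le_abs x y a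
  abs_min_sub_min_le_abs (x y b : ℝ) : |min x b - min y b| ≤ |x - y| := by
    have := abs_min_sub_min_le_max x b y b
    simpa using this

/-- admissible nonlinearities -/
structure Adm (b M L : ℝ) (F : ℝ → ℝ → ℝ) : Prop where
  cont : Continuous fun q : ℝ × ℝ => F q.1 q.2
  bdd : ∀ s x, |F s x| ≤ M
  lip : ∀ s ∈ Icc 0 b, ∀ x y, |F s x - F s y| ≤ L * s * |x - y|

/-- the operator -/
noncomputable def opf (b Λ : ℝ) (F : ℝ → ℝ → ℝ) (χ : ℝ → ℝ) (θ : ℝ) : ℝ :=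
  Real.exp (-(Λ * cl 0 b θ)) * ∫ τ in (0 : ℝ)..1, τ * F (cl 0 b θ * τ)
    (Real.exp (Λ * (cl 0 b θ * τ)) * χ (cl 0 b θ * τ))

section
variable {b M L Λ : ℝ} {F : ℝ → ℝ → ℝ}

lemma cont_int (hF : Adm b M L F) {χ : ℝ → ℝ} (hχ : Continuous χ) :
    Continuous fun q : ℝ × ℝ => q.2 * F (cl 0 b q.1 * q.2)
      (Real.exp (Λ * (cl 0 b q.1 * q.2)) * χ (cl 0 b q.1 * q.2)) := by
  have hc := continuous_cl (a := 0) (b := b)
  have h1 : Continuous fun q : ℝ × ℝ => (cl 0 b q.1 * q.2,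
      Real.exp (Λ * (cl 0 b q.1 * q.2)) * χ (cl 0 b q.1 * q.2)) := by fun_prop
  exact continuous_snd.mul (hF.cont.comp h1)

lemma cont_int' (hF : Adm b M L F) {χ : ℝ → ℝ} (hχ : Continuous χ) (θ : ℝ) :
    Continuous fun τ : ℝ => τ * F (cl 0 b θ * τ)
      (Real.exp (Λ * (cl 0 b θ * τ)) * χ (cl 0 b θ * τ)) :=
  (cont_int (Λ := Λ) hF hχ).comp (Continuous.prodMk_right θ)

lemma opf_cont (hF : Adm b M L F) {χ : ℝ → ℝ} (hχ : Continuous χ) :
    Continuous (opf b Λ F χ) := by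
  unfold opf
  have hc := continuous_cl (a := 0) (b := b)
  refine Continuous.mul (by fun_prop) ?_
  exact intervalIntegral.continuous_parametric_intervalIntegral_of_continuous' (μ := volume)
    (cont_int hF hχ) 0 1

lemma opf_bdd (hb : 0 ≤ b) (hΛ : 0 ≤ Λ) (hF : Adm b M L F) (χ : ℝ → ℝ) (θ : ℝ) :
    ‖opf b Λ F χ θ‖ ≤ M := by
  have hc := cl_mem hb θ
  have hM : 0 ≤ M := (abs_nonneg _).trans (hF.bdd 0 0)
  unfold opf
  rw [norm_mul]
  have h1 : ‖Real.exp (-(Λ * cl 0 b θ))‖ ≤ 1 := by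
    rw [Real.norm_of_nonneg (Real.exp_pos _).le, Real.exp_le_one_iff]
    have := mul_nonneg hΛ hc.1
    linarith
  have h2 : ‖∫ τ in (0 : ℝ)..1, τ * F (cl 0 b θ * τ)
      (Real.exp (Λ * (cl 0 b θ * τ)) * χ (cl 0 b θ * τ))‖ ≤ M * |1 - 0| := by
    apply intervalIntegral.norm_integral_le_of_norm_le_const
    intro τ hτ
    rw [uIoc_of_le (by norm_num)] at hτ
    rw [norm_mul, Real.norm_of_nonneg hτ.1.le, Real.norm_eq_abs]
    calc τ * |F (cl 0 b θ * τ) (Real.exp (Λ * (cl 0 b θ * τ)) * χ (cl 0 b θ * τ))|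
        ≤ 1 * M := mul_le_mul hτ.2 (hF.bdd _ _) (abs_nonneg _) (by norm_num)
      _ = M := one_mul _
  calc _ ≤ 1 * (M * |1 - 0|) := mul_le_mul h1 h2 (norm_nonneg _) (by norm_num)
    _ = M := by norm_num

/-- the operator on bounded continuous functions -/
noncomputable def TT (hb : 0 ≤ b) (hΛ : 0 ≤ Λ) (hF : Adm b M L F) (χ : ℝ →ᵇ ℝ) : ℝ →ᵇ ℝ :=
  BoundedContinuousFunction.ofNormedAddCommGroup (opf b Λ F χ) (opf_cont hF χ.continuous) M
    (opf_bdd hb hΛ hF χ)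

lemma TT_lip (hb : 0 ≤ b) (hΛ : 0 < Λ) (hL : 0 ≤ L) (hF : Adm b M L F) (χ χ' : ℝ →ᵇ ℝ) :
    dist (TT hb hΛ.le hF χ) (TT hb hΛ.le hF χ') ≤ L / Λ * dist χ χ' := by
  rw [BoundedContinuousFunction.dist_le (by positivity)]
  intro θ
  have hc := cl_mem hb θ
  set a := cl 0 b θ with ha
  set d := dist χ χ' with hd
  have hd0 : 0 ≤ d := dist_nonneg
  show dist (opf b Λ F χ θ) (opf b Λ F χ' θ) ≤ _
  unfold opf
  rw [← ha, Real.dist_eq, ← mul_sub, ← intervalIntegral.integral_sub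
    ((ha ▸ cont_int' hF χ.continuous θ).intervalIntegrable _ _)
    ((ha ▸ cont_int' hF χ'.continuous θ).intervalIntegrable _ _), abs_mul,
    abs_of_pos (Real.exp_pos _)]
  have h1 : ‖∫ τ in (0 : ℝ)..1, (τ * F (a * τ) (Real.exp (Λ * (a * τ)) * χ (a * τ))
      - τ * F (a * τ) (Real.exp (Λ * (a * τ)) * χ' (a * τ)))‖
      ≤ ∫ τ in (0 : ℝ)..1, L * a * Real.exp (Λ * a * τ) * d := by
    apply intervalIntegral.norm_integral_le_of_norm_le (by norm_num)
    · refine Eventually.of_forall fun τ hτ => ?_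
      have haτ : a * τ ∈ Icc 0 b := ⟨mul_nonneg hc.1 hτ.1.le,
        (mul_le_of_le_one_right hc.1 hτ.2).trans hc.2⟩
      rw [← mul_sub, norm_mul, Real.norm_of_nonneg hτ.1.le, Real.norm_eq_abs]
      have h2 := hF.lip (a * τ) haτ (Real.exp (Λ * (a * τ)) * χ (a * τ))
        (Real.exp (Λ * (a * τ)) * χ' (a * τ))
      have h3 : |Real.exp (Λ * (a * τ)) * χ (a * τ) - Real.exp (Λ * (a * τ)) * χ' (a * τ)|
          ≤ Real.exp (Λ * a * τ) * d := by
        rw [← mul_sub, abs_mul, abs_of_pos (Real.exp_pos _), ← mul_assoc Λ a τ]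
        apply mul_le_mul_of_nonneg_left _ (Real.exp_pos _).le
        have := BoundedContinuousFunction.dist_coe_le_dist (f := χ) (g := χ') (a * τ)
        rwa [Real.dist_eq] at this
      calc τ * |_| ≤ τ * (L * (a * τ) * (Real.exp (Λ * a * τ) * d)) := by
            apply mul_le_mul_of_nonneg_left _ hτ.1.le
            exact h2.trans (mul_le_mul_of_nonneg_left h3 (mul_nonneg hL haτ.1))
        _ = (τ * τ) * (L * a * Real.exp (Λ * a * τ) * d) := by ring
        _ ≤ 1 * (L * a * Real.exp (Λ * a * τ) * d) := by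
            apply mul_le_mul_of_nonneg_right
            · nlinarith [hτ.1, hτ.2]
            · have := hc.1
              have := (Real.exp_pos (Λ * a * τ)).le
              positivity
        _ = _ := one_mul _
    · apply Continuous.intervalIntegrable; fun_prop
  have h4 : ∫ τ in (0 : ℝ)..1, L * a * Real.exp (Λ * a * τ) * d
      = L / Λ * d * Real.exp (Λ * a) - L / Λ * d := by
    have hder : ∀ τ ∈ uIcc (0 : ℝ) 1, HasDerivAt (fun τ => L / Λ * d * Real.exp (Λ * a * τ))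
        (L * a * Real.exp (Λ * a * τ) * d) τ := by
      intro τ _
      have h5 : HasDerivAt (fun τ => Real.exp (Λ * a * τ)) (Real.exp (Λ * a * τ) * (Λ * a * 1)) τ :=
        ((hasDerivAt_id τ).const_mul (Λ * a)).exp
      refine (h5.const_mul (L / Λ * d)).congr_deriv ?_
      field_simp
    rw [intervalIntegral.integral_eq_sub_of_hasDerivAt hder
      (by apply Continuous.intervalIntegrable; fun_prop)]
    simp
  rw [Real.norm_eq_abs, h4] at h1
  have h6 : Real.exp (-(Λ * a)) * Real.exp (Λ * a) = 1 := by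
    rw [← Real.exp_add]; simp
  calc Real.exp (-(Λ * a)) * |_| ≤ Real.exp (-(Λ * a))
        * (L / Λ * d * Real.exp (Λ * a) - L / Λ * d) :=
        mul_le_mul_of_nonneg_left h1 (Real.exp_pos _).le
    _ = L / Λ * d * (Real.exp (-(Λ * a)) * Real.exp (Λ * a)) - L / Λ * d * Real.exp (-(Λ * a)) := by
        ring
    _ ≤ L / Λ * d := by
        rw [h6]
        have : 0 ≤ L / Λ * d * Real.exp (-(Λ * a)) := by positivity
        linarith

lemma TT_dist (hb : 0 ≤ b) (hΛ : 0 ≤ Λ) {F' : ℝ → ℝ → ℝ} (hF : Adm b M L F)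
    (hF' : Adm b M L F') {δ : ℝ} (hδ : 0 ≤ δ) (hFF : ∀ s x, |F s x - F' s x| ≤ δ) (χ : ℝ →ᵇ ℝ) :
    dist (TT hb hΛ hF χ) (TT hb hΛ hF' χ) ≤ δ := by
  rw [BoundedContinuousFunction.dist_le hδ]
  intro θ
  have hc := cl_mem hb θ
  show dist (opf b Λ F χ θ) (opf b Λ F' χ θ) ≤ _
  unfold opf
  rw [Real.dist_eq, ← mul_sub, ← intervalIntegral.integral_sub
    ((cont_int' hF χ.continuous θ).intervalIntegrable _ _)
    ((cont_int' hF' χ.continuous θ).intervalIntegrable _ _), abs_mul,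
    abs_of_pos (Real.exp_pos _)]
  have h1 : Real.exp (-(Λ * cl 0 b θ)) ≤ 1 := by
    rw [Real.exp_le_one_iff]
    have := mul_nonneg hΛ hc.1
    linarith
  have h2 : ‖∫ τ in (0 : ℝ)..1, (τ * F (cl 0 b θ * τ) (Real.exp (Λ * (cl 0 b θ * τ))
      * χ (cl 0 b θ * τ)) - τ * F' (cl 0 b θ * τ) (Real.exp (Λ * (cl 0 b θ * τ))
      * χ (cl 0 b θ * τ)))‖ ≤ δ * |1 - 0| := by
    apply intervalIntegral.norm_integral_le_of_norm_le_const
    intro τ hτ
    rw [uIoc_of_le (by norm_num)] at hτ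
    rw [← mul_sub, norm_mul, Real.norm_of_nonneg hτ.1.le, Real.norm_eq_abs]
    calc τ * |_| ≤ 1 * δ := mul_le_mul hτ.2 (hFF _ _) (abs_nonneg _) (by norm_num)
      _ = δ := one_mul _
  rw [Real.norm_eq_abs] at h2
  calc _ ≤ 1 * (δ * |1 - 0|) := mul_le_mul h1 h2 (abs_nonneg _) (by norm_num)
    _ = δ := by norm_num

end

/-- the property of being a solution -/
def IsSol (b : ℝ) (F : ℝ → ℝ → ℝ) (ψ : ℝ → ℝ) : Prop :=
  ∀ θ ∈ Icc 0 b, ψ θ = ∫ τ in (0 : ℝ)..1, τ * F (θ * τ) (ψ (θ * τ))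

/-- **Solutions of the singular Volterra equation.** -/
theorem exists_family {b M L C : ℝ} (hb : 0 ≤ b) (hL : 0 ≤ L) (hC : 0 ≤ C)
    {F : ℝ → ℝ → ℝ → ℝ} {I : Set ℝ} (hF : ∀ β ∈ I, Adm b M L (F β))
    (hFF : ∀ β ∈ I, ∀ β' ∈ I, ∀ s x, |F β s x - F β' s x| ≤ C * |β - β'|) :
    ∃ ψ : ℝ → ℝ → ℝ, (∀ β ∈ I, Continuous (ψ β)) ∧ (∀ β ∈ I, IsSol b (F β) (ψ β)) ∧
      (∀ β ∈ I, ∀ g : ℝ → ℝ, Continuous g → IsSol b (F β) g → ∀ θ ∈ Icc 0 b, g θ = ψ β θ) ∧
      (∀ θ, ContinuousOn (fun β => ψ β θ) I) := by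
  classical
  obtain ⟨Λ, hΛd⟩ : ∃ Λ : ℝ, Λ = 2 * (L + 1) := ⟨_, rfl⟩
  have hΛ : 0 < Λ := by rw [hΛd]; positivity
  have hLΛ : L / Λ ≤ 1 / 2 := by
    rw [hΛd, div_le_div_iff₀ (by positivity) (by norm_num)]
    linarith
  have hcon : ∀ β (hβ : β ∈ I), ContractingWith (1 / 2 : ℝ≥0) (TT hb hΛ.le (hF β hβ)) := by
    intro β hβ
    refine ⟨by rw [← NNReal.coe_lt_coe]; push_cast; norm_num, LipschitzWith.of_dist_le_mul fun χ χ' => ?_⟩
    refine (TT_lip hb hΛ hL (hF β hβ) χ χ').trans ?_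
    push_cast
    exact mul_le_mul_of_nonneg_right hLΛ dist_nonneg
  set X : ∀ β, β ∈ I → (ℝ →ᵇ ℝ) := fun β hβ =>
    ContractingWith.fixedPoint (TT hb hΛ.le (hF β hβ)) (hcon β hβ) with hX
  have hfix : ∀ β (hβ : β ∈ I), TT hb hΛ.le (hF β hβ) (X β hβ) = X β hβ := fun β hβ =>
    (hcon β hβ).fixedPoint_isFixedPt
  set ψ : ℝ → ℝ → ℝ := fun β θ => if hβ : β ∈ I then Real.exp (Λ * cl 0 b θ) * X β hβ θ else 0
    with hψ
  have hψe : ∀ β (hβ : β ∈ I) θ, ψ β θ = Real.exp (Λ * cl 0 b θ) * X β hβ θ := by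
    intro β hβ θ
    simp only [hψ]
    rw [dif_pos hβ]
  have hsol : ∀ β ∈ I, IsSol b (F β) (ψ β) := by
    intro β hβ θ hθ
    have h1 : opf b Λ (F β) (X β hβ) θ = X β hβ θ := by
      have := congrArg (fun f : ℝ →ᵇ ℝ => f θ) (hfix β hβ)
      exact this
    rw [hψe β hβ, ← h1]
    unfold opf
    rw [← mul_assoc, ← Real.exp_add, add_neg_cancel, Real.exp_zero, one_mul, cl_eq hθ]
    apply intervalIntegral.integral_congr
    intro τ hτ
    rw [uIcc_of_le (by norm_num)] at hτ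
    have hm : θ * τ ∈ Icc 0 b := ⟨mul_nonneg hθ.1 hτ.1, (mul_le_of_le_one_right hθ.1 hτ.2).trans hθ.2⟩
    simp only
    rw [hψe β hβ, cl_eq hm]
  refine ⟨ψ, ?_, hsol, ?_, ?_⟩
  · intro β hβ
    have h1 : ψ β = fun θ => Real.exp (Λ * cl 0 b θ) * X β hβ θ := funext (hψe β hβ)
    rw [h1]
    have := continuous_cl (a := 0) (b := b)
    exact Continuous.mul (by fun_prop) (X β hβ).continuous
  · -- uniqueness
    intro β hβ g hg hgs θ hθ
    have hgc : Continuous fun θ => Real.exp (-(Λ * cl 0 b θ)) * g (cl 0 b θ) := by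
      have := continuous_cl (a := 0) (b := b)
      fun_prop
    obtain ⟨B, hB⟩ : ∃ B : ℝ, ∀ θ ∈ Icc 0 b, ‖g θ‖ ≤ B :=
      isCompact_Icc.exists_bound_of_continuousOn hg.continuousOn
    set G : ℝ →ᵇ ℝ := BoundedContinuousFunction.ofNormedAddCommGroup
      (fun θ => Real.exp (-(Λ * cl 0 b θ)) * g (cl 0 b θ)) hgc B (by
        intro θ
        rw [norm_mul, Real.norm_of_nonneg (Real.exp_pos _).le]
        have h1 : Real.exp (-(Λ * cl 0 b θ)) ≤ 1 := by
          rw [Real.exp_le_one_iff]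
          have := mul_nonneg hΛ.le (cl_mem hb θ).1
          linarith
        calc _ ≤ 1 * B := mul_le_mul h1 (hB _ (cl_mem hb θ)) (norm_nonneg _) (by norm_num)
          _ = B := one_mul _) with hG
    have hGfix : TT hb hΛ.le (hF β hβ) G = G := by
      ext θ
      show opf b Λ (F β) G θ = Real.exp (-(Λ * cl 0 b θ)) * g (cl 0 b θ)
      unfold opf
      rw [hgs (cl 0 b θ) (cl_mem hb θ)]
      congr 1
      apply intervalIntegral.integral_congr
      intro τ hτ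
      rw [uIcc_of_le (by norm_num)] at hτ
      have hc := cl_mem hb θ
      have hm : cl 0 b θ * τ ∈ Icc 0 b := ⟨mul_nonneg hc.1 hτ.1,
        (mul_le_of_le_one_right hc.1 hτ.2).trans hc.2⟩
      have h2 : G (cl 0 b θ * τ) = Real.exp (-(Λ * cl 0 b (cl 0 b θ * τ)))
        * g (cl 0 b (cl 0 b θ * τ)) := rfl
      simp only
      rw [h2, cl_eq hm, ← mul_assoc, ← Real.exp_add, add_neg_cancel, Real.exp_zero, one_mul]
    have hGX : G = X β hβ := (hcon β hβ).fixedPoint_unique hGfix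
    rw [hψe β hβ, ← hGX]
    show g θ = Real.exp (Λ * cl 0 b θ) * (Real.exp (-(Λ * cl 0 b θ)) * g (cl 0 b θ))
    rw [← mul_assoc, ← Real.exp_add, add_neg_cancel, Real.exp_zero, one_mul, cl_eq hθ]
  · -- continuity in the parameter
    intro θ
    have hd : ∀ β (hβ : β ∈ I), ∀ β' (hβ' : β' ∈ I), dist (X β hβ) (X β' hβ') ≤ 2 * (C * |β - β'|) := by
      intro β hβ β' hβ'
      have h1 : dist (X β hβ) (X β' hβ') ≤ dist (TT hb hΛ.le (hF β hβ) (X β hβ))
          (TT hb hΛ.le (hF β hβ) (X β' hβ')) + dist (TT hb hΛ.le (hF β hβ) (X β' hβ'))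
          (TT hb hΛ.le (hF β' hβ') (X β' hβ')) := by
        nth_rewrite 1 [← hfix β hβ, ← hfix β' hβ']
        exact dist_triangle _ _ _
      have h2 := TT_lip hb hΛ hL (hF β hβ) (X β hβ) (X β' hβ')
      have h3 := TT_dist hb hΛ.le (hF β hβ) (hF β' hβ') (by positivity : 0 ≤ C * |β - β'|)
        (hFF β hβ β' hβ') (X β' hβ')
      have h4 : L / Λ * dist (X β hβ) (X β' hβ') ≤ 1 / 2 * dist (X β hβ) (X β' hβ') :=
        mul_le_mul_of_nonneg_right hLΛ dist_nonneg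
      linarith
    rw [Metric.continuousOn_iff]
    intro β hβ ε hε
    set K := Real.exp (Λ * cl 0 b θ) * (2 * C) with hK
    have hK0 : 0 ≤ K := by positivity
    refine ⟨ε / (K + 1), by positivity, fun β' hβ' hdist => ?_⟩
    have h1 : dist (ψ β' θ) (ψ β θ) ≤ K * |β' - β| := by
      rw [hψe β hβ, hψe β' hβ', Real.dist_eq, ← mul_sub, abs_mul, abs_of_pos (Real.exp_pos _), hK,
        mul_assoc]
      apply mul_le_mul_of_nonneg_left _ (Real.exp_pos _).le
      have h2 := BoundedContinuousFunction.dist_coe_le_dist (f := X β' hβ') (g := X β hβ) θ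
      rw [Real.dist_eq] at h2
      have h3 := hd β' hβ' β hβ
      linarith
    rw [Real.dist_eq] at hdist
    calc dist (ψ β' θ) (ψ β θ) ≤ K * |β' - β| := h1
      _ ≤ (K + 1) * |β' - β| := by
          have := abs_nonneg (β' - β)
          nlinarith
      _ < (K + 1) * (ε / (K + 1)) := by
          apply mul_lt_mul_of_pos_left hdist (by positivity)
      _ = ε := by field_simp

end Pool.Agent.H76.SC3
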