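import Pool.Agent.H76.SC3.Prof3

/-!
# The global profile
-/

set_option autoImplicit false
open Filter Topology Set MeasureTheory

namespace Pool.Agent.H76.SC3

/-- the profile in the angle -/
noncomputable def fE (F : ℝ → ℝ) (θ : ℝ) : ℝ := F (Real.sin θ ^ 2)
/-- its derivative -/
noncomputable def gE (A : ℝ → ℝ) (θ : ℝ) : ℝ := 2 * Real.sin θ * Real.cos θ * A (Real.sin θ ^ 2)
/-- squared modulus of the gradient -/
noncomputable def NE (β : ℝ) (F A : ℝ → ℝ) (θ : ℝ) : ℝ := β ^ 2 * fE F θ ^ 2 + gE A θ ^ 2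

/-- global profiles -/
structure G3 (p β : ℝ) (F A : ℝ → ℝ) : Prop where
  cA : Continuous A
  dF : ∀ t, HasDerivAt F (A t) t
  N : ∀ θ, 0 < NE β F A θ
  y : ∀ θ ∈ Ioo 0 Real.pi \ {Real.pi / 2}, HasDerivAt
    (fun s => Real.sin s * (NE β F A s ^ ((p - 2) / 2) * gE A s))
    (-(β * ((p - 1) * β + 2 - (p - 1)) * (Real.sin θ
      * (NE β F A θ ^ ((p - 2) / 2) * fE F θ)))) θ

section
variable {p β : ℝ} {F A : ℝ → ℝ}

lemma hasDerivAt_fE (hF : ∀ t, HasDerivAt F (A t) t) (θ : ℝ) :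
    HasDerivAt (fE F) (gE A θ) θ := by
  have h1 : HasDerivAt (fun θ : ℝ => Real.sin θ ^ 2) (2 * Real.sin θ * Real.cos θ) θ := by
    have := (Real.hasDerivAt_sin θ).pow 2
    refine this.congr_deriv ?_
    simp
  have h2 := (hF (Real.sin θ ^ 2)).comp θ h1
  refine h2.congr_deriv ?_
  unfold gE; ring

lemma continuous_gE (hA : Continuous A) : Continuous (gE A) := by
  unfold gE
  have : Continuous fun θ : ℝ => A (Real.sin θ ^ 2) := hA.comp (by fun_prop)
  fun_prop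

lemma continuous_fE (hF : ∀ t, HasDerivAt F (A t) t) : Continuous (fE F) :=
  continuous_iff_continuousAt.mpr fun θ => (hasDerivAt_fE hF θ).continuousAt

lemma continuous_NE (hF : ∀ t, HasDerivAt F (A t) t) (hA : Continuous A) :
    Continuous (NE β F A) := by
  unfold NE
  have := continuous_gE hA
  have := continuous_fE hF
  fun_prop

lemma fE_refl (θ : ℝ) : fE F (Real.pi - θ) = fE F θ := by unfold fE; rw [Real.sin_pi_sub]
lemma gE_refl (θ : ℝ) : gE A (Real.pi - θ) = -gE A θ := by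
  unfold gE; rw [Real.sin_pi_sub, Real.cos_pi_sub]; ring
lemma NE_refl (θ : ℝ) : NE β F A (Real.pi - θ) = NE β F A θ := by
  unfold NE; rw [fE_refl, gE_refl]; ring

/-- the angle as a function of the squared sine -/
noncomputable def ar (τ : ℝ) : ℝ := Real.arcsin (Real.sqrt (cl 0 1 τ))

lemma ar_mem (τ : ℝ) : ar τ ∈ Icc 0 (Real.pi / 2) :=
  ⟨Real.arcsin_nonneg.mpr (Real.sqrt_nonneg _), Real.arcsin_le_pi_div_two _⟩

lemma continuous_ar : Continuous ar :=
  Real.continuous_arcsin.comp (Real.continuous_sqrt.comp continuous_cl)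

lemma ar_sin {θ : ℝ} (hθ : θ ∈ Icc 0 (Real.pi / 2)) : ar (Real.sin θ ^ 2) = θ := by
  have hs : 0 ≤ Real.sin θ :=
    Real.sin_nonneg_of_nonneg_of_le_pi hθ.1 (by linarith [hθ.2, Real.pi_pos])
  unfold ar
  rw [cl_eq ⟨sq_nonneg _, Real.sin_sq_le_one θ⟩, Real.sqrt_sq hs,
    Real.arcsin_sin (by linarith [hθ.1, Real.pi_pos]) hθ.2]

lemma sin_ar (θ : ℝ) : Real.sin (ar (Real.sin θ ^ 2)) ^ 2 = Real.sin θ ^ 2 := by
  unfold ar
  rw [cl_eq ⟨sq_nonneg _, Real.sin_sq_le_one θ⟩, Real.sin_arcsin, Real.sq_sqrt (sq_nonneg _)]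
  · linarith [Real.sqrt_nonneg (Real.sin θ ^ 2)]
  · rw [Real.sqrt_le_one]; exact Real.sin_sq_le_one θ

end

theorem P3.exists_G3 {p β : ℝ} {f f1 a : ℝ → ℝ} (h : P3 p β f f1 a) :
    ∃ F A : ℝ → ℝ, G3 p β F A := by
  set A : ℝ → ℝ := fun τ => a (ar τ) with hA
  have cA : Continuous A := h.ca.comp_continuous continuous_ar ar_mem
  set F : ℝ → ℝ := fun τ => f 0 + ∫ s in (0 : ℝ)..τ, A s with hFdef
  have dF : ∀ t, HasDerivAt F (A t) t := by
    intro t
    have := intervalIntegral.integral_hasDerivAt_right (cA.intervalIntegrable 0 t)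
      (cA.stronglyMeasurableAtFilter _ _) cA.continuousAt
    simpa [hFdef] using this.const_add (f 0)
  have hgA : ∀ θ ∈ Icc 0 (Real.pi / 2), gE A θ = f1 θ := by
    intro θ hθ
    unfold gE
    simp only [hA]
    rw [ar_sin hθ, h.ha θ hθ]
  have hfF : ∀ θ ∈ Icc 0 (Real.pi / 2), fE F θ = f θ := by
    intro θ hθ
    have h1 : ∫ s in (0 : ℝ)..θ, (0 : ℝ) = (fE F θ - f θ) - (fE F 0 - f 0) := by
      apply intervalIntegral.integral_eq_sub_of_hasDerivAt_of_le hθ.1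
        (f := fun s => fE F s - f s)
      · exact (continuous_fE dF).continuousOn.sub (h.cf.mono (Icc_subset_Icc_right hθ.2))
      · intro s hs
        have hs' : s ∈ Ioo 0 (Real.pi / 2) := ⟨hs.1, lt_of_lt_of_le hs.2 hθ.2⟩
        have := (hasDerivAt_fE dF s).sub (h.df s hs')
        rwa [hgA s ⟨hs'.1.le, hs'.2.le⟩, sub_self] at this
      · exact intervalIntegrable_const
    have h2 : fE F 0 = f 0 := by
      unfold fE
      simp [hFdef]
    simp only [intervalIntegral.integral_zero] at h1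
    linarith
  have hNs : ∀ θ, NE β F A θ = β ^ 2 * f (ar (Real.sin θ ^ 2)) ^ 2
      + f1 (ar (Real.sin θ ^ 2)) ^ 2 := by
    intro θ
    have hm := ar_mem (Real.sin θ ^ 2)
    have hs := sin_ar θ
    rw [← hfF _ hm, ← hgA _ hm]
    have hc : Real.cos (ar (Real.sin θ ^ 2)) ^ 2 = Real.cos θ ^ 2 := by
      rw [Real.cos_sq', Real.cos_sq', hs]
    unfold NE fE gE
    rw [hs]
    have e1 : ∀ x y z : ℝ, (2 * x * y * z) ^ 2 = 4 * x ^ 2 * y ^ 2 * z ^ 2 := fun x y z => by ring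
    rw [e1, e1, hc, hs]
  refine ⟨F, A, cA, dF, fun θ => ?_, ?_⟩
  · rw [hNs]
    exact h.hN _ (ar_mem _)
  · -- the first quarter
    have hfirst : ∀ θ ∈ Ioo 0 (Real.pi / 2), HasDerivAt
        (fun s => Real.sin s * (NE β F A s ^ ((p - 2) / 2) * gE A s))
        (-(β * ((p - 1) * β + 2 - (p - 1)) * (Real.sin θ
          * (NE β F A θ ^ ((p - 2) / 2) * fE F θ)))) θ := by
      intro θ hθ
      have h1 := h.hy θ hθ
      have hN : ∀ s ∈ Ioo 0 (Real.pi / 2), NE β F A s = β ^ 2 * f s ^ 2 + f1 s ^ 2 := by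
        intro s hs
        unfold NE
        rw [hfF s ⟨hs.1.le, hs.2.le⟩, hgA s ⟨hs.1.le, hs.2.le⟩]
      rw [hN θ hθ, hfF θ ⟨hθ.1.le, hθ.2.le⟩]
      refine h1.congr_of_eventuallyEq ?_
      filter_upwards [Ioo_mem_nhds hθ.1 hθ.2] with s hs
      rw [hN s hs, hgA s ⟨hs.1.le, hs.2.le⟩]
    intro θ hθ
    rcases lt_or_gt_of_ne hθ.2 with h1 | h1
    · exact hfirst θ ⟨hθ.1.1, h1⟩
    · have h2 := hfirst (Real.pi - θ) ⟨by linarith [hθ.1.2], by linarith⟩
      have h3 := (h2.comp_const_sub Real.pi θ).neg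
      rw [Real.sin_pi_sub, NE_refl, fE_refl, neg_neg] at h3
      refine h3.congr_of_eventuallyEq (Eventually.of_forall fun s => ?_)
      simp only [Pi.neg_apply]
      rw [Real.sin_pi_sub, NE_refl, gE_refl]
      ring

end Pool.Agent.H76.SC3
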