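import Pool.Agent.H76.SC3.Weak3

/-!
# Integration in cylindrical coordinates
-/

set_option autoImplicit false
open MeasureTheory Metric Filter Topology Set
open scoped ContDiff RealInnerProductSpace

namespace Pool.Agent.H76.SC3

open Pool.Agent.H76.PL (E Mat V A grad osc IsPHarmonic Homog ee er et norm_er er_zero er_one
  integral_polar hasDerivAt_er continuous_er continuous_et)
open Pool.Agent.H76.BP (fs sn fsL snL inner_split norm_sq_split snL_apply fsL_apply
  inner_grad_sum norm_fs_one continuous_grad grad_zero integral_E1 integral_E2 norm_comb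
  measurePreserving_pair)

/-- assembling a point -/
noncomputable def mk3 (q : E 1 × E 2) : E (1 + 2) :=
  (q.1 0) • EuclideanSpace.single (Fin.castAdd 2 (0 : Fin 1)) (1 : ℝ)
    + ((q.2 0) • EuclideanSpace.single (Fin.natAdd 1 (0 : Fin 2)) (1 : ℝ)
      + (q.2 1) • EuclideanSpace.single (Fin.natAdd 1 (1 : Fin 2)) (1 : ℝ))

lemma fs_mk3 (q : E 1 × E 2) : fs (mk3 q) = q.1 := by
  ext l
  have hl : l = 0 := Subsingleton.elim _ _
  subst hl
  simp [mk3]

lemma sn_mk3 (q : E 1 × E 2) : sn (mk3 q) = q.2 := by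
  ext l
  fin_cases l
  · simp [mk3]
  · simp [mk3]

lemma mk3_pair (x : E (1 + 2)) : mk3 (fs x, sn x) = x := by
  ext l
  refine Fin.addCases (fun i => ?_) (fun j => ?_) l
  · have h := congrArg (fun z : E 1 => z i) (fs_mk3 (fs x, sn x))
    exact h
  · have h := congrArg (fun z : E 2 => z j) (sn_mk3 (fs x, sn x))
    exact h

lemma continuous_mk3 : Continuous mk3 := by
  have h1 : Continuous fun q : E 1 × E 2 => q.1 0 :=
    (EuclideanSpace.proj (0 : Fin 1) : E 1 →L[ℝ] ℝ).continuous.comp continuous_fst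
  have h2 : Continuous fun q : E 1 × E 2 => q.2 0 :=
    (EuclideanSpace.proj (0 : Fin 2) : E 2 →L[ℝ] ℝ).continuous.comp continuous_snd
  have h3 : Continuous fun q : E 1 × E 2 => q.2 1 :=
    (EuclideanSpace.proj (1 : Fin 2) : E 2 →L[ℝ] ℝ).continuous.comp continuous_snd
  unfold mk3
  exact (h1.smul continuous_const).add ((h2.smul continuous_const).add (h3.smul continuous_const))

lemma norm_mk3 (q : E 1 × E 2) : ‖mk3 q‖ ^ 2 = ‖q.1‖ ^ 2 + ‖q.2‖ ^ 2 := by
  rw [norm_sq_split, fs_mk3, sn_mk3]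

lemma mk3_pt (r ρ t : ℝ) : mk3 (EuclideanSpace.single 0 r, ρ • er t) = pt t (r • ee 0 + ρ • ee 1) := by
  rw [← mk3_pair (pt t (r • ee 0 + ρ • ee 1)), fs_pt, sn_pt]
  simp

section
variable {g : E (1 + 2) → ℝ}

/-- the integrand in cylindrical coordinates -/
noncomputable def KK (g : E (1 + 2) → ℝ) (r ρ t : ℝ) : ℝ :=
  max ρ 0 * g (pt t (r • ee 0 + ρ • ee 1))

lemma pt_comb (r ρ t : ℝ) : pt t (r • ee 0 + ρ • ee 1)
    = r • EuclideanSpace.single (Fin.castAdd 2 (0 : Fin 1)) (1 : ℝ)
      + ρ • (Real.cos t • EuclideanSpace.single (Fin.natAdd 1 (0 : Fin 2)) (1 : ℝ)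
        + Real.sin t • EuclideanSpace.single (Fin.natAdd 1 (1 : Fin 2)) (1 : ℝ)) := by
  simp [pt]

lemma continuous_pt3 : Continuous fun q : ℝ × ℝ × ℝ => pt q.2.2 (q.1 • ee 0 + q.2.1 • ee 1) := by
  simp only [pt_comb]
  have h1 : Continuous fun q : ℝ × ℝ × ℝ => q.1 := continuous_fst
  have h2 : Continuous fun q : ℝ × ℝ × ℝ => q.2.1 := continuous_fst.comp continuous_snd
  have h3 : Continuous fun q : ℝ × ℝ × ℝ => Real.cos q.2.2 :=
    Real.continuous_cos.comp (continuous_snd.comp continuous_snd)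
  have h4 : Continuous fun q : ℝ × ℝ × ℝ => Real.sin q.2.2 :=
    Real.continuous_sin.comp (continuous_snd.comp continuous_snd)
  exact (h1.smul continuous_const).add
    (h2.smul ((h3.smul continuous_const).add (h4.smul continuous_const)))

lemma continuous_KK (hg : Continuous g) :
    Continuous fun q : ℝ × ℝ × ℝ => KK g q.1 q.2.1 q.2.2 := by
  have h0 : Continuous fun q : ℝ × ℝ × ℝ => max q.2.1 0 :=
    (continuous_fst.comp continuous_snd).max continuous_const
  have h1 : Continuous fun q : ℝ × ℝ × ℝ => g (pt q.2.2 (q.1 • ee 0 + q.2.1 • ee 1)) :=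
    hg.comp continuous_pt3
  exact h0.mul h1

lemma abs_le_comb1 (a b : ℝ) : |a| ≤ ‖a • ee 0 + b • ee 1‖ := by
  apply abs_le_of_sq_le_sq
  · rw [norm_comb]; nlinarith [sq_nonneg b]
  · exact norm_nonneg _

lemma abs_le_comb2 (a b : ℝ) : |b| ≤ ‖a • ee 0 + b • ee 1‖ := by
  apply abs_le_of_sq_le_sq
  · rw [norm_comb]; nlinarith [sq_nonneg a]
  · exact norm_nonneg _

lemma KK_zero {M : ℝ} (hM : ∀ x, M ≤ ‖x‖ → g x = 0) {r ρ t : ℝ} (h : M ≤ |r| ∨ M ≤ |ρ|) :
    KK g r ρ t = 0 := by
  unfold KK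
  rw [hM, mul_zero]
  rw [norm_pt]
  rcases h with h | h
  · exact h.trans (abs_le_comb1 r ρ)
  · exact h.trans (abs_le_comb2 r ρ)

lemma KK_neg {r ρ t : ℝ} (h : ρ ≤ 0) : KK g r ρ t = 0 := by
  unfold KK
  rw [max_eq_right h, zero_mul]

theorem integral_3 (hg : Continuous g) {M : ℝ} (hM0 : 0 < M) (hM : ∀ x, M ≤ ‖x‖ → g x = 0) :
    ∫ x, g x = ∫ t in Ioo (-Real.pi) Real.pi, ∫ z : E 2, max (z 1) 0 * g (pt t z) := by
  have hgc : HasCompactSupport g := by
    apply HasCompactSupport.of_support_subset_isCompact (isCompact_closedBall (0 : E (1 + 2)) M)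
    intro x hx
    rw [mem_closedBall_zero_iff]
    by_contra hcon
    exact hx (hM x (not_le.mp hcon).le)
  -- product space
  have h1 : ∫ x : E (1 + 2), g x = ∫ q : E 1 × E 2, g (mk3 q) := by
    have hmp := measurePreserving_pair (m := 1) (k := 2)
    rw [← hmp.map_eq, integral_map hmp.measurable.aemeasurable]
    · congr 1
      ext x
      rw [mk3_pair]
    · exact (hg.comp continuous_mk3).aestronglyMeasurable
  have hint : Integrable (fun q : E 1 × E 2 => g (mk3 q)) := by
    apply Continuous.integrable_of_hasCompactSupport (hg.comp continuous_mk3)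
    apply HasCompactSupport.of_support_subset_isCompact
      ((isCompact_closedBall (0 : E 1) M).prod (isCompact_closedBall (0 : E 2) M))
    intro q hq
    have hq' : ‖mk3 q‖ ≤ M := by
      by_contra hcon
      exact hq (hM _ (not_le.mp hcon).le)
    have h2 := norm_mk3 q
    have h3 : ‖mk3 q‖ ^ 2 ≤ M ^ 2 := by gcongr
    refine ⟨?_, ?_⟩
    · rw [mem_closedBall_zero_iff]
      exact abs_le_of_sq_le_sq' (by nlinarith [sq_nonneg ‖q.2‖]) hM0.le |>.2
    · rw [mem_closedBall_zero_iff]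
      exact abs_le_of_sq_le_sq' (by nlinarith [sq_nonneg ‖q.1‖]) hM0.le |>.2
  have h2 : ∫ q : E 1 × E 2, g (mk3 q)
      = ∫ r : ℝ, ∫ b : E 2, g (mk3 (EuclideanSpace.single 0 r, b)) := by
    rw [Measure.volume_eq_prod, integral_prod _ hint]
    exact integral_E1 (fun a => ∫ b : E 2, g (mk3 (a, b)))
  have cK := continuous_KK hg
  have hIoc : ∀ {s : Set ℝ}, s ⊆ Icc (-Real.pi) Real.pi → MeasurableSet s →
      IntegrableOn (fun q : ℝ × ℝ × ℝ => KK g q.1 q.2.1 q.2.2) (univ ×ˢ (univ ×ˢ s)) := by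
    intro s hs hsm
    have h3 : IntegrableOn (fun q : ℝ × ℝ × ℝ => KK g q.1 q.2.1 q.2.2)
        (Icc (-M) M ×ˢ (Icc (-M) M ×ˢ s)) :=
      (cK.continuousOn.integrableOn_compact (isCompact_Icc.prod (isCompact_Icc.prod
        (isCompact_Icc (a := -Real.pi) (b := Real.pi))))).mono_set
        (prod_mono le_rfl (prod_mono le_rfl hs))
    refine h3.of_forall_sdiff_eq_zero (MeasurableSet.univ.prod (MeasurableSet.univ.prod hsm)) ?_
    intro q hq
    apply KK_zero hM
    by_contra hcon
    push Not at hcon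
    apply hq.2
    exact ⟨abs_le.mp hcon.1.le, abs_le.mp hcon.2.le, hq.1.2.2⟩
  have hIoo := hIoc (s := Ioo (-Real.pi) Real.pi) Ioo_subset_Icc_self measurableSet_Ioo
  set ν : Measure ℝ := volume.restrict (Ioo (-Real.pi) Real.pi) with hν
  have hK3 : Integrable (fun q : ℝ × ℝ × ℝ => KK g q.1 q.2.1 q.2.2)
      ((volume : Measure ℝ).prod ((volume : Measure ℝ).prod ν)) := by
    have e1 : (volume : Measure ℝ).prod ((volume : Measure ℝ).prod ν)
        = (volume : Measure (ℝ × ℝ × ℝ)).restrict (univ ×ˢ (univ ×ˢ Ioo (-Real.pi) Real.pi)) := by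
      rw [Measure.volume_eq_prod, ← Measure.prod_restrict, Measure.restrict_univ,
        Measure.volume_eq_prod, ← Measure.prod_restrict, Measure.restrict_univ]
    rw [e1]
    exact hIoo
  -- polar coordinates in the fibre
  have h3 : ∀ r : ℝ, ∫ b : E 2, g (mk3 (EuclideanSpace.single 0 r, b))
      = ∫ q, KK g r q.1 q.2 ∂((volume : Measure ℝ).prod ν) := by
    intro r
    rw [integral_polar]
    have e1 : (volume : Measure ℝ).prod ν
        = (volume : Measure (ℝ × ℝ)).restrict (univ ×ˢ Ioo (-Real.pi) Real.pi) := by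
      rw [Measure.volume_eq_prod, ← Measure.prod_restrict, Measure.restrict_univ]
    rw [e1, setIntegral_eq_of_subset_of_forall_sdiff_eq_zero
      (s := Ioi (0 : ℝ) ×ˢ Ioo (-Real.pi) Real.pi)
      (MeasurableSet.univ.prod measurableSet_Ioo) (prod_mono (subset_univ _) le_rfl)]
    · apply setIntegral_congr_fun (measurableSet_Ioi.prod measurableSet_Ioo)
      intro q hq
      simp only
      unfold KK
      rw [mk3_pt, smul_eq_mul, max_eq_left (le_of_lt hq.1)]
    · intro q hq
      apply KK_neg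
      by_contra hcon
      exact hq.2 ⟨not_le.mp hcon, hq.1.2⟩
  rw [h1, h2]
  simp only [h3]
  -- integrability of the fibres
  have hK3' : Integrable (fun q : ℝ × ℝ × ℝ => KK g q.1 q.2.2 q.2.1)
      ((volume : Measure ℝ).prod (ν.prod (volume : Measure ℝ))) := by
    have hmp : MeasurePreserving (fun q : ℝ × ℝ × ℝ => (q.1, q.2.2, q.2.1))
        ((volume : Measure ℝ).prod (ν.prod (volume : Measure ℝ)))
        ((volume : Measure ℝ).prod ((volume : Measure ℝ).prod ν)) :=
      (MeasurePreserving.id _).prod Measure.measurePreserving_swap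
    exact hmp.integrable_comp_of_integrable hK3
  have hae : ∀ᵐ r : ℝ, Integrable (fun q : ℝ × ℝ => KK g r q.1 q.2)
      ((volume : Measure ℝ).prod ν) := hK3.prod_right_ae
  have h4 : ∀ᵐ r : ℝ, ∫ q, KK g r q.1 q.2 ∂((volume : Measure ℝ).prod ν)
      = ∫ t, (∫ ρ : ℝ, KK g r ρ t) ∂ν := by
    filter_upwards [hae] with r hr
    exact integral_prod_symm _ hr
  rw [integral_congr_ae h4]
  have hΦ : Integrable (fun q : ℝ × ℝ => ∫ ρ : ℝ, KK g q.1 ρ q.2) ((volume : Measure ℝ).prod ν) := by
    have hmp := (measurePreserving_prodAssoc (volume : Measure ℝ) ν (volume : Measure ℝ))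
    have h5 := hmp.integrable_comp_of_integrable hK3'
    exact h5.integral_prod_left
  have h5 : ∫ r : ℝ, (∫ t, (∫ ρ : ℝ, KK g r ρ t) ∂ν)
      = ∫ t, (∫ r : ℝ, ∫ ρ : ℝ, KK g r ρ t) ∂ν := by
    exact integral_integral_swap (f := fun r t => ∫ ρ : ℝ, KK g r ρ t) hΦ
  rw [h5]
  congr 1
  ext t
  rw [integral_E2, Measure.volume_eq_prod, integral_prod]
  · congr 1
    ext r
    congr 1
    ext ρ
    unfold KK
    simp
  · rw [← Measure.volume_eq_prod]
    have cK2 : Continuous fun q : ℝ × ℝ => KK g q.1 q.2 t :=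
      cK.comp (continuous_fst.prodMk (continuous_snd.prodMk continuous_const))
    have h6 : Integrable fun q : ℝ × ℝ => KK g q.1 q.2 t := by
      apply cK2.integrable_of_hasCompactSupport
      apply HasCompactSupport.of_support_subset_isCompact
        ((isCompact_Icc (a := -M) (b := M)).prod (isCompact_Icc (a := -M) (b := M)))
      intro q hq
      by_contra hcon
      apply hq
      apply KK_zero hM
      by_contra hcon2
      push Not at hcon2
      exact hcon ⟨abs_le.mp hcon2.1.le, abs_le.mp hcon2.2.le⟩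
    refine h6.congr (Eventually.of_forall fun q => ?_)
    unfold KK
    simp

end

end Pool.Agent.H76.SC3
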