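import Pool.Agent.H76.SC3.Int3

/-!
# The counterexample in `ℝ³`
-/

set_option autoImplicit false
open MeasureTheory Metric Filter Topology Set
open scoped ContDiff RealInnerProductSpace

namespace Pool.Agent.H76.SC3

open Pool.Agent.H76.PL (E Mat V A grad osc IsPHarmonic Homog ee er et norm_er er_zero er_one
  integral_polar hasDerivAt_er continuous_er continuous_et polar_rep avg_ball)
open Pool.Agent.H76.BP (fs sn fsL snL inner_split norm_sq_split snL_apply fsL_apply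
  inner_grad_sum norm_fs_one continuous_grad grad_zero integral_E1 integral_E2 norm_comb
  measurePreserving_pair V_homog V_ne_zero osc_homog)

section
variable {n : ℕ} {p β : ℝ} {F Ap : ℝ → ℝ}

theorem pharm_h3 (hp1 : 1 < p) (hβ : 1 < β) (h : G3 p β F Ap) {w : E n} (hw : ‖w‖ = 1) :
    IsPHarmonic p (h3 β F w) := by
  refine ⟨contDiff_h3 hβ h w, fun φ hφ hφc => ?_⟩
  have hφ1 : ContDiff ℝ 1 φ := hφ.of_le (by exact_mod_cast le_top)
  obtain ⟨R, hR⟩ := hφc.isCompact.isBounded.subset_closedBall (0 : E (1 + 2))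
  set M := |R| + 1 with hM
  have hM0 : 0 < M := by positivity
  have hMφ : ∀ x, M ≤ ‖x‖ → x ∉ tsupport φ := by
    intro x hx hm
    have := hR hm
    rw [mem_closedBall_zero_iff] at this
    linarith [le_abs_self R]
  have h1 := integral_3 (continuous_gg hp1 hβ h w hφ1) hM0 (fun x hx => gg_zero (hMφ x hx))
  have h2 : ∫ x, ⟪A p (grad (h3 β F w) x), grad φ x⟫ = ∫ x, gg p β F w φ x := rfl
  rw [h2, h1]
  simp only [plane_zero hp1 hβ h hw hφ1 hM0 hMφ, integral_zero]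

lemma polar3 (x : E (1 + 2)) : ∃ θ t : ℝ, x = pt t (‖x‖ • er θ) := by
  have h1 := polar_rep (sn x)
  set t := Complex.arg ⟨(sn x) 0, (sn x) 1⟩ with ht
  set z : E 2 := (fs x 0) • ee 0 + ‖sn x‖ • ee 1 with hz
  have h2 := polar_rep z
  refine ⟨Complex.arg ⟨z 0, z 1⟩, t, ?_⟩
  have h3 : x = pt t z := by
    rw [hz, ← mk3_pt, ← h1]
    have h4 : (EuclideanSpace.single 0 (fs x 0) : E 1) = fs x := by
      ext l
      have hl : l = 0 := Subsingleton.elim _ _
      subst hl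
      simp
    rw [h4, mk3_pair]
  have h4 : ‖x‖ = ‖z‖ := by rw [h3, norm_pt]
  rw [h4, ← h2]
  exact h3

lemma grad_ne (h : G3 p β F Ap) {w : E n} (hw : ‖w‖ = 1) {x : E (1 + 2)} (hx : x ≠ 0) :
    grad (h3 β F w) x ≠ 0 := by
  obtain ⟨θ, t, hxe⟩ := polar3 x
  have hR : 0 < ‖x‖ := norm_pos_iff.mpr hx
  rw [← norm_pos_iff, hxe, norm_grad_h3 h hw hR]
  have := h.N θ
  have := Real.sqrt_pos.mpr this
  positivity

end

section
variable {d n : ℕ} {G : E d → Mat n d} {γ : ℝ}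

lemma homog_zero (hγ : 0 < γ) (hG : ∀ t : ℝ, 0 < t → ∀ x, G (t • x) = t ^ γ • G x) : G 0 = 0 := by
  have h1 := hG 2 (by norm_num) 0
  rw [smul_zero] at h1
  have h2 : ((2 : ℝ) ^ γ - 1) • G 0 = 0 := by rw [sub_smul, one_smul, ← h1, sub_self]
  have h3 : 1 < (2 : ℝ) ^ γ := Real.one_lt_rpow (by norm_num) hγ
  rcases smul_eq_zero.mp h2 with h | h
  · linarith
  · exact h

/-- homogeneous fields of degree `γ` have no Hölder representative of exponent `> γ` -/
lemma no_holder (hγ : 0 < γ) (hG : ∀ t : ℝ, 0 < t → ∀ x, G (t • x) = t ^ γ • G x)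
    (hc : Continuous G) {x0 : E d} (hx0 : G x0 ≠ 0) {U : Set (E d)} (hU : IsOpen U)
    (h0 : (0 : E d) ∈ U) {α : ℝ} (hα : γ < α) {W : E d → Mat n d} {C : ℝ}
    (hW : ∀ x ∈ U, ∀ y ∈ U, ‖W x - W y‖ ≤ C * ‖x - y‖ ^ α)
    (hWG : W =ᵐ[volume.restrict U] G) : False := by
  have hα0 : 0 < α := hγ.trans hα
  have hWc : ContinuousOn W U := by
    intro x hx
    rw [ContinuousWithinAt, tendsto_iff_norm_sub_tendsto_zero]
    have h1 : Tendsto (fun y => C * ‖y - x‖ ^ α) (𝓝[U] x) (𝓝 0) := by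
      have h2 : ContinuousAt (fun y => C * ‖y - x‖ ^ α) x := by
        apply continuousAt_const.mul
        exact (continuousAt_id.sub continuousAt_const).norm.rpow_const (Or.inr hα0.le)
      have h3 := h2.tendsto
      rw [sub_self, norm_zero, Real.zero_rpow hα0.ne', mul_zero] at h3
      exact h3.mono_left nhdsWithin_le_nhds
    refine squeeze_zero' (Eventually.of_forall fun y => norm_nonneg _) ?_ h1
    filter_upwards [self_mem_nhdsWithin] with y hy
    exact hW y hy x hx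
  have heq : EqOn W G U := Measure.eqOn_open_of_ae_eq hWG hU hWc hc.continuousOn
  have hG0 := homog_zero hγ hG
  have hn : 0 < ‖G x0‖ := norm_pos_iff.mpr hx0
  have hev : ∀ᶠ t : ℝ in 𝓝[>] 0, t • x0 ∈ U := by
    have h1 : ContinuousAt (fun t : ℝ => t • x0) 0 := by fun_prop
    have h2 := h1.tendsto.mono_left (nhdsWithin_le_nhds (s := Ioi (0 : ℝ)))
    rw [zero_smul] at h2
    exact h2.eventually (hU.mem_nhds h0)
  have hle : ∀ᶠ t : ℝ in 𝓝[>] 0, ‖G x0‖ ≤ C * ‖x0‖ ^ α * t ^ (α - γ) := by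
    filter_upwards [hev, self_mem_nhdsWithin] with t ht ht0
    have ht0' : 0 < t := ht0
    have h1 := hW _ ht _ h0
    rw [heq ht, heq h0, hG0, sub_zero, sub_zero, hG t ht0', norm_smul, norm_smul,
      Real.norm_of_nonneg (Real.rpow_nonneg ht0'.le _), Real.norm_of_nonneg ht0'.le,
      Real.mul_rpow ht0'.le (norm_nonneg _)] at h1
    have h2 : t ^ α = t ^ γ * t ^ (α - γ) := by rw [← Real.rpow_add ht0']; congr 1; ring
    rw [h2] at h1
    have h3 : 0 < t ^ γ := Real.rpow_pos_of_pos ht0' _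
    have h4 : t ^ γ * ‖G x0‖ ≤ t ^ γ * (C * ‖x0‖ ^ α * t ^ (α - γ)) := by
      calc _ ≤ _ := h1
        _ = _ := by ring
    exact le_of_mul_le_mul_left h4 h3
  have hlim : Tendsto (fun t : ℝ => C * ‖x0‖ ^ α * t ^ (α - γ)) (𝓝[>] 0) (𝓝 0) := by
    have h1 : ContinuousAt (fun t : ℝ => C * ‖x0‖ ^ α * t ^ (α - γ)) 0 :=
      continuousAt_const.mul (continuousAt_id.rpow_const (Or.inr (by linarith)))
    have h2 := h1.tendsto
    rw [Real.zero_rpow (by linarith), mul_zero] at h2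
    exact h2.mono_left nhdsWithin_le_nhds
  have := ge_of_tendsto hlim hle
  linarith

lemma no_c1 (hγ : 0 < γ) (hγ1 : γ < 1) (hG : ∀ t : ℝ, 0 < t → ∀ x, G (t • x) = t ^ γ • G x)
    (hc : Continuous G) {x0 : E d} (hx0 : G x0 ≠ 0) {U : Set (E d)} (hU : IsOpen U)
    (h0 : (0 : E d) ∈ U) {W : E d → Mat n d} (hW : ContDiffOn ℝ 1 W U)
    (hWG : W =ᵐ[volume.restrict U] G) : False := by
  obtain ⟨K, s, hs, hK⟩ := (hW.contDiffAt (hU.mem_nhds h0)).exists_lipschitzOnWith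
  obtain ⟨s', hs's, hs'o, hs'0⟩ := _root_.mem_nhds_iff.mp hs
  refine no_holder (U := s' ∩ U) (α := 1) (C := K) hγ hG hc hx0 (hs'o.inter hU) ⟨hs'0, h0⟩ hγ1
    (W := W) ?_ ?_
  · intro x hx y hy
    have := hK.dist_le_mul x (hs's hx.1) y (hs's hy.1)
    rw [dist_eq_norm, dist_eq_norm] at this
    rwa [Real.rpow_one]
  · exact ae_mono (Measure.restrict_mono inter_subset_right le_rfl) hWG

lemma osc_pos (hγ : 0 < γ) (hG : ∀ t : ℝ, 0 < t → ∀ x, G (t • x) = t ^ γ • G x)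
    (hc : Continuous G) {x0 : E d} (hx0 : G x0 ≠ 0) {r : ℝ} (hr : 0 < r) : 0 < osc G 0 r := by
  unfold osc
  rw [Real.sqrt_pos]
  set m := ⨍ y in ball (0 : E d) r, G y with hm
  have hnn : 0 ≤ ⨍ x in ball (0 : E d) r, ‖G x - m‖ ^ 2 := by
    rw [setAverage_eq, smul_eq_mul]
    exact mul_nonneg (by positivity) (integral_nonneg fun y => by positivity)
  refine lt_of_le_of_ne hnn fun hcon => ?_
  have hfc : Continuous fun x => ‖G x - m‖ ^ 2 := by fun_prop
  have hvol : 0 < volume.real (ball (0 : E d) r) := by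
    simp only [Measure.real]
    exact ENNReal.toReal_pos (isOpen_ball.measure_pos volume
      (⟨0, by simpa using hr⟩ : (ball (0 : E d) r).Nonempty)).ne' measure_ball_lt_top.ne
  have hI : ∫ x in ball (0 : E d) r, ‖G x - m‖ ^ 2 = 0 := by
    have h1 := hcon.symm
    rw [setAverage_eq, smul_eq_mul] at h1
    rcases mul_eq_zero.mp h1 with h | h
    · exact absurd h (inv_ne_zero hvol.ne')
    · exact h
  have hint : IntegrableOn (fun x => ‖G x - m‖ ^ 2) (ball (0 : E d) r) :=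
    (hfc.continuousOn.integrableOn_compact (isCompact_closedBall 0 r)).mono_set
      ball_subset_closedBall
  have hae := (setIntegral_eq_zero_iff_of_nonneg_ae
    (Eventually.of_forall fun y => by positivity) hint).mp hI
  have hall : ∀ y ∈ ball (0 : E d) r, G y = m := by
    have h1 : EqOn (fun y => ‖G y - m‖ ^ 2) (fun _ => 0) (ball (0 : E d) r) :=
      Measure.eqOn_open_of_ae_eq hae isOpen_ball hfc.continuousOn continuousOn_const
    intro y hy
    have := h1 hy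
    simp only at this
    have h2 := pow_eq_zero_iff (two_ne_zero) |>.mp this
    exact sub_eq_zero.mp (norm_eq_zero.mp h2)
  have hm0 : m = 0 := by
    rw [← hall 0 (by simpa using hr)]
    exact homog_zero hγ hG
  -- scaling
  have hx1 : 0 < ‖x0‖ + 1 := by positivity
  set t := r / (2 * (‖x0‖ + 1)) with ht
  have ht0 : 0 < t := by positivity
  have hmem : t • x0 ∈ ball (0 : E d) r := by
    rw [mem_ball_zero_iff, norm_smul, Real.norm_of_nonneg ht0.le, ht, div_mul_eq_mul_div,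
      div_lt_iff₀ (by positivity)]
    nlinarith [norm_nonneg x0]
  have h1 := hall _ hmem
  rw [hG t ht0, hm0] at h1
  rcases smul_eq_zero.mp h1 with h | h
  · exact (Real.rpow_pos_of_pos ht0 _).ne' h
  · exact hx0 h

lemma osc_scale (hG : ∀ t : ℝ, 0 < t → ∀ x, G (t • x) = t ^ γ • G x) {r θ : ℝ} (hr : 0 < r)
    (hθ : 0 < θ) : osc G 0 (θ * r) = θ ^ γ * osc G 0 r := by
  have := osc_homog hG 0 hr hθ
  rwa [smul_zero] at this

lemma no_decay (hγ : 0 < γ) (hG : ∀ t : ℝ, 0 < t → ∀ x, G (t • x) = t ^ γ • G x)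
    (hc : Continuous G) {x0 : E d} (hx0 : G x0 ≠ 0) {r : ℝ} (hr : 0 < r) {α : ℝ} (hα : γ < α)
    (c : ℝ) : ¬ ∀ θ : ℝ, 0 < θ → θ ≤ 1 → osc G 0 (θ * r) ≤ c * θ ^ α * osc G 0 r := by
  intro hcon
  have hpos := osc_pos hγ hG hc hx0 hr
  have hle : ∀ᶠ θ : ℝ in 𝓝[>] 0, (1 : ℝ) ≤ c * θ ^ (α - γ) := by
    filter_upwards [Ioc_mem_nhdsGT (zero_lt_one' ℝ)] with θ hθ
    have h1 := hcon θ hθ.1 hθ.2
    rw [osc_scale hG hr hθ.1] at h1
    have h2 : θ ^ α = θ ^ γ * θ ^ (α - γ) := by rw [← Real.rpow_add hθ.1]; congr 1; ring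
    have h3 : 0 < θ ^ γ * osc G 0 r := mul_pos (Real.rpow_pos_of_pos hθ.1 _) hpos
    have h4 : θ ^ γ * osc G 0 r * 1 ≤ θ ^ γ * osc G 0 r * (c * θ ^ (α - γ)) := by
      calc _ = θ ^ γ * osc G 0 r := mul_one _
        _ ≤ _ := h1
        _ = _ := by rw [h2]; ring
    exact le_of_mul_le_mul_left h4 h3
  have hlim : Tendsto (fun θ : ℝ => c * θ ^ (α - γ)) (𝓝[>] 0) (𝓝 0) := by
    have h1 : ContinuousAt (fun t : ℝ => c * t ^ (α - γ)) 0 :=
      continuousAt_const.mul (continuousAt_id.rpow_const (Or.inr (by linarith)))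
    have h2 := h1.tendsto
    rw [Real.zero_rpow (by linarith), mul_zero] at h2
    exact h2.mono_left nhdsWithin_le_nhds
  have := ge_of_tendsto hlim hle
  linarith

lemma continuous_V {p : ℝ} (hp : 0 < p) : Continuous (V p : Mat n d → Mat n d) := by
  rw [continuous_iff_continuousAt]
  intro ξ
  by_cases hξ : ξ = 0
  · subst hξ
    show Tendsto _ _ _
    have hA0 : V p (0 : Mat n d) = 0 := by unfold V; rw [smul_zero]
    rw [hA0]
    have hb : ∀ η : Mat n d, ‖V p η‖ ≤ ‖η‖ ^ (p / 2) := by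
      intro η
      unfold V
      rw [norm_smul, Real.norm_of_nonneg (by positivity)]
      rcases eq_or_lt_of_le (norm_nonneg η) with h | h
      · rw [← h, mul_zero]; positivity
      · rw [← Real.rpow_add_one h.ne']
        apply le_of_eq; congr 1; ring
    refine squeeze_zero_norm hb ?_
    have h4 : ContinuousAt (fun η : Mat n d => ‖η‖ ^ (p / 2)) 0 :=
      continuous_norm.continuousAt.rpow_const (Or.inr (by linarith))
    have := h4.tendsto
    rwa [norm_zero, Real.zero_rpow (by positivity)] at this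
  · unfold V
    exact (continuous_norm.continuousAt.rpow_const
      (Or.inl (norm_ne_zero_iff.mpr hξ))).smul continuousAt_id

end

/-- **Main theorem.** -/
theorem main3 {p : ℝ} (hp : 7 / 4 ≤ p) (hp2 : p < 2) :
    ∃ (β : ℝ) (u : E (1 + 2) → ℝ), 1 < β ∧ β < 1 + 2 / p ∧ ContDiff ℝ 1 u ∧
      (∀ t : ℝ, 0 < t → ∀ x, u (t • x) = t ^ β * u x) ∧
      (∀ x y, |x 0| = |y 0| → x 1 ^ 2 + x 2 ^ 2 = y 1 ^ 2 + y 2 ^ 2 → u x = u y) ∧
      ∀ (n : ℕ) (w : E n), ‖w‖ = 1 →
        IsPHarmonic p (fun x => u x • w) ∧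
        (∀ x, x ≠ 0 → grad (fun x => u x • w) x ≠ 0) ∧
        (∀ U : Set (E (1 + 2)), IsOpen U → 0 ∈ U →
          (¬ ∃ W : E (1 + 2) → Mat n (1 + 2), ContDiffOn ℝ 1 W U ∧
            W =ᵐ[volume.restrict U] fun x => V p (grad (fun x => u x • w) x)) ∧
          (∀ α : ℝ, (β - 1) * p / 2 < α → ¬ ∃ (W : E (1 + 2) → Mat n (1 + 2)) (C : ℝ),
            (∀ x ∈ U, ∀ y ∈ U, ‖W x - W y‖ ≤ C * ‖x - y‖ ^ α) ∧
            W =ᵐ[volume.restrict U] fun x => V p (grad (fun x => u x • w) x))) ∧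
        (∀ r : ℝ, 0 < r →
          0 < osc (fun x => V p (grad (fun x => u x • w) x)) 0 r ∧
          (∀ θ : ℝ, 0 < θ → osc (fun x => V p (grad (fun x => u x • w) x)) 0 (θ * r)
            = θ ^ ((β - 1) * p / 2) * osc (fun x => V p (grad (fun x => u x • w) x)) 0 r) ∧
          (∀ α : ℝ, (β - 1) * p / 2 < α → ¬ ∃ c : ℝ, ∀ θ : ℝ, 0 < θ → θ ≤ 1 →
            osc (fun x => V p (grad (fun x => u x • w) x)) 0 (θ * r)
              ≤ c * θ ^ α * osc (fun x => V p (grad (fun x => u x • w) x)) 0 r)) := by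
  have hp1 : 1 < p := by linarith
  obtain ⟨β, φ, ψ, hβ, hβ2, hA, hpi⟩ := exists_beta hp hp2
  have hP3 := hA.toP3 (by linarith) (by linarith) (by linarith) hpi rfl
  obtain ⟨F, Ap, hG⟩ := hP3.exists_G3
  refine ⟨β, u3 β F, hβ, hβ2, contDiff_u3 hβ hG.dF hG.cA, fun t ht x => u3_homog ht x, ?_, ?_⟩
  · -- symmetry
    intro x y hxy1 hxy2
    have e1 : ∀ x : E (1 + 2), ‖x‖ ^ 2 = |x 0| ^ 2 + (x 1 ^ 2 + x 2 ^ 2) := by
      intro x
      rw [EuclideanSpace.norm_sq_eq, Fin.sum_univ_three]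
      simp only [Real.norm_eq_abs, sq_abs]
      ring
    have e2 : ∀ x : E (1 + 2), ‖snL x‖ ^ 2 = x 1 ^ 2 + x 2 ^ 2 := by
      intro x
      rw [snL_apply, EuclideanSpace.norm_sq_eq, Fin.sum_univ_two]
      simp only [Real.norm_eq_abs, sq_abs]
      rfl
    have e3 : ‖x‖ = ‖y‖ := by
      have : ‖x‖ ^ 2 = ‖y‖ ^ 2 := by rw [e1, e1, hxy1, hxy2]
      exact (sq_eq_sq₀ (norm_nonneg _) (norm_nonneg _)).mp this
    unfold u3 BP.TT
    rw [e3, e2, e2, hxy2]
  · intro n w hw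
    have hph : IsPHarmonic p (h3 β F w) := pharm_h3 hp1 hβ hG hw
    have hhom : Homog β (h3 β F w) := by
      intro t ht x
      unfold h3
      rw [u3_homog ht, mul_smul]
    have hc := hph.1
    set G : E (1 + 2) → Mat n (1 + 2) := fun x => V p (grad (h3 β F w) x) with hGd
    have hGh : ∀ t : ℝ, 0 < t → ∀ x, G (t • x) = t ^ ((β - 1) * p / 2) • G x :=
      fun t ht x => V_homog hc hhom rfl ht x
    have hGc : Continuous G := (continuous_V (by linarith)).comp (continuous_grad hc)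
    have hγ : 0 < (β - 1) * p / 2 := by
      have : 0 < (β - 1) * p := mul_pos (by linarith) (by linarith)
      linarith
    have hγ1 : (β - 1) * p / 2 < 1 := by
      have : β - 1 < 2 / p := by linarith
      rw [lt_div_iff₀ (by linarith)] at this
      linarith
    have hx0 : (EuclideanSpace.single (0 : Fin (1 + 2)) (1 : ℝ) : E (1 + 2)) ≠ 0 := by
      rw [← norm_pos_iff]; simp
    have hG0 := V_ne_zero (p := p) (grad_ne hG hw hx0)
    refine ⟨hph, fun x hx => grad_ne hG hw hx, fun U hU h0 => ⟨?_, fun α hα => ?_⟩,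
      fun r hr => ⟨osc_pos hγ hGh hGc hG0 hr, fun θ hθ => osc_scale hGh hr hθ, fun α hα => ?_⟩⟩
    · rintro ⟨W, hW, hWG⟩
      exact no_c1 hγ hγ1 hGh hGc hG0 hU h0 hW hWG
    · rintro ⟨W, C, hW, hWG⟩
      exact no_holder hγ hGh hGc hG0 hU h0 hα hW hWG
    · rintro ⟨c, hcc⟩
      exact no_decay hγ hGh hGc hG0 hr hα c hcc

end Pool.Agent.H76.SC3
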