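import Pool.Agent.H76.SC3.Glob
import Pool.Agent.H76.BP.GeoZ
import Pool.Agent.H76.BP.GenD

/-!
# The map in `ℝ³`
-/

set_option autoImplicit false
open MeasureTheory Metric Filter Topology Set
open scoped ContDiff RealInnerProductSpace

namespace Pool.Agent.H76.SC3

open Pool.Agent.H76.PL (E Mat V A grad osc IsPHarmonic Homog ee er et norm_er er_zero er_one)
open Pool.Agent.H76.BP (fs sn fsL snL inner_split norm_sq_split snL_apply fsL_apply
  hasFDerivAt_norm_rpow contDiffOn_TT inner_grad_sum norm_fs_one)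

/-- homogeneous of degree `> 1` and `C¹` off the origin implies `C¹`. -/
lemma contDiff_of_homog' {d : ℕ} {X : Type*} [NormedAddCommGroup X] [NormedSpace ℝ X]
    {G : E d → X} {γ : ℝ} (hγ : 1 < γ)
    (hG : ∀ t : ℝ, 0 < t → ∀ x, G (t • x) = t ^ γ • G x) (hs : ∀ x, x ≠ 0 → ContDiffAt ℝ 1 G x) :
    ContDiff ℝ 1 G := by
  have hd : ∀ x, x ≠ 0 → HasFDerivAt G (fderiv ℝ G x) x := fun x hx =>
    ((hs x hx).differentiableAt (by simp)).hasFDerivAt
  have hG0 : G 0 = 0 := by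
    have h1 := hG 2 (by norm_num) 0
    rw [smul_zero] at h1
    have h2 : ((2 : ℝ) ^ γ - 1) • G 0 = 0 := by rw [sub_smul, one_smul, ← h1, sub_self]
    have h3 : 1 < (2 : ℝ) ^ γ := Real.one_lt_rpow (by norm_num) (by linarith)
    rcases smul_eq_zero.mp h2 with h | h
    · linarith
    · exact h
  have hdh : ∀ t : ℝ, 0 < t → ∀ x, x ≠ 0 → fderiv ℝ G (t • x) = t ^ (γ - 1) • fderiv ℝ G x := by
    intro t ht x hx
    have htx : t • x ≠ 0 := smul_ne_zero ht.ne' hx
    have h1 : HasFDerivAt (fun y : E d => G (t • y))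
        ((fderiv ℝ G (t • x)).comp (t • ContinuousLinearMap.id ℝ (E d))) x :=
      (hd _ htx).comp x ((hasFDerivAt_id x).const_smul t)
    have h2 : HasFDerivAt (fun y : E d => G (t • y)) (t ^ γ • fderiv ℝ G x) x := by
      have e : (fun y : E d => G (t • y)) = fun y => t ^ γ • G y := funext fun y => hG t ht y
      rw [e]
      exact (hd x hx).const_smul (t ^ γ)
    have h3 := h1.unique h2
    ext1 v
    have h4 := congrArg (fun L : E d →L[ℝ] X => L v) h3
    simp only [ContinuousLinearMap.comp_apply, smul_apply,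
      ContinuousLinearMap.id_apply, map_smul] at h4
    rw [smul_apply, Real.rpow_sub_one ht.ne', div_eq_inv_mul, mul_smul, ← h4,
      smul_smul, inv_mul_cancel₀ ht.ne', one_smul]
  -- bounds on the unit sphere
  have hsph : ∀ x ∈ sphere (0 : E d) 1, x ≠ 0 := by
    intro x hx h0
    rw [h0, mem_sphere_zero_iff_norm, norm_zero] at hx
    exact zero_ne_one hx
  obtain ⟨M, hM⟩ := (isCompact_sphere (0 : E d) 1).exists_bound_of_continuousOn
    (f := fderiv ℝ G) (fun x hx =>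
      ((hs x (hsph x hx)).continuousAt_fderiv (by simp)).continuousWithinAt)
  obtain ⟨M', hM'⟩ := (isCompact_sphere (0 : E d) 1).exists_bound_of_continuousOn
    (f := G) (fun x hx => (hs x (hsph x hx)).continuousAt.continuousWithinAt)
  have hb1 : ∀ x : E d, ‖G x‖ ≤ M' * ‖x‖ ^ γ := by
    intro x
    by_cases hx : x = 0
    · rw [hx, hG0, norm_zero, norm_zero, Real.zero_rpow (by linarith), mul_zero]
    · have hn : 0 < ‖x‖ := norm_pos_iff.mpr hx
      have h1 := hG ‖x‖ hn (‖x‖⁻¹ • x)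
      rw [smul_smul, mul_inv_cancel₀ hn.ne', one_smul] at h1
      rw [h1, norm_smul, Real.norm_of_nonneg (by positivity), mul_comm]
      gcongr
      apply hM'
      rw [mem_sphere_zero_iff_norm, norm_smul, norm_inv, norm_norm, inv_mul_cancel₀ hn.ne']
  have hb2 : ∀ x : E d, x ≠ 0 → ‖fderiv ℝ G x‖ ≤ M * ‖x‖ ^ (γ - 1) := by
    intro x hx
    have hn : 0 < ‖x‖ := norm_pos_iff.mpr hx
    have hx' : ‖x‖⁻¹ • x ≠ 0 := smul_ne_zero (inv_ne_zero hn.ne') hx
    have h1 := hdh ‖x‖ hn (‖x‖⁻¹ • x) hx'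
    rw [smul_smul, mul_inv_cancel₀ hn.ne', one_smul] at h1
    rw [h1, norm_smul, Real.norm_of_nonneg (by positivity), mul_comm]
    gcongr
    apply hM
    rw [mem_sphere_zero_iff_norm, norm_smul, norm_inv, norm_norm, inv_mul_cancel₀ hn.ne']
  -- differentiability at the origin
  have hlim : Tendsto (fun x : E d => ‖x‖ ^ (γ - 1)) (𝓝 0) (𝓝 0) := by
    have h1 : ContinuousAt (fun x : E d => ‖x‖ ^ (γ - 1)) 0 :=
      continuous_norm.continuousAt.rpow_const (Or.inr (by linarith))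
    have := h1.tendsto
    rwa [norm_zero, Real.zero_rpow (by linarith)] at this
  have hd0 : HasFDerivAt G (0 : E d →L[ℝ] X) 0 := by
    rw [hasFDerivAt_iff_tendsto]
    simp only [hG0, sub_zero, zero_apply]
    have h1 : ∀ x : E d, ‖‖x‖⁻¹ * ‖G x‖‖ ≤ |M'| * ‖x‖ ^ (γ - 1) := by
      intro x
      rw [Real.norm_of_nonneg (by positivity)]
      by_cases hx : x = 0
      · rw [hx, norm_zero, inv_zero, zero_mul, Real.zero_rpow (by linarith), mul_zero]
      · have hn : 0 < ‖x‖ := norm_pos_iff.mpr hx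
        rw [inv_mul_le_iff₀ hn]
        calc ‖G x‖ ≤ M' * ‖x‖ ^ γ := hb1 x
          _ ≤ |M'| * ‖x‖ ^ γ := by gcongr; exact le_abs_self _
          _ = ‖x‖ * (|M'| * ‖x‖ ^ (γ - 1)) := by
              rw [Real.rpow_sub_one hn.ne']; field_simp
    refine squeeze_zero_norm h1 ?_
    simpa using hlim.const_mul |M'|
  rw [contDiff_one_iff_fderiv]
  refine ⟨fun x => ?_, ?_⟩
  · by_cases hx : x = 0
    · rw [hx]; exact hd0.differentiableAt
    · exact (hd x hx).differentiableAt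
  · rw [continuous_iff_continuousAt]
    intro x
    by_cases hx : x = 0
    · rw [hx]
      show Tendsto _ _ _
      rw [hd0.fderiv]
      have h1 : ∀ x : E d, ‖fderiv ℝ G x‖ ≤ |M| * ‖x‖ ^ (γ - 1) := by
        intro x
        by_cases hx : x = 0
        · rw [hx, hd0.fderiv, norm_zero]; positivity
        · calc _ ≤ M * ‖x‖ ^ (γ - 1) := hb2 x hx
            _ ≤ _ := by gcongr; exact le_abs_self _
      refine squeeze_zero_norm h1 ?_
      simpa using hlim.const_mul |M|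
    · exact (hs x hx).continuousAt_fderiv (by simp)

/-- meridian half planes -/
noncomputable def pt (t : ℝ) : E 2 →L[ℝ] E (1 + 2) :=
  (EuclideanSpace.proj (0 : Fin 2) : E 2 →L[ℝ] ℝ).smulRight
    (EuclideanSpace.single (Fin.castAdd 2 (0 : Fin 1)) (1 : ℝ))
  + (EuclideanSpace.proj (1 : Fin 2) : E 2 →L[ℝ] ℝ).smulRight
    (Real.cos t • EuclideanSpace.single (Fin.natAdd 1 (0 : Fin 2)) (1 : ℝ)
      + Real.sin t • EuclideanSpace.single (Fin.natAdd 1 (1 : Fin 2)) (1 : ℝ))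

lemma fs_pt (t : ℝ) (z : E 2) : fs (pt t z) = EuclideanSpace.single 0 (z 0) := by
  ext l
  have hl : l = 0 := Subsingleton.elim _ _
  subst hl
  simp [pt]

lemma sn_pt (t : ℝ) (z : E 2) : sn (pt t z) = z 1 • er t := by
  ext l
  fin_cases l
  · simp [pt, er_zero]
  · simp [pt, er_one]

lemma inner_pt (t : ℝ) (z : E 2) (v : E (1 + 2)) :
    ⟪pt t z, v⟫ = z 0 * (fs v) 0 + z 1 * ⟪er t, sn v⟫ := by
  rw [inner_split, fs_pt, sn_pt, real_inner_smul_left, EuclideanSpace.inner_single_left]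
  simp

lemma norm_pt (t : ℝ) (z : E 2) : ‖pt t z‖ = ‖z‖ := by
  have h1 : ‖pt t z‖ ^ 2 = ‖z‖ ^ 2 := by
    rw [← real_inner_self_eq_norm_sq, inner_pt, fs_pt, sn_pt, real_inner_smul_right,
      real_inner_self_eq_norm_sq, norm_er, EuclideanSpace.norm_sq_eq, Fin.sum_univ_two]
    simp
    ring
  exact (sq_eq_sq₀ (norm_nonneg _) (norm_nonneg _)).mp h1

section
variable {n : ℕ} {β : ℝ} {F Ap : ℝ → ℝ}

/-- the function -/
noncomputable def u3 (β : ℝ) (F : ℝ → ℝ) (x : E (1 + 2)) : ℝ := ‖x‖ ^ β * F (BP.TT x)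

lemma TT_smul {t : ℝ} (ht : 0 < t) (x : E (1 + 2)) : BP.TT (t • x) = BP.TT x := by
  unfold BP.TT
  rw [map_smul, norm_smul, norm_smul, mul_pow, mul_pow]
  have : ‖t‖ ^ 2 ≠ 0 := by
    have : 0 < ‖t‖ := norm_pos_iff.mpr ht.ne'
    positivity
  exact mul_div_mul_left _ _ this

lemma u3_homog {t : ℝ} (ht : 0 < t) (x : E (1 + 2)) :
    u3 β F (t • x) = t ^ β * u3 β F x := by
  unfold u3
  rw [TT_smul ht, norm_smul, Real.norm_of_nonneg ht.le, Real.mul_rpow ht.le (norm_nonneg _)]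
  ring

lemma contDiff_F (hF : ∀ t, HasDerivAt F (Ap t) t) (hA : Continuous Ap) : ContDiff ℝ 1 F := by
  rw [contDiff_one_iff_deriv]
  refine ⟨fun t => (hF t).differentiableAt, ?_⟩
  have : deriv F = Ap := funext fun t => (hF t).deriv
  rw [this]
  exact hA

lemma contDiffAt_u3 (hF : ∀ t, HasDerivAt F (Ap t) t) (hA : Continuous Ap) {x : E (1 + 2)}
    (hx : x ≠ 0) : ContDiffAt ℝ 1 (u3 β F) x := by
  have h1 : ContDiffAt ℝ 1 (fun y : E (1 + 2) => ‖y‖ ^ β) x :=
    (contDiffAt_norm ℝ hx).rpow_const_of_ne (norm_ne_zero_iff.mpr hx)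
  have h2 : ContDiffAt ℝ 1 (BP.TT : E (1 + 2) → ℝ) x :=
    (contDiffOn_TT.contDiffAt (isOpen_compl_singleton.mem_nhds hx)).of_le
      (by exact_mod_cast le_top)
  exact h1.mul ((contDiff_F hF hA).contDiffAt.comp x h2)

lemma contDiff_u3 (hβ : 1 < β) (hF : ∀ t, HasDerivAt F (Ap t) t) (hA : Continuous Ap) :
    ContDiff ℝ 1 (u3 β F) :=
  contDiff_of_homog' hβ (fun t ht x => by rw [u3_homog ht, smul_eq_mul])
    fun x hx => contDiffAt_u3 hF hA hx

lemma hasFDerivAt_TT {x : E (1 + 2)} (hx : x ≠ 0) :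
    HasFDerivAt (BP.TT : E (1 + 2) → ℝ)
      ((‖x‖ ^ 2)⁻¹ • (((2 : ℝ) • innerSL ℝ (snL x)).comp snL)
        - (‖snL x‖ ^ 2 * ((‖x‖ ^ 2) ^ 2)⁻¹) • ((2 : ℝ) • innerSL ℝ x)) x := by
  have hn : 0 < ‖x‖ := norm_pos_iff.mpr hx
  have h1 : HasFDerivAt (fun y : E (1 + 2) => ‖snL y‖ ^ 2)
      (((2 : ℝ) • innerSL ℝ (snL x)).comp snL) x := by
    have := (hasStrictFDerivAt_norm_sq (snL x)).hasFDerivAt.comp x snL.hasFDerivAt
    refine this.congr_fderiv ?_
    ext v; simp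
  have h2 : HasFDerivAt (fun y : E (1 + 2) => ‖y‖ ^ 2) ((2 : ℝ) • innerSL ℝ x) x := by
    have := (hasStrictFDerivAt_norm_sq x).hasFDerivAt
    refine this.congr_fderiv ?_
    ext v; simp
  have h2' := (hasDerivAt_inv (show ‖x‖ ^ 2 ≠ 0 by positivity)).comp_hasFDerivAt x h2
  have := h1.mul h2'
  refine (this.congr_of_eventuallyEq (Eventually.of_forall fun y => ?_)).congr_fderiv ?_
  · simp [BP.TT, div_eq_mul_inv]
  · ext v
    simp
    ring

/-- the gradient, in polar coordinates -/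
noncomputable def Gv (β : ℝ) (F Ap : ℝ → ℝ) (R θ t : ℝ) : E (1 + 2) :=
  pt t ((R ^ (β - 1)) • ((β * fE F θ) • er θ + gE Ap θ • et θ))

lemma TT_pt {R : ℝ} (hR : 0 < R) (θ t : ℝ) : BP.TT (pt t (R • er θ)) = Real.sin θ ^ 2 := by
  unfold BP.TT
  rw [snL_apply, sn_pt, norm_pt, norm_smul, norm_er, norm_smul, norm_er, mul_one, mul_one,
    Real.norm_eq_abs, Real.norm_eq_abs, sq_abs, sq_abs]
  simp only [PiLp.smul_apply, smul_eq_mul, er_one]
  field_simp

lemma hasFDerivAt_u3 (hF : ∀ t, HasDerivAt F (Ap t) t) {R : ℝ} (hR : 0 < R) (θ t : ℝ) :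
    HasFDerivAt (u3 β F) (innerSL ℝ (Gv β F Ap R θ t)) (pt t (R • er θ)) := by
  set x := pt t (R • er θ) with hxd
  have hnx : ‖x‖ = R := by rw [hxd, norm_pt, norm_smul, norm_er, mul_one, Real.norm_of_nonneg hR.le]
  have hx : x ≠ 0 := by rw [← norm_pos_iff, hnx]; exact hR
  have h1 := (hasFDerivAt_norm_rpow β hx).mul ((hF (BP.TT x)).comp_hasFDerivAt x (hasFDerivAt_TT hx))
  refine h1.congr_fderiv ?_
  ext1 v
  have hTT : BP.TT x = Real.sin θ ^ 2 := TT_pt hR θ t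
  have hsx : sn x = (R * Real.sin θ) • er t := by
    rw [hxd, sn_pt]; simp [er_one]
  have e1 : ⟪x, v⟫ = R * Real.cos θ * (fs v) 0 + R * Real.sin θ * ⟪er t, sn v⟫ := by
    rw [hxd, inner_pt]; simp [er_zero, er_one]
  have e2 : ⟪sn x, sn v⟫ = R * Real.sin θ * ⟪er t, sn v⟫ := by
    rw [hsx, real_inner_smul_left]
  have e3 : ‖sn x‖ ^ 2 = R ^ 2 * Real.sin θ ^ 2 := by
    rw [hsx, norm_smul, norm_er, mul_one, Real.norm_eq_abs, sq_abs]; ring
  have e4 : ⟪Gv β F Ap R θ t, v⟫ = R ^ (β - 1) * ((β * fE F θ) * Real.cos θ - gE Ap θ * Real.sin θ)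
      * (fs v) 0 + R ^ (β - 1) * ((β * fE F θ) * Real.sin θ + gE Ap θ * Real.cos θ)
      * ⟪er t, sn v⟫ := by
    unfold Gv
    rw [inner_pt]
    simp [er, et]
    ring
  simp only [add_apply, smul_apply, sub_apply, innerSL_apply_apply, Function.comp_apply,
    ContinuousLinearMap.comp_apply, snL_apply, smul_eq_mul, Pi.smul_apply]
  rw [e4, e1, e2, e3, hTT, hnx]
  have hRβ : R ^ β = R ^ (β - 1) * R := by
    rw [← Real.rpow_add_one hR.ne']; congr 1; ring
  rw [hRβ]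
  unfold fE gE
  have hsc := Real.sin_sq_add_cos_sq θ
  generalize R ^ (β - 1) = P
  generalize Ap (Real.sin θ ^ 2) = a1
  generalize F (Real.sin θ ^ 2) = f1
  generalize (fs v) 0 = v0
  generalize ⟪er t, sn v⟫ = v1
  have hc2 : Real.cos θ ^ 2 = 1 - Real.sin θ ^ 2 := by linarith
  field_simp
  ring_nf
  rw [hc2]
  ring

end

section
variable {d n : ℕ}

lemma sum_basis (G : E d) : G = ∑ i, G i • EuclideanSpace.single i (1 : ℝ) := by
  ext j
  simp [Finset.sum_apply, Pi.single_apply]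

lemma inner_grad_scalar {u : E d → ℝ} {G x : E d} (w : E n)
    (hu : HasFDerivAt u (innerSL ℝ G) x) (φ : E d → E n) :
    ⟪grad (fun y => u y • w) x, grad φ x⟫ = ⟪w, fderiv ℝ φ x G⟫ := by
  rw [inner_grad_sum, (hu.smul_const w).fderiv]
  conv_rhs => rw [sum_basis G, map_sum, inner_sum]
  refine Finset.sum_congr rfl fun i _ => ?_
  simp only [ContinuousLinearMap.smulRight_apply, innerSL_apply_apply, map_smul,
    real_inner_smul_left, real_inner_smul_right, EuclideanSpace.inner_single_right]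
  simp

lemma norm_grad_scalar {u : E d → ℝ} {G x : E d} (w : E n)
    (hu : HasFDerivAt u (innerSL ℝ G) x) :
    ‖grad (fun y => u y • w) x‖ = ‖w‖ * ‖G‖ := by
  have h1 : ‖grad (fun y => u y • w) x‖ ^ 2 = (‖w‖ * ‖G‖) ^ 2 := by
    rw [← real_inner_self_eq_norm_sq, inner_grad_scalar w hu, (hu.smul_const w).fderiv]
    simp only [ContinuousLinearMap.smulRight_apply, innerSL_apply_apply, real_inner_smul_right,
      real_inner_self_eq_norm_sq]
    ring
  exact (sq_eq_sq₀ (norm_nonneg _) (by positivity)).mp h1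

end

end Pool.Agent.H76.SC3
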