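import Pool.Agent.H76.SC3.Map3

/-!
# The weak formulation in a meridian half plane
-/

set_option autoImplicit false
open MeasureTheory Metric Filter Topology Set
open scoped ContDiff RealInnerProductSpace

namespace Pool.Agent.H76.SC3

open Pool.Agent.H76.PL (E Mat V A grad osc IsPHarmonic Homog ee er et norm_er er_zero er_one
  integral_polar hasDerivAt_er continuous_er continuous_et)

lemma swap_cont {H : ℝ × ℝ → ℝ} (hH : Continuous H) (a b c d : ℝ) :
    ∫ x in a..b, ∫ y in c..d, H (x, y) = ∫ y in c..d, ∫ x in a..b, H (x, y) := by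
  apply intervalIntegral_intervalIntegral_swap (F := fun x y => H (x, y))
  have h1 : IntegrableOn H (uIcc a b ×ˢ uIcc c d) :=
    hH.continuousOn.integrableOn_compact (isCompact_uIcc.prod isCompact_uIcc)
  exact h1.mono_set (prod_mono uIoc_subset_uIcc uIoc_subset_uIcc)

section
variable {p β : ℝ} {F Ap : ℝ → ℝ}

/-- the weight times the profile -/
noncomputable def qE (p β : ℝ) (F Ap : ℝ → ℝ) (θ : ℝ) : ℝ :=
  Real.sin θ * (NE β F Ap θ ^ ((p - 2) / 2) * fE F θ)
/-- the flux -/
noncomputable def yE (p β : ℝ) (F Ap : ℝ → ℝ) (θ : ℝ) : ℝ :=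
  Real.sin θ * (NE β F Ap θ ^ ((p - 2) / 2) * gE Ap θ)

lemma G3.cW (h : G3 p β F Ap) : Continuous fun θ => NE β F Ap θ ^ ((p - 2) / 2) :=
  (continuous_NE h.dF h.cA).rpow_const fun θ => Or.inl (h.N θ).ne'

lemma G3.cq (h : G3 p β F Ap) : Continuous (qE p β F Ap) := by
  unfold qE
  exact Real.continuous_sin.mul (h.cW.mul (continuous_fE h.dF))

lemma G3.cy (h : G3 p β F Ap) : Continuous (yE p β F Ap) := by
  unfold yE
  exact Real.continuous_sin.mul (h.cW.mul (continuous_gE h.cA))

lemma G3.parts (h : G3 p β F Ap) {u u' : ℝ → ℝ} (hu : ∀ θ, HasDerivAt u (u' θ) θ)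
    (hu' : Continuous u') :
    ∫ θ in (0 : ℝ)..Real.pi, yE p β F Ap θ * u' θ
      = (β * ((p - 1) * β + 2 - (p - 1))) * ∫ θ in (0 : ℝ)..Real.pi, qE p β F Ap θ * u θ := by
  have hq := h.cq
  have hy := h.cy
  have huc : Continuous u := continuous_iff_continuousAt.mpr fun θ => (hu θ).continuousAt
  have h1 : ∫ θ in (0 : ℝ)..Real.pi, (-(β * ((p - 1) * β + 2 - (p - 1)) * qE p β F Ap θ) * u θ
      + yE p β F Ap θ * u' θ) = yE p β F Ap Real.pi * u Real.pi - yE p β F Ap 0 * u 0 := by
    apply integral_eq_of_hasDerivAt_off_countable_of_le (fun θ => yE p β F Ap θ * u θ) _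
      Real.pi_pos.le (s := {Real.pi / 2}) (countable_singleton _)
    · exact (hy.mul huc).continuousOn
    · intro θ hθ
      exact (h.y θ hθ).mul (hu θ)
    · apply Continuous.intervalIntegrable
      fun_prop
  have e0 : yE p β F Ap 0 = 0 := by unfold yE; simp
  have e1 : yE p β F Ap Real.pi = 0 := by unfold yE; simp
  rw [e0, e1, zero_mul, zero_mul, sub_zero, intervalIntegral.integral_add] at h1
  · have h2 : ∫ θ in (0 : ℝ)..Real.pi, -(β * ((p - 1) * β + 2 - (p - 1)) * qE p β F Ap θ) * u θ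
        = -((β * ((p - 1) * β + 2 - (p - 1)))
          * ∫ θ in (0 : ℝ)..Real.pi, qE p β F Ap θ * u θ) := by
      rw [← intervalIntegral.integral_const_mul, ← intervalIntegral.integral_neg]
      congr 1
      ext θ
      ring
    rw [h2] at h1
    linarith
  · apply Continuous.intervalIntegrable; fun_prop
  · apply Continuous.intervalIntegrable; fun_prop

/-- the weak formulation in polar coordinates of a half plane -/
lemma G3.planar (h : G3 p β F Ap) {s M : ℝ} (hs : 0 < s) (hM : 0 < M)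
    (hsβ : s + 1 = (p - 1) * β + 2 - (p - 1))
    {Ψ ΨR ΨT : ℝ × ℝ → ℝ} (c0 : Continuous Ψ) (cR : Continuous ΨR) (cT : Continuous ΨT)
    (dR : ∀ R θ, HasDerivAt (fun R => Ψ (R, θ)) (ΨR (R, θ)) R)
    (dT : ∀ R θ, HasDerivAt (fun θ => Ψ (R, θ)) (ΨT (R, θ)) θ)
    (hz : ∀ θ, Ψ (M, θ) = 0) :
    ∫ R in (0 : ℝ)..M, ∫ θ in (0 : ℝ)..Real.pi, (β * qE p β F Ap θ * (R ^ (s + 1) * ΨR (R, θ))
      + yE p β F Ap θ * (R ^ s * ΨT (R, θ))) = 0 := by
  have hq := h.cq
  have hy := h.cy
  have cs : Continuous fun R : ℝ => R ^ s := Real.continuous_rpow_const hs.le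
  have cs1 : Continuous fun R : ℝ => R ^ (s + 1) := Real.continuous_rpow_const (by linarith)
  -- splitting
  have hc1 : Continuous fun z : ℝ × ℝ => β * qE p β F Ap z.2 * (z.1 ^ (s + 1) * ΨR z) := by
    have h1 := cs1.comp (continuous_fst (X := ℝ) (Y := ℝ))
    have h2 := hq.comp (continuous_snd (X := ℝ) (Y := ℝ))
    simp only [Function.comp_def] at h1 h2
    fun_prop
  have hc2 : Continuous fun z : ℝ × ℝ => yE p β F Ap z.2 * (z.1 ^ s * ΨT z) := by
    have h1 := cs.comp (continuous_fst (X := ℝ) (Y := ℝ))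
    have h2 := hy.comp (continuous_snd (X := ℝ) (Y := ℝ))
    simp only [Function.comp_def] at h1 h2
    fun_prop
  have hc3 : Continuous fun z : ℝ × ℝ => qE p β F Ap z.2 * (z.1 ^ s * Ψ z) := by
    have h1 := cs.comp (continuous_fst (X := ℝ) (Y := ℝ))
    have h2 := hq.comp (continuous_snd (X := ℝ) (Y := ℝ))
    simp only [Function.comp_def] at h1 h2
    fun_prop
  have hsplit : ∫ R in (0 : ℝ)..M, ∫ θ in (0 : ℝ)..Real.pi,
      (β * qE p β F Ap θ * (R ^ (s + 1) * ΨR (R, θ)) + yE p β F Ap θ * (R ^ s * ΨT (R, θ)))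
      = (∫ R in (0 : ℝ)..M, ∫ θ in (0 : ℝ)..Real.pi,
          β * qE p β F Ap θ * (R ^ (s + 1) * ΨR (R, θ)))
        + ∫ R in (0 : ℝ)..M, ∫ θ in (0 : ℝ)..Real.pi, yE p β F Ap θ * (R ^ s * ΨT (R, θ)) := by
    rw [← intervalIntegral.integral_add]
    · congr 1
      ext R
      rw [← intervalIntegral.integral_add]
      · exact (hc1.comp (Continuous.prodMk_right R)).intervalIntegrable _ _
      · exact (hc2.comp (Continuous.prodMk_right R)).intervalIntegrable _ _
    · apply Continuous.intervalIntegrable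
      exact intervalIntegral.continuous_parametric_intervalIntegral_of_continuous' hc1 _ _
    · apply Continuous.intervalIntegrable
      exact intervalIntegral.continuous_parametric_intervalIntegral_of_continuous' hc2 _ _
  rw [hsplit]
  -- the first term
  have hJ : ∀ θ, ∫ R in (0 : ℝ)..M, R ^ (s + 1) * ΨR (R, θ)
      = -((s + 1) * ∫ R in (0 : ℝ)..M, R ^ s * Ψ (R, θ)) := by
    intro θ
    have i1 : Continuous fun R : ℝ => ΨR (R, θ) := cR.comp (Continuous.prodMk_left θ)
    have i2 : Continuous fun R : ℝ => Ψ (R, θ) := c0.comp (Continuous.prodMk_left θ)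
    have h1 : ∫ R in (0 : ℝ)..M, ((s + 1) * R ^ s * Ψ (R, θ) + R ^ (s + 1) * ΨR (R, θ))
        = M ^ (s + 1) * Ψ (M, θ) - (0 : ℝ) ^ (s + 1) * Ψ (0, θ) := by
      apply intervalIntegral.integral_eq_sub_of_hasDerivAt
        (f := fun R => R ^ (s + 1) * Ψ (R, θ))
      · intro R _
        have h2 := (Real.hasDerivAt_rpow_const (x := R) (p := s + 1)
          (Or.inr (by linarith))).mul (dR R θ)
        refine h2.congr_deriv ?_
        rw [add_sub_cancel_right]
      · apply Continuous.intervalIntegrable; fun_prop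
    rw [hz, Real.zero_rpow (by linarith), mul_zero, zero_mul, sub_zero,
      intervalIntegral.integral_add] at h1
    · have h3 : ∫ R in (0 : ℝ)..M, (s + 1) * R ^ s * Ψ (R, θ)
          = (s + 1) * ∫ R in (0 : ℝ)..M, R ^ s * Ψ (R, θ) := by
        rw [← intervalIntegral.integral_const_mul]
        congr 1
        ext R
        ring
      rw [h3] at h1
      linarith
    · apply Continuous.intervalIntegrable; fun_prop
    · apply Continuous.intervalIntegrable; fun_prop
  have hI1 : ∫ R in (0 : ℝ)..M, ∫ θ in (0 : ℝ)..Real.pi,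
      β * qE p β F Ap θ * (R ^ (s + 1) * ΨR (R, θ))
      = -(β * (s + 1)) * ∫ θ in (0 : ℝ)..Real.pi, ∫ R in (0 : ℝ)..M,
        qE p β F Ap θ * (R ^ s * Ψ (R, θ)) := by
    rw [swap_cont hc1, ← intervalIntegral.integral_const_mul]
    congr 1
    ext θ
    simp only
    rw [intervalIntegral.integral_const_mul, intervalIntegral.integral_const_mul, hJ]
    ring
  have hI2 : ∫ R in (0 : ℝ)..M, ∫ θ in (0 : ℝ)..Real.pi, yE p β F Ap θ * (R ^ s * ΨT (R, θ))
      = (β * ((p - 1) * β + 2 - (p - 1))) * ∫ θ in (0 : ℝ)..Real.pi, ∫ R in (0 : ℝ)..M,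
        qE p β F Ap θ * (R ^ s * Ψ (R, θ)) := by
    rw [← swap_cont hc3, ← intervalIntegral.integral_const_mul]
    congr 1
    ext R
    have i1 : Continuous fun θ : ℝ => ΨT (R, θ) := cT.comp (Continuous.prodMk_right R)
    have h1 := h.parts (u := fun θ => R ^ s * Ψ (R, θ)) (u' := fun θ => R ^ s * ΨT (R, θ))
      (fun θ => (dT R θ).const_mul _) (by fun_prop)
    exact h1
  rw [hI1, hI2, hsβ]
  ring

end

end Pool.Agent.H76.SC3
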