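import Pool.Agent.H76.SC3.Bar

/-!
# The profile
-/

set_option autoImplicit false
open Filter Topology Set MeasureTheory

namespace Pool.Agent.H76.SC3

/-- profiles on the quarter circle -/
structure P3 (p β : ℝ) (f f1 a : ℝ → ℝ) : Prop where
  cf : ContinuousOn f (Icc 0 (Real.pi / 2))
  cf1 : ContinuousOn f1 (Icc 0 (Real.pi / 2))
  ca : ContinuousOn a (Icc 0 (Real.pi / 2))
  df : ∀ θ ∈ Ioo 0 (Real.pi / 2), HasDerivAt f (f1 θ) θ
  hN : ∀ θ ∈ Icc 0 (Real.pi / 2), 0 < β ^ 2 * f θ ^ 2 + f1 θ ^ 2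
  hy : ∀ θ ∈ Ioo 0 (Real.pi / 2), HasDerivAt
    (fun s => Real.sin s * ((β ^ 2 * f s ^ 2 + f1 s ^ 2) ^ ((p - 2) / 2) * f1 s))
    (-(β * ((p - 1) * β + 2 - (p - 1)) * (Real.sin θ
      * ((β ^ 2 * f θ ^ 2 + f1 θ ^ 2) ^ ((p - 2) / 2) * f θ)))) θ
  ha : ∀ θ ∈ Icc 0 (Real.pi / 2), f1 θ = 2 * Real.sin θ * Real.cos θ * a θ

section
variable {μ β : ℝ} {φ ψ : ℝ → ℝ}

/-- `cot θ sin φ`, extended -/
noncomputable def cs (φ ψ : ℝ → ℝ) (θ : ℝ) : ℝ :=
  Real.cos θ * (ψ θ * Real.sinc (φ θ) / Real.sinc θ)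

/-- the logarithmic derivative of the modulus -/
noncomputable def gq (μ β : ℝ) (φ ψ : ℝ → ℝ) (θ : ℝ) : ℝ :=
  Real.sin (φ θ) * ((β * μ + 2 - μ - β) * Real.cos (φ θ) - cs φ ψ θ) / Dn μ (φ θ)

lemma cs_eq (h : AngSol μ β φ ψ) {θ : ℝ} (hθ : θ ∈ Ioc 0 (Real.pi / 2)) :
    cs φ ψ θ = Real.cos θ / Real.sin θ * Real.sin (φ θ) := by
  have hθI : θ ∈ Icc 0 (Real.pi / 2) := ⟨hθ.1.le, hθ.2⟩
  have hψ := h.pos θ hθI
  have he := h.eq θ hθI
  have hφ : φ θ ≠ 0 := by rw [he]; exact (mul_pos hθ.1 hψ).ne'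
  have hs : 0 < Real.sin θ := Real.sin_pos_of_pos_of_lt_pi hθ.1 (by linarith [hθ.2, Real.pi_pos])
  unfold cs
  rw [Real.sinc_of_ne_zero hφ, Real.sinc_of_ne_zero hθ.1.ne']
  have : ψ θ = φ θ / θ := by rw [he]; have := hθ.1.ne'; field_simp
  rw [this]
  have := hθ.1.ne'
  field_simp

lemma cs_cont (h : AngSol μ β φ ψ) : ContinuousOn (cs φ ψ) (Icc 0 (Real.pi / 2)) := by
  have h1 := h.cont
  have h2 := Real.continuous_sinc
  unfold cs
  refine Real.continuous_cos.continuousOn.mul (ContinuousOn.div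
    (h.cψ.continuousOn.mul (h2.comp_continuousOn h1)) h2.continuousOn fun t ht => ?_)
  exact (sinc_pos ht).ne'

lemma gq_cont (hμ : 0 < μ) (hμ1 : μ ≤ 1) (h : AngSol μ β φ ψ) :
    ContinuousOn (gq μ β φ ψ) (Icc 0 (Real.pi / 2)) := by
  have h1 := h.cont
  unfold gq
  refine ContinuousOn.div ?_ (continuous_Dn.comp_continuousOn h1) fun t _ => (Dn_pos hμ hμ1 _).ne'
  exact (Real.continuous_sin.comp_continuousOn h1).mul
    ((continuousOn_const.mul (Real.continuous_cos.comp_continuousOn h1)).sub (cs_cont h))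

/-- the logarithm of the modulus -/
noncomputable def Jq (μ β : ℝ) (φ ψ : ℝ → ℝ) (θ : ℝ) : ℝ :=
  ∫ s in (0 : ℝ)..θ, gq μ β φ ψ (cl 0 (Real.pi / 2) s)

lemma hasDerivAt_Jq (hμ : 0 < μ) (hμ1 : μ ≤ 1) (h : AngSol μ β φ ψ) (θ : ℝ) :
    HasDerivAt (Jq μ β φ ψ) (gq μ β φ ψ (cl 0 (Real.pi / 2) θ)) θ := by
  have hc : Continuous fun s : ℝ => gq μ β φ ψ (cl 0 (Real.pi / 2) s) :=
    (gq_cont hμ hμ1 h).comp_continuous continuous_cl fun s => cl_mem hpi2 s
  exact intervalIntegral.integral_hasDerivAt_right (hc.intervalIntegrable _ _)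
    (hc.stronglyMeasurableAtFilter _ _) hc.continuousAt

/-- the profile -/
noncomputable def fq (μ β : ℝ) (φ ψ : ℝ → ℝ) (θ : ℝ) : ℝ :=
  Real.exp (Jq μ β φ ψ θ) * Real.cos (φ θ) / β
/-- its derivative -/
noncomputable def fq1 (μ β : ℝ) (φ ψ : ℝ → ℝ) (θ : ℝ) : ℝ :=
  -(Real.exp (Jq μ β φ ψ θ) * Real.sin (φ θ))
/-- the quotient -/
noncomputable def aq (μ β : ℝ) (φ ψ : ℝ → ℝ) (θ : ℝ) : ℝ :=
  if θ < Real.pi / 2 then -(Real.exp (Jq μ β φ ψ θ) * (ψ θ * Real.sinc (φ θ) / Real.sinc θ))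
    / (2 * Real.cos θ)
  else -(Real.exp (Jq μ β φ ψ θ) * (β * μ + 2 - μ) / 2)

lemma Dn_eq (φ : ℝ) : Dn μ φ = Real.cos φ ^ 2 + μ * Real.sin φ ^ 2 := rfl

theorem AngSol.toP3 (hμ : 0 < μ) (hμ1 : μ ≤ 1) (hβ : 0 < β) (h : AngSol μ β φ ψ)
    (hpi : φ (Real.pi / 2) = Real.pi) {p : ℝ} (hp : μ = p - 1) :
    P3 p β (fq μ β φ ψ) (fq1 μ β φ ψ) (aq μ β φ ψ) := by
  have hJ := fun θ => hasDerivAt_Jq hμ hμ1 h θ
  have hJc : Continuous (Jq μ β φ ψ) := continuous_iff_continuousAt.mpr fun θ => (hJ θ).continuousAt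
  have hφc := h.cont
  have hsq : ∀ θ, β ^ 2 * fq μ β φ ψ θ ^ 2 + fq1 μ β φ ψ θ ^ 2
      = Real.exp (2 * Jq μ β φ ψ θ) := by
    intro θ
    unfold fq fq1
    have e := Real.sin_sq_add_cos_sq (φ θ)
    have e1 : Real.exp (2 * Jq μ β φ ψ θ) = Real.exp (Jq μ β φ ψ θ) ^ 2 := by
      rw [← Real.exp_nat_mul]; norm_num
    rw [e1]
    have : β ^ 2 * (Real.exp (Jq μ β φ ψ θ) * Real.cos (φ θ) / β) ^ 2
        = Real.exp (Jq μ β φ ψ θ) ^ 2 * Real.cos (φ θ) ^ 2 := by field_simp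
    rw [this]
    linear_combination Real.exp (Jq μ β φ ψ θ) ^ 2 * e
  have hW : ∀ θ, (β ^ 2 * fq μ β φ ψ θ ^ 2 + fq1 μ β φ ψ θ ^ 2) ^ ((p - 2) / 2)
      = Real.exp ((μ - 1) * Jq μ β φ ψ θ) := by
    intro θ
    rw [hsq, ← Real.exp_mul, hp]
    congr 1
    ring
  have hφd : ∀ θ ∈ Ioc 0 (Real.pi / 2), HasDerivAt φ (Gn μ β θ (φ θ)) θ := h.d
  have hsinp : ∀ θ ∈ Ioc 0 (Real.pi / 2), 0 < Real.sin θ := fun θ hθ =>
    Real.sin_pos_of_pos_of_lt_pi hθ.1 (by linarith [hθ.2, Real.pi_pos])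
  refine { cf := ?_, cf1 := ?_, ca := ?_, df := ?_, hN := ?_, hy := ?_, ha := ?_ }
  · unfold fq
    exact ((Real.continuous_exp.comp hJc).continuousOn.mul
      (Real.continuous_cos.comp_continuousOn hφc)).div_const _
  · unfold fq1
    exact ((Real.continuous_exp.comp hJc).continuousOn.mul
      (Real.continuous_sin.comp_continuousOn hφc)).neg
  · -- continuity of the quotient
    have hc1 : ContinuousOn (fun θ => -(Real.exp (Jq μ β φ ψ θ)
        * (ψ θ * Real.sinc (φ θ) / Real.sinc θ)) / (2 * Real.cos θ)) (Ico 0 (Real.pi / 2)) := by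
      have hφc' := hφc.mono Ico_subset_Icc_self
      refine ContinuousOn.div (((Real.continuous_exp.comp hJc).continuousOn.mul ?_).neg) ?_
        fun θ hθ => ?_
      · refine ContinuousOn.div (h.cψ.continuousOn.mul
          (Real.continuous_sinc.comp_continuousOn hφc')) Real.continuous_sinc.continuousOn
          fun t ht => (sinc_pos ⟨ht.1, ht.2.le⟩).ne'
      · fun_prop
      · have : 0 < Real.cos θ := Real.cos_pos_of_mem_Ioo ⟨by linarith [hθ.1, Real.pi_pos], hθ.2⟩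
        positivity
    intro t ht
    rcases eq_or_lt_of_le ht.2 with h1 | h1
    · subst h1
      have h2 : ContinuousWithinAt (aq μ β φ ψ) (Iio (Real.pi / 2)) (Real.pi / 2) := by
        have hpm : Real.pi / 2 ∈ Ioc 0 (Real.pi / 2) := ⟨by positivity, le_refl _⟩
        have hd1 : HasDerivAt (fun θ => Real.sin (φ θ)) (-(β * μ + 2 - μ)) (Real.pi / 2) := by
          have := (hφd _ hpm).sin
          refine this.congr_deriv ?_
          rw [hpi]
          unfold Gn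
          rw [Pn_pi, Sn_pi, Real.cos_pi]
          ring
        have hd2 : HasDerivAt Real.cos (-1) (Real.pi / 2) := by
          have := Real.hasDerivAt_cos (Real.pi / 2)
          rwa [Real.sin_pi_div_two] at this
        have s1 := (hasDerivWithinAt_iff_tendsto_slope' (s := Iio (Real.pi / 2)) (by simp)).mp
          hd1.hasDerivWithinAt
        have s2 := (hasDerivWithinAt_iff_tendsto_slope' (s := Iio (Real.pi / 2)) (by simp)).mp
          hd2.hasDerivWithinAt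
        have s3 := s1.div s2 (by norm_num)
        have e3 : -(β * μ + 2 - μ) / -1 = β * μ + 2 - μ := by ring
        rw [e3] at s3
        have s4 : Tendsto (fun θ => Real.exp (Jq μ β φ ψ θ)) (𝓝[<] (Real.pi / 2))
            (𝓝 (Real.exp (Jq μ β φ ψ (Real.pi / 2)))) :=
          (Real.continuous_exp.comp hJc).continuousAt.tendsto.mono_left nhdsWithin_le_nhds
        have s5 : Tendsto Real.sin (𝓝[<] (Real.pi / 2)) (𝓝 1) := by
          have := (Real.continuous_sin.continuousAt (x := Real.pi / 2)).tendsto.mono_left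
            (nhdsWithin_le_nhds (s := Iio (Real.pi / 2)))
          rwa [Real.sin_pi_div_two] at this
        have s6 := ((s4.mul s3).div (s5.const_mul 2) (by norm_num)).neg
        unfold ContinuousWithinAt
        have e4 : aq μ β φ ψ (Real.pi / 2) = -(Real.exp (Jq μ β φ ψ (Real.pi / 2))
            * (β * μ + 2 - μ) / (2 * 1)) := by
          unfold aq; rw [if_neg (lt_irrefl _), mul_one]
        rw [e4]
        refine s6.congr' ?_
        filter_upwards [Ioo_mem_nhdsLT (by positivity : (0 : ℝ) < Real.pi / 2)] with θ hθ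
        have hθ' : θ ∈ Ioc 0 (Real.pi / 2) := ⟨hθ.1, hθ.2.le⟩
        have hs := hsinp θ hθ'
        have hc : 0 < Real.cos θ := Real.cos_pos_of_mem_Ioo ⟨by linarith [hθ.1, Real.pi_pos], hθ.2⟩
        have hcs := cs_eq h hθ'
        unfold cs at hcs
        unfold aq
        rw [if_pos hθ.2]
        simp only [Pi.div_apply, slope_def_field]
        rw [hpi, Real.sin_pi, Real.cos_pi_div_two, sub_zero, sub_zero]
        have hne : θ - Real.pi / 2 ≠ 0 := by linarith [hθ.2]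
        have e5 : ψ θ * Real.sinc (φ θ) / Real.sinc θ = Real.sin (φ θ) / Real.sin θ := by
          have : Real.cos θ * (ψ θ * Real.sinc (φ θ) / Real.sinc θ)
              = Real.cos θ * (Real.sin (φ θ) / Real.sin θ) := by rw [hcs]; ring
          exact mul_left_cancel₀ hc.ne' this
        rw [e5]
        have hne2 : θ * 2 - Real.pi ≠ 0 := by linarith [hθ.2]
        field_simp
      have h3 : ContinuousWithinAt (aq μ β φ ψ) (Iic (Real.pi / 2)) (Real.pi / 2) := by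
        rw [← Iio_insert]; exact h2.insert
      exact h3.mono Icc_subset_Iic_self
    · have h2 : ContinuousWithinAt (aq μ β φ ψ) (Ico 0 (Real.pi / 2)) t := by
        refine (hc1 t ⟨ht.1, h1⟩).congr (fun s hs => ?_) ?_
        · unfold aq; rw [if_pos hs.2]
        · unfold aq; rw [if_pos h1]
      refine h2.mono_of_mem_nhdsWithin ?_
      have : Ico 0 (Real.pi / 2) = Icc 0 (Real.pi / 2) ∩ Iio (Real.pi / 2) := by
        ext s
        constructor
        · exact fun hs => ⟨⟨hs.1, hs.2.le⟩, hs.2⟩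
        · exact fun hs => ⟨hs.1.1, hs.2⟩
      rw [this]
      exact inter_mem self_mem_nhdsWithin (mem_nhdsWithin_of_mem_nhds (Iio_mem_nhds h1))
  · -- derivative of the profile
    intro θ hθ
    have hθ' : θ ∈ Ioc 0 (Real.pi / 2) := ⟨hθ.1, hθ.2.le⟩
    have hD := Dn_pos hμ hμ1 (φ θ)
    have hj := hJ θ
    rw [cl_eq (⟨hθ.1.le, hθ.2.le⟩ : θ ∈ Icc 0 (Real.pi / 2))] at hj
    have h1 := ((hj.exp).mul (hφd θ hθ').cos).div_const β
    refine h1.congr_deriv ?_
    unfold fq1 gq Gn Pn Sn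
    rw [cs_eq h hθ']
    have e := Real.sin_sq_add_cos_sq (φ θ)
    have hDe := Dn_eq (μ := μ) (φ θ)
    generalize Real.cos θ / Real.sin θ = t
    have e2 : Real.cos (φ θ) ^ 2 = 1 - Real.sin (φ θ) ^ 2 := by linarith
    field_simp
    rw [hDe]
    linear_combination (Real.sin (φ θ) * β * μ) * e
  · intro θ _
    rw [hsq]; exact Real.exp_pos _
  · -- the flux
    intro θ hθ
    have hθ' : θ ∈ Ioc 0 (Real.pi / 2) := ⟨hθ.1, hθ.2.le⟩
    have hD := Dn_pos hμ hμ1 (φ θ)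
    have hs := hsinp θ hθ'
    have hj := hJ θ
    rw [cl_eq (⟨hθ.1.le, hθ.2.le⟩ : θ ∈ Icc 0 (Real.pi / 2))] at hj
    have hfun : (fun s => Real.sin s * ((β ^ 2 * fq μ β φ ψ s ^ 2 + fq1 μ β φ ψ s ^ 2)
        ^ ((p - 2) / 2) * fq1 μ β φ ψ s))
        = fun s => -(Real.sin s * (Real.exp (μ * Jq μ β φ ψ s) * Real.sin (φ s))) := by
      ext s
      rw [hW]
      unfold fq1
      have : Real.exp (μ * Jq μ β φ ψ s)
          = Real.exp ((μ - 1) * Jq μ β φ ψ s) * Real.exp (Jq μ β φ ψ s) := by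
        rw [← Real.exp_add]; congr 1; ring
      rw [this]
      ring
    rw [hfun, hW]
    have h1 := ((Real.hasDerivAt_sin θ).mul (((hj.const_mul μ).exp).mul (hφd θ hθ').sin)).neg
    refine h1.congr_deriv ?_
    have e0 : Real.exp ((μ - 1) * Jq μ β φ ψ θ) * fq μ β φ ψ θ
        = Real.exp (μ * Jq μ β φ ψ θ) * Real.cos (φ θ) / β := by
      unfold fq
      have : Real.exp (μ * Jq μ β φ ψ θ)
          = Real.exp ((μ - 1) * Jq μ β φ ψ θ) * Real.exp (Jq μ β φ ψ θ) := by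
        rw [← Real.exp_add]; congr 1; ring
      rw [this]
      ring
    rw [e0, ← hp]
    unfold gq Gn Pn Sn
    rw [cs_eq h hθ']
    have e := Real.sin_sq_add_cos_sq (φ θ)
    have hDe := Dn_eq (μ := μ) (φ θ)
    simp only [Pi.mul_apply]
    obtain ⟨t, ht⟩ : ∃ t, t = Real.cos θ / Real.sin θ := ⟨_, rfl⟩
    have ht' : Real.cos θ = t * Real.sin θ := by rw [ht]; field_simp
    rw [← ht, ht']
    generalize Real.exp (μ * Jq μ β φ ψ θ) = ex
    field_simp
    rw [hDe]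
    linear_combination (ex * Real.cos (φ θ) * β * μ) * e
  · -- the quotient
    intro θ hθ
    rcases eq_or_lt_of_le hθ.2 with h1 | h1
    · rw [h1]
      unfold fq1
      rw [hpi, Real.sin_pi, Real.cos_pi_div_two]
      simp
    · unfold fq1 aq
      rw [if_pos h1]
      have hc : 0 < Real.cos θ := Real.cos_pos_of_mem_Ioo ⟨by linarith [hθ.1, Real.pi_pos], h1⟩
      rcases eq_or_lt_of_le hθ.1 with h0 | h0
      · rw [← h0, h.eq 0 ⟨le_refl _, hpi2⟩]
        simp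
      · have hθ' : θ ∈ Ioc 0 (Real.pi / 2) := ⟨h0, h1.le⟩
        have hs := hsinp θ hθ'
        have hcs := cs_eq h hθ'
        unfold cs at hcs
        have e5 : ψ θ * Real.sinc (φ θ) / Real.sinc θ = Real.sin (φ θ) / Real.sin θ := by
          have : Real.cos θ * (ψ θ * Real.sinc (φ θ) / Real.sinc θ)
              = Real.cos θ * (Real.sin (φ θ) / Real.sin θ) := by rw [hcs]; ring
          exact mul_left_cancel₀ hc.ne' this
        rw [e5]
        field_simp

end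

end Pool.Agent.H76.SC3
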