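import Pool.Agent.H76.SC3.Ang

/-!
# Solutions of the angle equation, regular at the pole
-/

set_option autoImplicit false
open Filter Topology Set MeasureTheory

namespace Pool.Agent.H76.SC3

/-- the right hand side -/
noncomputable def Gn (μ β θ φ : ℝ) : ℝ := Pn μ β φ - Real.cos θ / Real.sin θ * Sn μ φ

/-- solutions of the angle equation, regular at the pole -/
structure AngSol (μ β : ℝ) (φ ψ : ℝ → ℝ) : Prop where
  cψ : Continuous ψ
  pos : ∀ θ ∈ Icc 0 (Real.pi / 2), 0 < ψ θ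
  eq : ∀ θ ∈ Icc 0 (Real.pi / 2), φ θ = θ * ψ θ
  d : ∀ θ ∈ Ioc 0 (Real.pi / 2), HasDerivAt φ (Gn μ β θ (φ θ)) θ

section
variable {μ β K : ℝ}

/-- the primitive -/
noncomputable def Ip (μ K β : ℝ) (ψ : ℝ → ℝ) (θ : ℝ) : ℝ := ∫ s in (0 : ℝ)..θ, s * Fn μ K β s (ψ s)

lemma hasDerivAt_Ip (hμ : 0 < μ) (hμ1 : μ ≤ 1) {ψ : ℝ → ℝ} (hψ : Continuous ψ) (θ : ℝ) :
    HasDerivAt (Ip μ K β ψ) (θ * Fn μ K β θ (ψ θ)) θ := by
  have hp : Continuous fun s : ℝ => ((s, ψ s) : ℝ × ℝ) := continuous_id.prodMk hψ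
  have hF : Continuous fun s : ℝ => Fn μ K β s (ψ s) := by
    have h := (Fn_cont (μ := μ) (β := β) (K := K) hμ hμ1).comp hp
    simpa only [Function.comp_def] using h
  have hc : Continuous fun s : ℝ => s * Fn μ K β s (ψ s) := continuous_id.mul hF
  exact intervalIntegral.integral_hasDerivAt_right (hc.intervalIntegrable _ _)
    (hc.stronglyMeasurableAtFilter _ _) hc.continuousAt

lemma Ip_eq {ψ : ℝ → ℝ} (h : IsSol (Real.pi / 2) (Fn μ K β) ψ) {θ : ℝ}
    (hθ : θ ∈ Icc 0 (Real.pi / 2)) : Ip μ K β ψ θ = θ ^ 2 * ψ θ := by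
  rcases eq_or_lt_of_le hθ.1 with h0 | h0
  · rw [← h0]; unfold Ip; simp
  · rw [h θ hθ]
    have h1 := intervalIntegral.integral_comp_mul_left (a := 0) (b := 1)
      (fun s => s * Fn μ K β s (ψ s)) h0.ne'
    have h2 : ∫ τ in (0 : ℝ)..1, τ * Fn μ K β (θ * τ) (ψ (θ * τ))
        = θ⁻¹ * ∫ τ in (0 : ℝ)..1, θ * τ * Fn μ K β (θ * τ) (ψ (θ * τ)) := by
      rw [← intervalIntegral.integral_const_mul]
      apply intervalIntegral.integral_congr
      intro τ _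
      simp only
      field_simp
    rw [h2, h1, mul_zero, mul_one, smul_eq_mul]
    unfold Ip
    field_simp

/-- the angle -/
noncomputable def ph (μ K β : ℝ) (ψ : ℝ → ℝ) (θ : ℝ) : ℝ := Ip μ K β ψ θ / θ

lemma ph_eq {ψ : ℝ → ℝ} (h : IsSol (Real.pi / 2) (Fn μ K β) ψ) {θ : ℝ}
    (hθ : θ ∈ Icc 0 (Real.pi / 2)) : ph μ K β ψ θ = θ * ψ θ := by
  unfold ph
  rw [Ip_eq h hθ]
  by_cases h0 : θ = 0
  · rw [h0]; simp
  · field_simp

lemma hasDerivAt_ph (hμ : 0 < μ) (hμ1 : μ ≤ 1) {ψ : ℝ → ℝ} (hψ : Continuous ψ) {θ : ℝ}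
    (hθ : 0 < θ) : HasDerivAt (ph μ K β ψ) (Fn μ K β θ (ψ θ) - ph μ K β ψ θ / θ) θ := by
  have := (hasDerivAt_Ip (K := K) (β := β) hμ hμ1 hψ θ).div (hasDerivAt_id θ) hθ.ne'
  refine this.congr_deriv ?_
  unfold ph
  simp only [id]
  field_simp

lemma Fn_zero (hK : 0 ≤ K) (x : ℝ) : Fn μ K β 0 x = β * μ + 2 - μ := by
  unfold Fn
  rw [cl_eq (⟨le_refl _, hpi2⟩ : (0 : ℝ) ∈ Icc 0 (Real.pi / 2)), zero_mul, Pn_zero, Qn_zero_left,
    add_zero]

lemma psi_zero (hK : 0 ≤ K) {ψ : ℝ → ℝ} (h : IsSol (Real.pi / 2) (Fn μ K β) ψ) :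
    ψ 0 = (β * μ + 2 - μ) / 2 := by
  rw [h 0 ⟨le_refl _, hpi2⟩]
  simp only [zero_mul, Fn_zero hK]
  rw [intervalIntegral.integral_mul_const, integral_id]
  ring

/-- the true equation as long as the truncation is not active -/
lemma Fn_true (hK : 0 ≤ K) {θ x : ℝ} (hθ : θ ∈ Ioc 0 (Real.pi / 2)) (hx : x ∈ Icc 0 K) :
    Fn μ K β θ x = Gn μ β θ (θ * x) + x := by
  unfold Fn Gn
  rw [cl_eq (⟨hθ.1.le, hθ.2⟩ : θ ∈ Icc 0 (Real.pi / 2)), cl_eq hx, Qn_eq hθ.1.ne']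
  ring

lemma abs_Sn_le (hμ : 0 < μ) (hμ1 : μ ≤ 1) (φ : ℝ) : |Sn μ φ| ≤ 1 / μ := by
  have hD := Dn_pos hμ hμ1 φ
  unfold Sn
  rw [abs_div, abs_of_pos hD]
  apply div_le_div₀ (by norm_num) _ hμ (Dn_ge hμ hμ1 φ)
  rw [abs_mul]
  calc _ ≤ 1 * 1 := mul_le_mul (Real.abs_sin_le_one _) (Real.abs_cos_le_one _) (abs_nonneg _)
        (by norm_num)
    _ = 1 := one_mul _

lemma cot_nonneg {θ : ℝ} (hθ : θ ∈ Ioc 0 (Real.pi / 2)) : 0 ≤ Real.cos θ / Real.sin θ := by
  have h1 : 0 ≤ Real.cos θ := Real.cos_nonneg_of_mem_Icc ⟨by linarith [hθ.1, Real.pi_pos], hθ.2⟩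
  have h2 : 0 < Real.sin θ := Real.sin_pos_of_pos_of_lt_pi hθ.1 (by linarith [hθ.2, Real.pi_pos])
  positivity

lemma cot_le {θ : ℝ} (hθ : θ ∈ Ioc 0 (Real.pi / 2)) : Real.cos θ / Real.sin θ ≤ 1 / θ := by
  have h2 : 0 < Real.sin θ := Real.sin_pos_of_pos_of_lt_pi hθ.1 (by linarith [hθ.2, Real.pi_pos])
  have h := (sin_sub_mul_cos ⟨hθ.1.le, hθ.2⟩).1
  rw [div_le_div_iff₀ h2 hθ.1]
  linarith

/-- the constants -/
noncomputable def K1 (μ : ℝ) : ℝ := 5 / μ + 1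
/-- the constants -/
noncomputable def K2 (μ : ℝ) : ℝ := K1 μ + K1 μ / μ
/-- the constants -/
noncomputable def K3 (μ : ℝ) : ℝ := K2 μ + 1

/-- **A priori bounds.** -/
theorem apriori (hμ : 0 < μ) (hμ1 : μ ≤ 1) (hβ : 1 ≤ β) (hβ3 : β ≤ 3) {ψ : ℝ → ℝ}
    (hψ : Continuous ψ) (h : IsSol (Real.pi / 2) (Fn μ (K3 μ) β) ψ) :
    ∀ θ ∈ Icc 0 (Real.pi / 2), 0 < ψ θ ∧ ψ θ < K3 μ := by
  have hK1 : 0 < K1 μ := by unfold K1; positivity
  have hK2 : 0 < K2 μ := by unfold K2; positivity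
  have hK3 : 0 < K3 μ := by unfold K3; positivity
  have hK12 : K1 μ ≤ K2 μ := by
    unfold K2
    have : 0 ≤ K1 μ / μ := by positivity
    linarith
  have hψ0 := psi_zero hK3.le h
  have hP : ∀ φ, Pn μ β φ ≤ 5 / μ := fun φ => (Pn_le hμ hμ1 (by linarith) φ).trans (by
    gcongr; linarith)
  have hB : 0 < β * μ + 2 - μ := by nlinarith
  set φ := ph μ (K3 μ) β ψ with hφ
  have hφe : ∀ θ ∈ Icc 0 (Real.pi / 2), φ θ = θ * ψ θ := fun θ hθ => ph_eq h hθ
  have hφd : ∀ θ, 0 < θ → HasDerivAt φ (Fn μ (K3 μ) β θ (ψ θ) - φ θ / θ) θ := fun θ hθ =>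
    hasDerivAt_ph hμ hμ1 hψ hθ
  -- positivity
  have hpos : ∀ θ ∈ Icc 0 (Real.pi / 2), 0 < ψ θ := by
    by_contra hcon
    push Not at hcon
    obtain ⟨t1, ht1, hψt1⟩ := hcon
    set S : Set ℝ := {r | r ∈ Icc 0 t1 ∧ ψ r ≤ 0} with hS
    have hSc : IsClosed S := by
      have := hψ.continuousOn.preimage_isClosed_of_isClosed (isClosed_Icc (a := 0) (b := t1))
        (isClosed_Iic (a := 0))
      convert! this using 1
    have hSn : S.Nonempty := ⟨t1, ⟨ht1.1, le_refl _⟩, hψt1⟩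
    have hSb : BddBelow S := ⟨0, fun r hr => hr.1.1⟩
    set b := sInf S with hb
    have hbS : b ∈ S := hSc.csInf_mem hSn hSb
    have hb0 : 0 < b := by
      refine lt_of_le_of_ne hbS.1.1 fun h0 => ?_
      have := hbS.2
      rw [← h0, hψ0] at this
      linarith
    have hbI : b ∈ Icc 0 (Real.pi / 2) := ⟨hbS.1.1, hbS.1.2.trans ht1.2⟩
    have hlt : ∀ t ∈ Ioo 0 b, 0 < ψ t := by
      intro t ht
      by_contra hc
      push Not at hc
      have : t ∈ S := ⟨⟨ht.1.le, ht.2.le.trans hbS.1.2⟩, hc⟩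
      exact absurd (csInf_le hSb this) (not_le.mpr ht.2)
    have hψb : ψ b = 0 := by
      apply le_antisymm hbS.2
      have h1 : Tendsto ψ (𝓝[<] b) (𝓝 (ψ b)) := hψ.continuousAt.tendsto.mono_left nhdsWithin_le_nhds
      refine ge_of_tendsto h1 ?_
      filter_upwards [Ioo_mem_nhdsLT hb0] with x hx using (hlt x hx).le
    have hφb : φ b = 0 := by rw [hφe b hbI, hψb, mul_zero]
    have hd := hφd b hb0
    rw [hψb, hφb, zero_div, sub_zero, Fn_true hK3.le ⟨hb0, hbI.2⟩ ⟨le_refl _, hK3.le⟩] at hd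
    unfold Gn at hd
    rw [mul_zero, Pn_zero, Sn_zero, mul_zero, sub_zero, add_zero] at hd
    have hslope := (hasDerivWithinAt_iff_tendsto_slope' (s := Iio b) (by simp)).mp
      hd.hasDerivWithinAt
    have hle : β * μ + 2 - μ ≤ 0 := by
      refine le_of_tendsto hslope ?_
      filter_upwards [Ioo_mem_nhdsLT hb0] with x hx
      rw [slope_def_field, hφb, sub_zero, hφe x ⟨hx.1.le, hx.2.le.trans hbI.2⟩]
      exact (div_neg_of_pos_of_neg (mul_pos hx.1 (hlt x hx)) (by linarith [hx.2])).le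
    linarith
  intro θ hθ
  refine ⟨hpos θ hθ, ?_⟩
  by_contra hcon
  push Not at hcon
  set S : Set ℝ := {r | r ∈ Icc 0 θ ∧ K3 μ ≤ ψ r} with hS
  have hSc : IsClosed S := by
    have := hψ.continuousOn.preimage_isClosed_of_isClosed (isClosed_Icc (a := 0) (b := θ))
      (isClosed_Ici (a := K3 μ))
    convert! this using 1
  have hSn : S.Nonempty := ⟨θ, ⟨hθ.1, le_refl _⟩, hcon⟩
  have hSb : BddBelow S := ⟨0, fun r hr => hr.1.1⟩
  set b := sInf S with hb
  have hbS : b ∈ S := hSc.csInf_mem hSn hSb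
  have hB3 : (β * μ + 2 - μ) / 2 < K1 μ := by
    unfold K1
    have h5 : 5 ≤ 5 / μ := by rw [le_div_iff₀ hμ]; linarith
    nlinarith
  have hb0 : 0 < b := by
    refine lt_of_le_of_ne hbS.1.1 fun h0 => ?_
    have := hbS.2
    rw [← h0, hψ0] at this
    have : K3 μ = K2 μ + 1 := rfl
    linarith
  have hbI : b ≤ Real.pi / 2 := hbS.1.2.trans hθ.2
  have hlt : ∀ t ∈ Ico 0 b, ψ t < K3 μ := by
    intro t ht
    by_contra hc
    push Not at hc
    have : t ∈ S := ⟨⟨ht.1, ht.2.le.trans hbS.1.2⟩, hc⟩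
    exact absurd (csInf_le hSb this) (not_le.mpr ht.2)
  -- the true equation on `(0, b)`
  have htrue : ∀ t ∈ Ioo 0 b, HasDerivAt φ (Gn μ β t (φ t)) t := by
    intro t ht
    have htI : t ∈ Ioc 0 (Real.pi / 2) := ⟨ht.1, ht.2.le.trans hbI⟩
    have hd := hφd t ht.1
    rw [Fn_true hK3.le htI ⟨(hpos t ⟨htI.1.le, htI.2⟩).le, (hlt t ⟨ht.1.le, ht.2⟩).le⟩,
      ← hφe t ⟨htI.1.le, htI.2⟩] at hd
    refine hd.congr_deriv ?_
    have : φ t / t = ψ t := by
      rw [hφe t ⟨htI.1.le, htI.2⟩]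
      have := ht.1.ne'
      field_simp
    rw [this]; ring
  have hd0 : HasDerivWithinAt φ (ψ 0) (Ici 0) 0 := by
    rw [← hasDerivWithinAt_Ioi_iff_Ici, hasDerivWithinAt_iff_tendsto_slope' (by simp)]
    have h1 : Tendsto ψ (𝓝[>] 0) (𝓝 (ψ 0)) := hψ.continuousAt.tendsto.mono_left nhdsWithin_le_nhds
    refine h1.congr' ?_
    filter_upwards [Ioo_mem_nhdsGT (by positivity : (0 : ℝ) < Real.pi / 2)] with t ht
    rw [slope_def_field, hφe t ⟨ht.1.le, ht.2.le⟩, hφe 0 ⟨le_refl _, hpi2⟩]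
    have := ht.1.ne'
    field_simp
    ring
  have hφc : ContinuousOn φ (Icc 0 (Real.pi / 2)) :=
    (continuous_id.mul hψ).continuousOn.congr fun t ht => hφe t ht
  -- first phase
  obtain ⟨t0, ht0⟩ : ∃ t0 : ℝ, t0 = min b (Real.pi / 2 / K1 μ) := ⟨_, rfl⟩
  have ht0b : t0 ≤ b := by rw [ht0]; exact min_le_left _ _
  have ht0K : t0 ≤ Real.pi / 2 / K1 μ := by rw [ht0]; exact min_le_right _ _
  have ht00 : 0 < t0 := by rw [ht0]; exact lt_min hb0 (by positivity)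
  have hphase1 : ∀ t ∈ Icc 0 t0, φ t ≤ K1 μ * t := by
    refine image_le_of_deriv_right_lt_deriv_boundary (f := φ)
      (f' := fun t => if t = 0 then ψ 0 else Gn μ β t (φ t)) (B := fun t => K1 μ * t)
      (B' := fun _ => K1 μ)
      (hφc.mono (Icc_subset_Icc_right (ht0b.trans hbI))) ?_ ?_ ?_ ?_
    · intro t ht
      rcases eq_or_lt_of_le ht.1 with h0 | h0
      · simp only [← h0, if_true]
        exact hd0
      · rw [if_neg h0.ne']
        exact (htrue t ⟨h0, lt_of_lt_of_le ht.2 ht0b⟩).hasDerivWithinAt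
    · rw [hφe 0 ⟨le_refl _, hpi2⟩]; simp
    · intro t
      simpa using (hasDerivAt_id t).const_mul (K1 μ)
    · intro t ht heq
      rcases eq_or_lt_of_le ht.1 with h0 | h0
      · simp only [← h0, if_true]
        rw [hψ0]; exact hB3
      · simp only [if_neg h0.ne']
        have htI : t ∈ Ioc 0 (Real.pi / 2) := ⟨h0, (ht.2.le.trans ht0b).trans hbI⟩
        have h1 : φ t ≤ Real.pi / 2 := by
          rw [heq]
          have := ht.2.le.trans ht0K
          rw [le_div_iff₀ hK1] at this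
          linarith
        have h2 : 0 ≤ φ t := by rw [heq]; positivity
        have h3 : 0 ≤ Sn μ (φ t) := by
          unfold Sn
          have h4 : 0 ≤ Real.sin (φ t) :=
            Real.sin_nonneg_of_nonneg_of_le_pi h2 (by linarith [Real.pi_pos])
          have h5 : 0 ≤ Real.cos (φ t) :=
            Real.cos_nonneg_of_mem_Icc ⟨by linarith [Real.pi_pos], h1⟩
          have := Dn_pos hμ hμ1 (φ t)
          positivity
        have h6 := mul_nonneg (cot_nonneg htI) h3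
        have h7 := hP (φ t)
        unfold Gn K1
        linarith
  have hbb : φ b ≤ K2 μ * b := by
    rcases le_or_gt b (Real.pi / 2 / K1 μ) with hcase | hcase
    · have : t0 = b := by rw [ht0, min_eq_left hcase]
      have h1 := hphase1 b ⟨hb0.le, this.ge⟩
      nlinarith
    · have ht0e : t0 = Real.pi / 2 / K1 μ := by rw [ht0, min_eq_right hcase.le]
      refine image_le_of_deriv_right_lt_deriv_boundary (f := φ) (a := t0) (b := b)
        (f' := fun t => Gn μ β t (φ t)) (B := fun t => K2 μ * t)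
        (B' := fun _ => K2 μ)
        (hφc.mono (Icc_subset_Icc ht00.le hbI)) ?_ ?_ ?_ ?_ ⟨ht0b, le_refl _⟩
      · intro t ht
        exact (htrue t ⟨lt_of_lt_of_le ht00 ht.1, ht.2⟩).hasDerivWithinAt
      · have := hphase1 t0 ⟨ht00.le, le_refl _⟩
        nlinarith
      · intro t
        simpa using (hasDerivAt_id t).const_mul (K2 μ)
      · intro t ht _
        have htpos : 0 < t := lt_of_lt_of_le ht00 ht.1
        have htI : t ∈ Ioc 0 (Real.pi / 2) := ⟨htpos, ht.2.le.trans hbI⟩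
        have h7 := hP (φ t)
        have h8 : |Real.cos t / Real.sin t * Sn μ (φ t)| ≤ 1 / t0 * (1 / μ) := by
          rw [abs_mul, abs_of_nonneg (cot_nonneg htI)]
          apply mul_le_mul _ (abs_Sn_le hμ hμ1 _) (abs_nonneg _) (by positivity)
          exact (cot_le htI).trans (one_div_le_one_div_of_le ht00 ht.1)
        have h9 : 1 / t0 ≤ K1 μ := by
          rw [ht0e, one_div, inv_div, div_le_iff₀ (by positivity)]
          have : (1 : ℝ) ≤ Real.pi / 2 := by linarith [Real.pi_gt_three]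
          nlinarith
        have h10 : 1 / t0 * (1 / μ) ≤ K1 μ / μ := by
          rw [div_eq_mul_one_div (K1 μ) μ]
          exact mul_le_mul_of_nonneg_right h9 (by positivity)
        have h11 := neg_abs_le (Real.cos t / Real.sin t * Sn μ (φ t))
        unfold Gn K2
        have : K1 μ = 5 / μ + 1 := rfl
        linarith
  rw [hφe b ⟨hb0.le, hbI⟩] at hbb
  have h1 : ψ b ≤ K2 μ := by
    rw [mul_comm (K2 μ) b] at hbb
    exact le_of_mul_le_mul_left hbb hb0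
  have h2 := hbS.2
  have : K3 μ = K2 μ + 1 := rfl
  linarith

/-- **Family of solutions.** -/
theorem exists_angle (hμ : 0 < μ) (hμ1 : μ ≤ 1) :
    ∃ φ ψ : ℝ → ℝ → ℝ, (∀ β ∈ Icc 1 3, AngSol μ β (φ β) (ψ β)) ∧
      ContinuousOn (fun β => φ β (Real.pi / 2)) (Icc 1 3) ∧
      φ 1 (Real.pi / 2) = Real.pi / 2 := by
  have hK1 : 0 < K1 μ := by unfold K1; positivity
  have hK2 : 0 < K2 μ := by unfold K2; positivity
  have hK3 : 0 < K3 μ := by unfold K3; positivity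
  obtain ⟨ψ, hψc, hψs, huniq, hpar⟩ := exists_family (b := Real.pi / 2)
    (M := 5 / μ + (3 * K3 μ ^ 2 + 1) / μ ^ 2 * 4 * K3 μ)
    (L := 5 / μ + (3 * K3 μ ^ 2 + 1) / μ ^ 2 * 2) (C := 1) hpi2 (by positivity) (by norm_num)
    (F := fun β => Fn μ (K3 μ) β) (I := Icc 1 3)
    (fun β hβ => Fn_adm hμ hμ1 (by linarith [hβ.1]) hβ.2 hK3.le)
    (fun β hβ β' hβ' s x => Fn_par hμ hμ1 s x)
  have hmem : Real.pi / 2 ∈ Icc 0 (Real.pi / 2) := ⟨hpi2, le_refl _⟩
  refine ⟨fun β => ph μ (K3 μ) β (ψ β), ψ, ?_, ?_, ?_⟩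
  · intro β hβ
    have hap := apriori hμ hμ1 hβ.1 hβ.2 (hψc β hβ) (hψs β hβ)
    refine { cψ := hψc β hβ, pos := fun θ hθ => (hap θ hθ).1,
             eq := fun θ hθ => ph_eq (hψs β hβ) hθ, d := fun θ hθ => ?_ }
    have hθI : θ ∈ Icc 0 (Real.pi / 2) := ⟨hθ.1.le, hθ.2⟩
    have hd := hasDerivAt_ph (K := K3 μ) (β := β) hμ hμ1 (hψc β hβ) hθ.1
    rw [Fn_true hK3.le hθ ⟨(hap θ hθI).1.le, (hap θ hθI).2.le⟩, ← ph_eq (hψs β hβ) hθI] at hd
    refine hd.congr_deriv ?_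
    have : ph μ (K3 μ) β (ψ β) θ / θ = ψ β θ := by
      rw [ph_eq (hψs β hβ) hθI]
      have := hθ.1.ne'
      field_simp
    rw [this]; ring
  · have h1 : ContinuousOn (fun β => Real.pi / 2 * ψ β (Real.pi / 2)) (Icc 1 3) :=
      continuousOn_const.mul (hpar (Real.pi / 2))
    exact h1.congr fun β hβ => ph_eq (hψs β hβ) hmem
  · have h13 : (1 : ℝ) ∈ Icc (1 : ℝ) 3 := ⟨le_refl _, by norm_num⟩
    show ph μ (K3 μ) 1 (ψ 1) (Real.pi / 2) = Real.pi / 2
    rw [ph_eq (hψs 1 h13) hmem]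
    have h1 : (1 : ℝ) = ψ 1 (Real.pi / 2) := by
      refine huniq 1 h13 (fun _ => 1) continuous_const ?_ _ hmem
      intro θ hθ
      have hone : (1 : ℝ) ∈ Icc 0 (K3 μ) := by
        refine ⟨by norm_num, ?_⟩
        have : 0 ≤ K1 μ / μ := by positivity
        have : 0 ≤ 5 / μ := by positivity
        unfold K3 K2 K1 at *
        linarith
      have hF : ∀ s ∈ Icc 0 (Real.pi / 2), Fn μ (K3 μ) 1 s 1 = 2 := by
        intro s hs
        rcases eq_or_lt_of_le hs.1 with h0 | h0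
        · rw [← h0, Fn_zero hK3.le]; ring
        · rw [Fn_true hK3.le ⟨h0, hs.2⟩ hone, mul_one]
          unfold Gn Pn Sn
          have hD := Dn_pos hμ hμ1 s
          have hsin : 0 < Real.sin s :=
            Real.sin_pos_of_pos_of_lt_pi h0 (by linarith [hs.2, Real.pi_pos])
          have e : Real.cos s / Real.sin s * (Real.sin s * Real.cos s / Dn μ s)
              = Real.cos s ^ 2 / Dn μ s := by field_simp
          rw [e, ← sub_div]
          have e2 : 1 * μ + (2 - μ) * Real.cos s ^ 2 - Real.cos s ^ 2 = Dn μ s := by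
            unfold Dn
            have := Real.sin_sq_add_cos_sq s
            have e3 : Real.cos s ^ 2 = 1 - Real.sin s ^ 2 := by linarith
            rw [e3]; ring
          rw [e2, div_self hD.ne']
          norm_num
      have : ∫ τ in (0 : ℝ)..1, τ * Fn μ (K3 μ) 1 (θ * τ) 1 = ∫ τ in (0 : ℝ)..1, τ * 2 := by
        apply intervalIntegral.integral_congr
        intro τ hτ
        rw [uIcc_of_le (by norm_num)] at hτ
        simp only
        rw [hF _ ⟨mul_nonneg hθ.1 hτ.1, (mul_le_of_le_one_right hθ.1 hτ.2).trans hθ.2⟩]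
      rw [this, intervalIntegral.integral_mul_const, integral_id]
      norm_num
    rw [← h1, mul_one]

end

end Pool.Agent.H76.SC3
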