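import Pool.Agent.H76.SC3.Plane3

/-!
# The weak formulation in `ℝ³`
-/

set_option autoImplicit false
open MeasureTheory Metric Filter Topology Set
open scoped ContDiff RealInnerProductSpace

namespace Pool.Agent.H76.SC3

open Pool.Agent.H76.PL (E Mat V A grad osc IsPHarmonic Homog ee er et norm_er er_zero er_one
  integral_polar hasDerivAt_er continuous_er continuous_et)
open Pool.Agent.H76.BP (fs sn fsL snL inner_split norm_sq_split snL_apply fsL_apply
  inner_grad_sum norm_fs_one continuous_grad grad_zero integral_E1 integral_E2 norm_comb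
  measurePreserving_pair)

lemma continuous_A {n d : ℕ} {p : ℝ} (hp1 : 1 < p) : Continuous (A p : Mat n d → Mat n d) := by
  rw [continuous_iff_continuousAt]
  intro ξ
  by_cases hξ : ξ = 0
  · subst hξ
    show Tendsto _ _ _
    have hA0 : A p (0 : Mat n d) = 0 := by unfold A; rw [smul_zero]
    rw [hA0]
    have hb : ∀ η : Mat n d, ‖A p η‖ ≤ ‖η‖ ^ (p - 1) := by
      intro η
      unfold A
      rw [norm_smul, Real.norm_of_nonneg (by positivity)]
      rcases eq_or_lt_of_le (norm_nonneg η) with h | h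
      · rw [← h, mul_zero]; positivity
      · rw [← Real.rpow_add_one h.ne']
        apply le_of_eq; congr 1; ring
    refine squeeze_zero_norm hb ?_
    have h4 : ContinuousAt (fun η : Mat n d => ‖η‖ ^ (p - 1)) 0 :=
      continuous_norm.continuousAt.rpow_const (Or.inr (by linarith))
    have := h4.tendsto
    rwa [norm_zero, Real.zero_rpow (by linarith)] at this
  · unfold A
    exact (continuous_norm.continuousAt.rpow_const
      (Or.inl (norm_ne_zero_iff.mpr hξ))).smul continuousAt_id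

/-- the map -/
noncomputable def h3 {n : ℕ} (β : ℝ) (F : ℝ → ℝ) (w : E n) : E (1 + 2) → E n :=
  fun y => u3 β F y • w

section
variable {n : ℕ} {p β : ℝ} {F Ap : ℝ → ℝ}

lemma contDiff_h3 (hβ : 1 < β) (h : G3 p β F Ap) (w : E n) : ContDiff ℝ 1 (h3 β F w) :=
  (contDiff_u3 hβ h.dF h.cA).smul contDiff_const

lemma norm_Gv {R : ℝ} (hR : 0 < R) (θ t : ℝ) :
    ‖Gv β F Ap R θ t‖ = R ^ (β - 1) * Real.sqrt (NE β F Ap θ) := by
  unfold Gv
  rw [norm_pt, norm_smul, Real.norm_of_nonneg (by positivity)]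
  congr 1
  rw [← Real.sqrt_sq (norm_nonneg _)]
  congr 1
  rw [EuclideanSpace.norm_sq_eq, Fin.sum_univ_two]
  simp only [er, et, NE]
  simp
  have := Real.sin_sq_add_cos_sq θ
  linear_combination (β ^ 2 * fE F θ ^ 2 + gE Ap θ ^ 2) * this

lemma norm_grad_h3 (h : G3 p β F Ap) {w : E n} (hw : ‖w‖ = 1) {R : ℝ} (hR : 0 < R) (θ t : ℝ) :
    ‖grad (h3 β F w) (pt t (R • er θ))‖ = R ^ (β - 1) * Real.sqrt (NE β F Ap θ) := by
  unfold h3
  rw [norm_grad_scalar w (hasFDerivAt_u3 h.dF hR θ t), hw, one_mul, norm_Gv hR]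

/-- the integrand -/
noncomputable def gg (p β : ℝ) (F : ℝ → ℝ) (w : E n) (φ : E (1 + 2) → E n) (x : E (1 + 2)) : ℝ :=
  ⟪A p (grad (h3 β F w) x), grad φ x⟫

lemma gg_polar (h : G3 p β F Ap) {w : E n} (hw : ‖w‖ = 1) (φ : E (1 + 2) → E n) {R : ℝ}
    (hR : 0 < R) (θ t : ℝ) :
    gg p β F w φ (pt t (R • er θ)) = R ^ ((β - 1) * (p - 1)) * NE β F Ap θ ^ ((p - 2) / 2)
      * (β * fE F θ * ⟪w, fderiv ℝ φ (pt t (R • er θ)) (pt t (er θ))⟫
        + gE Ap θ * ⟪w, fderiv ℝ φ (pt t (R • er θ)) (pt t (et θ))⟫) := by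
  have hN := h.N θ
  unfold gg A
  rw [real_inner_smul_left, norm_grad_h3 h hw hR]
  unfold h3
  rw [inner_grad_scalar w (hasFDerivAt_u3 h.dF hR θ t)]
  unfold Gv
  generalize fderiv ℝ φ (pt t (R • er θ)) = L
  rw [map_smul, map_add, map_smul, map_smul, map_smul, map_add, map_smul, map_smul,
    real_inner_smul_right, inner_add_right, real_inner_smul_right, real_inner_smul_right]
  have e1 : (R ^ (β - 1) * Real.sqrt (NE β F Ap θ)) ^ (p - 2)
      = R ^ ((β - 1) * (p - 2)) * NE β F Ap θ ^ ((p - 2) / 2) := by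
    rw [Real.mul_rpow (by positivity) (Real.sqrt_nonneg _), ← Real.rpow_mul hR.le,
      Real.sqrt_eq_rpow, ← Real.rpow_mul hN.le]
    congr 2
    ring
  have e2 : R ^ ((β - 1) * (p - 1)) = R ^ ((β - 1) * (p - 2)) * R ^ (β - 1) := by
    rw [← Real.rpow_add hR]; congr 1; ring
  rw [e1, e2]
  ring

lemma continuous_gg (hp1 : 1 < p) (hβ : 1 < β) (h : G3 p β F Ap) (w : E n)
    {φ : E (1 + 2) → E n} (hφ : ContDiff ℝ 1 φ) : Continuous (gg p β F w φ) := by
  unfold gg
  exact ((continuous_A hp1).comp (continuous_grad (contDiff_h3 hβ h w))).inner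
    (continuous_grad hφ)

lemma gg_zero {w : E n} {φ : E (1 + 2) → E n} {x : E (1 + 2)} (hx : x ∉ tsupport φ) :
    gg p β F w φ x = 0 := by
  unfold gg
  rw [grad_zero hx, inner_zero_right]

/-- the integral over a meridian half plane vanishes -/
lemma plane_zero (hp1 : 1 < p) (hβ : 1 < β) (h : G3 p β F Ap) {w : E n} (hw : ‖w‖ = 1)
    {φ : E (1 + 2) → E n} (hφ : ContDiff ℝ 1 φ) {M : ℝ} (hM : 0 < M)
    (hMφ : ∀ x, M ≤ ‖x‖ → x ∉ tsupport φ) (t : ℝ) :
    ∫ z : E 2, max (z 1) 0 * gg p β F w φ (pt t z) = 0 := by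
  have hgc := continuous_gg hp1 hβ h w hφ
  rw [integral_polar]
  set H : ℝ × ℝ → ℝ := fun q => q.1 • (max ((q.1 • er q.2) 1) 0
    * gg p β F w φ (pt t (q.1 • er q.2))) with hH
  have cer : Continuous fun q : ℝ × ℝ => q.1 • er q.2 :=
    continuous_fst.smul (continuous_er.comp continuous_snd)
  have cx : Continuous fun q : ℝ × ℝ => pt t (q.1 • er q.2) := (pt t).continuous.comp cer
  have cH : Continuous H := by
    have h1 : Continuous fun q : ℝ × ℝ => (q.1 • er q.2) 1 := by
      simp only [PiLp.smul_apply, er_one, smul_eq_mul]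
      exact continuous_fst.mul (Real.continuous_sin.comp continuous_snd)
    have h2 : Continuous fun q : ℝ × ℝ => gg p β F w φ (pt t (q.1 • er q.2)) := hgc.comp cx
    exact continuous_fst.smul ((h1.max continuous_const).mul h2)
  have hnx : ∀ q : ℝ × ℝ, ‖pt t (q.1 • er q.2)‖ = |q.1| := by
    intro q
    rw [norm_pt, norm_smul, norm_er, mul_one, Real.norm_eq_abs]
  have hset : ∫ q in Ioi (0 : ℝ) ×ˢ Ioo (-Real.pi) Real.pi, H q
      = ∫ q in Ioc (0 : ℝ) M ×ˢ Ioo 0 Real.pi, H q := by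
    apply setIntegral_eq_of_subset_of_forall_sdiff_eq_zero
    · exact measurableSet_Ioi.prod measurableSet_Ioo
    · intro q hq
      exact ⟨hq.1.1, by linarith [hq.2.1, Real.pi_pos], hq.2.2⟩
    · intro q hq
      obtain ⟨⟨h1, h2⟩, h3⟩ := hq
      by_cases h4 : q.1 ≤ M
      · have h5 : q.2 ≤ 0 := by
          by_contra h5
          exact h3 ⟨⟨h1, h4⟩, not_le.mp h5, h2.2⟩
        have h6 : (q.1 • er q.2) 1 ≤ 0 := by
          simp only [PiLp.smul_apply, er_one, smul_eq_mul]
          have : Real.sin q.2 ≤ 0 := Real.sin_nonpos_of_nonpos_of_neg_pi_le h5 h2.1.le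
          exact mul_nonpos_of_nonneg_of_nonpos (le_of_lt h1) this
        rw [hH]
        simp only
        rw [max_eq_right h6, zero_mul, smul_zero]
      · have h5 : gg p β F w φ (pt t (q.1 • er q.2)) = 0 := by
          apply gg_zero
          apply hMφ
          rw [hnx]
          exact (not_le.mp h4).le.trans (le_abs_self _)
        rw [hH]
        simp only
        rw [h5, mul_zero, smul_zero]
  rw [hset]
  have hint : IntegrableOn H (Ioc (0 : ℝ) M ×ˢ Ioo 0 Real.pi) (volume.prod volume) := by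
    rw [← Measure.volume_eq_prod]
    have h1 : IntegrableOn H (Icc (0 : ℝ) M ×ˢ Icc 0 Real.pi) :=
      cH.continuousOn.integrableOn_compact (isCompact_Icc.prod isCompact_Icc)
    exact h1.mono_set (prod_mono Ioc_subset_Icc_self Ioo_subset_Icc_self)
  rw [Measure.volume_eq_prod, setIntegral_prod _ hint]
  -- the polar integrand
  set Ψ : ℝ × ℝ → ℝ := fun q => ⟪w, φ (pt t (q.1 • er q.2))⟫ with hΨ
  set ΨR : ℝ × ℝ → ℝ := fun q => ⟪w, fderiv ℝ φ (pt t (q.1 • er q.2)) (pt t (er q.2))⟫ with hΨR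
  set ΨT : ℝ × ℝ → ℝ := fun q => ⟪w, fderiv ℝ φ (pt t (q.1 • er q.2)) (q.1 • pt t (et q.2))⟫
    with hΨT
  have hφd : Differentiable ℝ φ := hφ.differentiable (by simp)
  have cφ' : Continuous fun q : ℝ × ℝ => fderiv ℝ φ (pt t (q.1 • er q.2)) :=
    (hφ.continuous_fderiv (by simp)).comp cx
  have c0 : Continuous Ψ := continuous_const.inner (hφ.continuous.comp cx)
  have cR : Continuous ΨR := by
    apply continuous_const.inner
    exact cφ'.clm_apply ((pt t).continuous.comp (continuous_er.comp continuous_snd))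
  have cT : Continuous ΨT := by
    apply continuous_const.inner
    exact cφ'.clm_apply (continuous_fst.smul
      ((pt t).continuous.comp (continuous_et.comp continuous_snd)))
  have dR : ∀ R θ, HasDerivAt (fun R => Ψ (R, θ)) (ΨR (R, θ)) R := by
    intro R θ
    have h1 : HasDerivAt (fun R : ℝ => pt t (R • er θ)) (pt t (er θ)) R := by
      have h2 : HasDerivAt (fun R : ℝ => R • er θ) (er θ) R := by
        simpa using (hasDerivAt_id R).smul_const (er θ)
      exact (pt t).hasFDerivAt.comp_hasDerivAt R h2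
    have h2 := (hφd (pt t (R • er θ))).hasFDerivAt.comp_hasDerivAt R h1
    exact (innerSL ℝ w).hasFDerivAt.comp_hasDerivAt R h2
  have dT : ∀ R θ, HasDerivAt (fun θ => Ψ (R, θ)) (ΨT (R, θ)) θ := by
    intro R θ
    have h1 : HasDerivAt (fun θ : ℝ => pt t (R • er θ)) (R • pt t (et θ)) θ := by
      have h2 : HasDerivAt (fun θ : ℝ => R • er θ) (R • et θ) θ := (hasDerivAt_er θ).const_smul R
      have h3 := (pt t).hasFDerivAt.comp_hasDerivAt θ h2
      rwa [map_smul] at h3
    have h2 := (hφd (pt t (R • er θ))).hasFDerivAt.comp_hasDerivAt θ h1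
    exact (innerSL ℝ w).hasFDerivAt.comp_hasDerivAt θ h2
  have hz : ∀ θ, Ψ (M, θ) = 0 := by
    intro θ
    have h1 : pt t (M • er θ) ∉ tsupport φ := by
      apply hMφ
      rw [norm_pt, norm_smul, norm_er, mul_one, Real.norm_of_nonneg hM.le]
    rw [hΨ]
    simp only
    rw [image_eq_zero_of_notMem_tsupport h1, inner_zero_right]
  set s := 1 + (β - 1) * (p - 1) with hs
  have hs0 : 0 < s := by
    have : 0 < (β - 1) * (p - 1) := mul_pos (by linarith) (by linarith)
    linarith
  have key := h.planar hs0 hM (by rw [hs]; ring) c0 cR cT dR dT hz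
  refine Eq.trans ?_ key
  rw [intervalIntegral.integral_of_le hM.le]
  apply setIntegral_congr_fun measurableSet_Ioc
  intro R hR
  have hR0 : 0 < R := hR.1
  simp only
  rw [intervalIntegral.integral_of_le Real.pi_pos.le, integral_Ioc_eq_integral_Ioo]
  apply setIntegral_congr_fun measurableSet_Ioo
  intro θ hθ
  have hsin : 0 < Real.sin θ := Real.sin_pos_of_pos_of_lt_pi hθ.1 hθ.2
  simp only [hH, hΨR, hΨT]
  rw [gg_polar h hw φ hR0]
  have e1 : max ((R • er θ) 1) 0 = R * Real.sin θ := by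
    simp only [PiLp.smul_apply, er_one, smul_eq_mul]
    exact max_eq_left (by positivity)
  rw [e1]
  generalize fderiv ℝ φ (pt t (R • er θ)) = L
  rw [map_smul, real_inner_smul_right, smul_eq_mul]
  have e2 : R ^ s = R * R ^ ((β - 1) * (p - 1)) := by
    rw [hs, Real.rpow_add hR0, Real.rpow_one]
  have e3 : R ^ (s + 1) = R * (R * R ^ ((β - 1) * (p - 1))) := by
    rw [Real.rpow_add_one hR0.ne', e2]; ring
  rw [e2, e3]
  unfold qE yE
  ring

end

end Pool.Agent.H76.SC3
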